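import Pool.Agent.Helper98.LogPoly.Defs

/-! Splitting off the first slice of an i.i.d. sequence. -/

set_option autoImplicit false

namespace Pool.Agent.Helper98.LogPoly

open MeasureTheory ProbabilityTheory
open scoped ENNReal

section

variable {X : Type*}

/-- put `p.1` in front of the sequence `p.2` -/
def consE (p : X × (ℕ → X)) : ℕ → X := fun n => Nat.casesOn n p.1 p.2

theorem consE_zero (p : X × (ℕ → X)) : consE p 0 = p.1 := rfl

theorem consE_succ (p : X × (ℕ → X)) (n : ℕ) : consE p (n + 1) = p.2 n := rfl

variable [MeasurableSpace X]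

theorem measurable_consE : Measurable (consE (X := X)) := by
  rw [measurable_pi_iff]
  intro n
  cases n with
  | zero => exact measurable_fst
  | succ n => exact (measurable_pi_apply n).comp measurable_snd

theorem map_consE (ν : Measure X) [IsProbabilityMeasure ν] :
    (ν.prod (Measure.infinitePi (fun _ : ℕ => ν))).map consE =
      Measure.infinitePi (fun _ : ℕ => ν) := by
  classical
  apply Measure.eq_infinitePi
  intro s t ht
  rw [Measure.map_apply measurable_consE (MeasurableSet.pi s.countable_toSet (fun i _ => ht i))]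
  set s' : Finset ℕ := s.preimage Nat.succ (Nat.succ_injective.injOn) with hs'
  have hpre : consE ⁻¹' (Set.pi (s : Set ℕ) t) =
      (if 0 ∈ s then t 0 else Set.univ) ×ˢ (Set.pi (s' : Set ℕ) (fun i => t (i + 1))) := by
    ext p
    simp only [Set.mem_preimage, Set.mem_pi, Set.mem_prod, Finset.mem_coe]
    constructor
    · intro h
      refine ⟨?_, ?_⟩
      · by_cases h0 : 0 ∈ s
        · have := h 0 h0
          rw [consE_zero] at this
          simpa [h0] using this
        · simp [h0]
      · intro i hi
        have : i + 1 ∈ s := by simpa [hs'] using hi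
        exact h (i + 1) this
    · rintro ⟨h0, h1⟩ i hi
      cases i with
      | zero => rw [consE_zero]; simpa [hi] using h0
      | succ i => exact h1 i (by simpa [hs'] using hi)
  rw [hpre, Measure.prod_prod, Measure.infinitePi_pi _ (fun i _ => ht (i + 1))]
  have hs : s = (if 0 ∈ s then {0} else ∅) ∪ s'.image Nat.succ := by
    ext i
    cases i with
    | zero => by_cases h0 : 0 ∈ s <;> simp [h0]
    | succ i => by_cases h0 : 0 ∈ s <;> simp [h0, hs']
  have hdisj : Disjoint (if 0 ∈ s then ({0} : Finset ℕ) else ∅) (s'.image Nat.succ) := by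
    rw [Finset.disjoint_left]
    intro i hi hi'
    by_cases h0 : 0 ∈ s
    · simp [h0] at hi
      simp [hi] at hi'
    · simp [h0] at hi
  conv_rhs => rw [hs]
  rw [Finset.prod_union hdisj, Finset.prod_image (fun a _ b _ h => Nat.succ_injective h)]
  congr 1
  by_cases h0 : 0 ∈ s
  · simp [h0]
  · simp [h0]

theorem measurable_uncons :
    Measurable (fun e : ℕ → X => ((e 0, fun n => e (n + 1)) : X × (ℕ → X))) := by
  refine Measurable.prodMk (measurable_pi_apply 0) ?_
  rw [measurable_pi_iff]
  intro n
  exact measurable_pi_apply (n + 1)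

/-- the first slice and the other slices are independent -/
theorem uncons_mp (ν : Measure X) [IsProbabilityMeasure ν] :
    MeasurePreserving (fun e : ℕ → X => ((e 0, fun n => e (n + 1)) : X × (ℕ → X)))
      (Measure.infinitePi (fun _ : ℕ => ν)) (ν.prod (Measure.infinitePi (fun _ : ℕ => ν))) := by
  refine ⟨measurable_uncons, ?_⟩
  conv_lhs => rw [← map_consE ν]
  rw [Measure.map_map measurable_uncons measurable_consE]
  have : ((fun e : ℕ → X => ((e 0, fun n => e (n + 1)) : X × (ℕ → X))) ∘ consE) = id := by
    funext p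
    rfl
  rw [this, Measure.map_id]

theorem lintegral_cons (ν : Measure X) [IsProbabilityMeasure ν] {f : (ℕ → X) → ℝ≥0∞}
    (hf : Measurable f) :
    ∫⁻ e, f e ∂(Measure.infinitePi (fun _ : ℕ => ν)) =
      ∫⁻ a, ∫⁻ e, f (consE (a, e)) ∂(Measure.infinitePi (fun _ : ℕ => ν)) ∂ν := by
  conv_lhs => rw [← map_consE ν]
  rw [lintegral_map hf measurable_consE]
  exact lintegral_prod (fun p => f (consE p)) (hf.comp measurable_consE).aemeasurable

/-- the integral of a product of a function of the first slice and a function of the others -/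
theorem integral_uncons_mul (ν : Measure X) [IsProbabilityMeasure ν] {f : X → ℝ}
    {g : (ℕ → X) → ℝ} (hf : Integrable f ν)
    (hg : Integrable g (Measure.infinitePi (fun _ : ℕ => ν))) :
    Integrable (fun e : ℕ → X => f (e 0) * g (fun n => e (n + 1)))
      (Measure.infinitePi (fun _ : ℕ => ν)) ∧
    ∫ e : ℕ → X, f (e 0) * g (fun n => e (n + 1)) ∂(Measure.infinitePi (fun _ : ℕ => ν)) =
      (∫ a, f a ∂ν) * ∫ e, g e ∂(Measure.infinitePi (fun _ : ℕ => ν)) := by
  have h1 : Integrable (fun p : X × (ℕ → X) => f p.1 * g p.2)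
      (ν.prod (Measure.infinitePi (fun _ : ℕ => ν))) := hf.mul_prod hg
  have hmp := uncons_mp ν
  refine ⟨hmp.integrable_comp_of_integrable h1, ?_⟩
  have h2 : ∫ p : X × (ℕ → X), f p.1 * g p.2 ∂(ν.prod (Measure.infinitePi (fun _ : ℕ => ν))) =
      (∫ a, f a ∂ν) * ∫ e, g e ∂(Measure.infinitePi (fun _ : ℕ => ν)) :=
    integral_prod_mul f g
  rw [← h2, ← hmp.map_eq, integral_map hmp.measurable.aemeasurable]
  rw [hmp.map_eq]
  exact h1.aestronglyMeasurable

end

end Pool.Agent.Helper98.LogPoly
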