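import Pool.Agent.Helper98.LogPoly.Walk
import Pool.Agent.Helper98.LogPoly.Cons

/-! Exponentially tilted moments of the chaos polynomials. -/

set_option autoImplicit false

namespace Pool.Agent.Helper98.LogPoly.Mn

open MeasureTheory ProbabilityTheory
open scoped ENNReal

/-- the tilted moments of one slice -/
structure SMom (ν : Measure (Pt → ℝ)) (H : Pt → ℝ) (β : ℝ) : Prop where
  i0 : ∀ x : Pt, Integrable (fun ω : Pt → ℝ => Real.exp (β * ω x - β ^ 2 / 2)) ν ∧
      ∫ ω, Real.exp (β * ω x - β ^ 2 / 2) ∂ν = 1
  i1 : ∀ x y : Pt, Integrable (fun ω : Pt → ℝ => Real.exp (β * ω x - β ^ 2 / 2) * ω y) ν ∧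
      ∫ ω, Real.exp (β * ω x - β ^ 2 / 2) * ω y ∂ν = β * H (x - y)
  i2 : ∀ x y z : Pt,
      Integrable (fun ω : Pt → ℝ => Real.exp (β * ω x - β ^ 2 / 2) * (ω y * ω z)) ν ∧
      ∫ ω, Real.exp (β * ω x - β ^ 2 / 2) * (ω y * ω z) ∂ν =
        H (y - z) + β ^ 2 * H (x - y) * H (x - z)

theorem es_zero (l : List ℝ) : es 0 l = 1 := by cases l <;> rfl

theorem es_succ_nil (q : ℕ) : es (q + 1) [] = 0 := rfl

theorem es_succ_cons (q : ℕ) (a : ℝ) (l : List ℝ) :
    es (q + 1) (a :: l) = es (q + 1) l + a * es q l := rfl

/-- shifted index: `0` if `i = 0`, `f (i-1)` otherwise -/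
def dn (f : ℕ → ℝ) : ℕ → ℝ
  | 0 => 0
  | i + 1 => f i

theorem es_cons (i : ℕ) (a : ℝ) (l : List ℝ) :
    es i (a :: l) = es i l + a * dn (fun j => es j l) i := by
  cases i with
  | zero => simp [es_zero, dn]
  | succ i => rfl

/-- integrable with a given integral -/
def HI {Ω : Type*} [MeasurableSpace Ω] (μ : Measure Ω) (f : Ω → ℝ) (c : ℝ) : Prop :=
  Integrable f μ ∧ ∫ w, f w ∂μ = c

theorem HI.add {Ω : Type*} [MeasurableSpace Ω] {μ : Measure Ω} {f g : Ω → ℝ} {a b : ℝ}
    (hf : HI μ f a) (hg : HI μ g b) : HI μ (fun w => f w + g w) (a + b) :=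
  ⟨hf.1.add hg.1, by rw [integral_add hf.1 hg.1, hf.2, hg.2]⟩

theorem HI.congr {Ω : Type*} [MeasurableSpace Ω] {μ : Measure Ω} {f g : Ω → ℝ} {a b : ℝ}
    (hf : HI μ f a) (h : ∀ w, g w = f w) (hab : b = a) : HI μ g b := by
  have : g = f := funext h
  rw [this, hab]; exact hf

section

variable {ν : Measure (Pt → ℝ)} [IsProbabilityMeasure ν] {H : Pt → ℝ} {β : ℝ}

instance : IsProbabilityMeasure (muE ν) := by
  unfold muE; infer_instance

theorem HI_uncons {f : (Pt → ℝ) → ℝ} {g : (ℕ → Pt → ℝ) → ℝ} {a b : ℝ}
    (hf : Integrable f ν ∧ ∫ ω, f ω ∂ν = a) (hg : HI (muE ν) g b) :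
    HI (muE ν) (fun e => f (e 0) * g (fun n => e (n + 1))) (a * b) := by
  have := integral_uncons_mul ν hf.1 hg.1
  refine ⟨this.1, ?_⟩
  have h2 := this.2
  rw [hf.2] at h2
  rw [show (muE ν) = Measure.infinitePi (fun _ : ℕ => ν) from rfl, h2]
  rw [show Measure.infinitePi (fun _ : ℕ => ν) = muE ν from rfl, hg.2]

/-- the tilted mixed moments, by recursion -/
def MM (H : Pt → ℝ) (β : ℝ) : ℕ → ℕ → List Pt → List Pt → List Pt → ℝ
  | i, j, x :: l, y :: l', z :: l'' => MM H β i j l l' l'' +
      β * H (x - y) * dn (fun i' => MM H β i' j l l' l'') i +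
      β * H (x - z) * dn (fun j' => MM H β i j' l l' l'') j +
      (H (y - z) + β ^ 2 * H (x - y) * H (x - z)) *
        dn (fun i' => dn (fun j' => MM H β i' j' l l' l'') j) i
  | i, j, _, _, _ => es i [] * es j []

theorem MM_cons (i j : ℕ) (x y z : Pt) (l l' l'' : List Pt) :
    MM H β i j (x :: l) (y :: l') (z :: l'') = MM H β i j l l' l'' +
      β * H (x - y) * dn (fun i' => MM H β i' j l l' l'') i +
      β * H (x - z) * dn (fun j' => MM H β i j' l l' l'') j +
      (H (y - z) + β ^ 2 * H (x - y) * H (x - z)) *
        dn (fun i' => dn (fun j' => MM H β i' j' l l' l'') j) i := by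
  rw [MM]

theorem MM_nil (i j : ℕ) : MM H β i j [] [] [] = es i [] * es j [] := by
  rw [MM]; intros; simp_all

theorem MM_HI (hM : SMom ν H β) (l l' l'' : List Pt) (h1 : l'.length = l.length)
    (h2 : l''.length = l.length) (i j : ℕ) :
    HI (muE ν) (fun e => wt β e l * (es i (vals e l') * es j (vals e l'')))
      (MM H β i j l l' l'') := by
  induction l generalizing l' l'' i j with
  | nil =>
    have e1 : l' = [] := List.length_eq_zero_iff.mp h1
    have e2 : l'' = [] := List.length_eq_zero_iff.mp h2
    subst e1 e2
    simp only [wt, vals, MM_nil]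
    exact ⟨integrable_const _, by simp⟩
  | cons x l ih =>
    match l', l'', h1, h2 with
    | y :: l', z :: l'', h1, h2 =>
      have h1' : l'.length = l.length := by simpa using h1
      have h2' : l''.length = l.length := by simpa using h2
      have I0 := fun i' j' => HI_uncons (hM.i0 x) (ih l' l'' h1' h2' i' j')
      have I1 := fun i' j' => HI_uncons (hM.i1 x y) (ih l' l'' h1' h2' i' j')
      have I2 := fun i' j' => HI_uncons (hM.i1 x z) (ih l' l'' h1' h2' i' j')
      have I3 := fun i' j' => HI_uncons (hM.i2 x y z) (ih l' l'' h1' h2' i' j')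
      simp only [wt, vals, MM_cons]
      cases i with
      | zero =>
        cases j with
        | zero =>
          refine (I0 0 0).congr (fun e => ?_) ?_
          · simp only [es_zero]; ring
          · simp only [dn]; ring
        | succ j =>
          refine ((I0 0 (j + 1)).add (I2 0 j)).congr (fun e => ?_) ?_
          · simp only [es_zero, es_succ_cons]; ring
          · simp only [dn]; ring
      | succ i =>
        cases j with
        | zero =>
          refine ((I0 (i + 1) 0).add (I1 i 0)).congr (fun e => ?_) ?_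
          · simp only [es_zero, es_succ_cons]; ring
          · simp only [dn]; ring
        | succ j =>
          refine ((((I0 (i + 1) (j + 1)).add (I1 i (j + 1))).add (I2 (i + 1) j)).add
            (I3 i j)).congr (fun e => ?_) ?_
          · simp only [es_succ_cons]; ring
          · simp only [dn]; ring

theorem dn_nonneg {f : ℕ → ℝ} (h : ∀ i, 0 ≤ f i) (i : ℕ) : 0 ≤ dn f i := by
  cases i with
  | zero => exact le_rfl
  | succ i => exact h i

theorem es_nil_nonneg (i : ℕ) : 0 ≤ es i [] := by
  cases i with
  | zero => exact zero_le_one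
  | succ i => exact le_rfl

theorem es_nil_le (i : ℕ) : es i [] ≤ 1 := by
  cases i with
  | zero => exact le_rfl
  | succ i => exact zero_le_one

theorem MM_nonneg (hH : ∀ x, 0 ≤ H x) (hβ : 0 ≤ β) (l l' l'' : List Pt)
    (h1 : l'.length = l.length) (h2 : l''.length = l.length) (i j : ℕ) :
    0 ≤ MM H β i j l l' l'' := by
  induction l generalizing l' l'' i j with
  | nil =>
    have e1 : l' = [] := List.length_eq_zero_iff.mp h1
    have e2 : l'' = [] := List.length_eq_zero_iff.mp h2
    subst e1 e2
    rw [MM_nil]
    exact mul_nonneg (es_nil_nonneg i) (es_nil_nonneg j)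
  | cons x l ih =>
    match l', l'', h1, h2 with
    | y :: l', z :: l'', h1, h2 =>
      have h1' : l'.length = l.length := by simpa using h1
      have h2' : l''.length = l.length := by simpa using h2
      rw [MM_cons]
      have a1 := ih l' l'' h1' h2' i j
      have a2 := dn_nonneg (f := fun i' => MM H β i' j l l' l'') (fun i' => ih l' l'' h1' h2' i' j) i
      have a3 := dn_nonneg (f := fun j' => MM H β i j' l l' l'') (fun j' => ih l' l'' h1' h2' i j') j
      have a4 := dn_nonneg (f := fun i' => dn (fun j' => MM H β i' j' l l' l'') j)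
        (fun i' => dn_nonneg (fun j' => ih l' l'' h1' h2' i' j') j) i
      have b1 := hH (x - y)
      have b2 := hH (x - z)
      have b3 := hH (y - z)
      positivity

/-- sum of `H` along two lists of positions -/
def hs (H : Pt → ℝ) : List Pt → List Pt → ℝ
  | x :: l, y :: l' => H (x - y) + hs H l l'
  | _, _ => 0

/-- list of the values of `H` along two lists of positions -/
def hl (H : Pt → ℝ) : List Pt → List Pt → List ℝ
  | x :: l, y :: l' => H (x - y) :: hl H l l'
  | _, _ => []

theorem pow_dn_le {t : ℝ} (ht : 0 ≤ t) {f : ℕ → ℝ} {c : ℝ} (hc : 0 ≤ c)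
    (h : ∀ i, t ^ i * f i ≤ c) (i : ℕ) : t ^ i * dn f i ≤ t * c := by
  cases i with
  | zero => simp only [dn, mul_zero]; positivity
  | succ i =>
    simp only [dn]
    rw [pow_succ]
    nlinarith [h i]

/-- the crude bound for the moments -/
theorem MM_le (hH : ∀ x, 0 ≤ H x) (hβ : 0 ≤ β) {t : ℝ} (ht : 0 ≤ t) (l l' l'' : List Pt)
    (h1 : l'.length = l.length) (h2 : l''.length = l.length) (i j : ℕ) :
    t ^ i * (t ^ j * MM H β i j l l' l'') ≤
      Real.exp (t * β * hs H l l' + t * β * hs H l l'' + t ^ 2 * hs H l' l'') := by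
  induction l generalizing l' l'' i j with
  | nil =>
    have e1 : l' = [] := List.length_eq_zero_iff.mp h1
    have e2 : l'' = [] := List.length_eq_zero_iff.mp h2
    subst e1 e2
    rw [MM_nil]
    simp only [hs]
    have : ∀ i : ℕ, t ^ i * es i [] ≤ 1 := by
      intro i
      cases i with
      | zero => simp [es_zero]
      | succ i => simp [es_succ_nil]
    have hi : 0 ≤ t ^ i * es i [] := mul_nonneg (pow_nonneg ht i) (es_nil_nonneg i)
    have hj : 0 ≤ t ^ j * es j [] := mul_nonneg (pow_nonneg ht j) (es_nil_nonneg j)
    have h3 : t ^ i * (t ^ j * (es i [] * es j [])) = (t ^ i * es i []) * (t ^ j * es j []) := by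
      ring
    rw [h3]
    simp only [mul_zero, add_zero, Real.exp_zero]
    exact mul_le_one₀ (this i) hj (this j)
  | cons x l ih =>
    match l', l'', h1, h2 with
    | y :: l', z :: l'', h1, h2 =>
      have h1' : l'.length = l.length := by simpa using h1
      have h2' : l''.length = l.length := by simpa using h2
      rw [MM_cons]
      simp only [hs]
      set E : ℝ := Real.exp (t * β * hs H l l' + t * β * hs H l l'' + t ^ 2 * hs H l' l'') with hE
      have hE0 : 0 < E := Real.exp_pos _
      have a1 : t ^ i * (t ^ j * MM H β i j l l' l'') ≤ E := ih l' l'' h1' h2' i j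
      have a2 : t ^ i * dn (fun i' => t ^ j * MM H β i' j l l' l'') i ≤ t * E :=
        pow_dn_le ht hE0.le (fun i' => ih l' l'' h1' h2' i' j) i
      have a3 : t ^ j * dn (fun j' => t ^ i * MM H β i j' l l' l'') j ≤ t * E :=
        pow_dn_le ht hE0.le (fun j' => by
          have := ih l' l'' h1' h2' i j'
          linarith [this, show t ^ i * (t ^ j' * MM H β i j' l l' l'') =
            t ^ j' * (t ^ i * MM H β i j' l l' l'') by ring]) j
      have a4 : t ^ i * dn (fun i' => t ^ j * dn (fun j' => MM H β i' j' l l' l'') j) i ≤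
          t * (t * E) := by
        refine pow_dn_le ht (by positivity) (fun i' => ?_) i
        have h5 : t ^ j * dn (fun j' => t ^ i' * MM H β i' j' l l' l'') j ≤ t * E :=
          pow_dn_le ht hE0.le (fun j' => by
            have := ih l' l'' h1' h2' i' j'
            linarith [this, show t ^ i' * (t ^ j' * MM H β i' j' l l' l'') =
              t ^ j' * (t ^ i' * MM H β i' j' l l' l'') by ring]) j
        have h6 : t ^ i' * (t ^ j * dn (fun j' => MM H β i' j' l l' l'') j) =
            t ^ j * dn (fun j' => t ^ i' * MM H β i' j' l l' l'') j := by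
          cases j with
          | zero => simp [dn]
          | succ j => simp only [dn]; ring
        rw [h6]; exact h5
      have c2 : dn (fun i' => t ^ j * MM H β i' j l l' l'') i =
          t ^ j * dn (fun i' => MM H β i' j l l' l'') i := by
        cases i <;> simp [dn]
      have c3 : dn (fun j' => t ^ i * MM H β i j' l l' l'') j =
          t ^ i * dn (fun j' => MM H β i j' l l' l'') j := by
        cases j <;> simp [dn]
      have c4 : dn (fun i' => t ^ j * dn (fun j' => MM H β i' j' l l' l'') j) i =
          t ^ j * dn (fun i' => dn (fun j' => MM H β i' j' l l' l'') j) i := by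
        cases i <;> simp [dn]
      rw [c2] at a2
      rw [c3] at a3
      rw [c4] at a4
      have b1 := hH (x - y)
      have b2 := hH (x - z)
      have b3 := hH (y - z)
      have hexp : Real.exp (t * β * (H (x - y) + hs H l l') + t * β * (H (x - z) + hs H l l'') +
          t ^ 2 * (H (y - z) + hs H l' l'')) =
          Real.exp (t * β * H (x - y)) * Real.exp (t * β * H (x - z)) *
            Real.exp (t ^ 2 * H (y - z)) * E := by
        rw [hE, ← Real.exp_add, ← Real.exp_add, ← Real.exp_add]
        congr 1; ring
      rw [hexp]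
      have e1 : 1 + t * β * H (x - y) ≤ Real.exp (t * β * H (x - y)) := by
        linarith [Real.add_one_le_exp (t * β * H (x - y))]
      have e2 : 1 + t * β * H (x - z) ≤ Real.exp (t * β * H (x - z)) := by
        linarith [Real.add_one_le_exp (t * β * H (x - z))]
      have e3 : 1 + t ^ 2 * H (y - z) ≤ Real.exp (t ^ 2 * H (y - z)) := by
        linarith [Real.add_one_le_exp (t ^ 2 * H (y - z))]
      have p1 : 0 ≤ t * β * H (x - y) := by positivity
      have p2 : 0 ≤ t * β * H (x - z) := by positivity
      have p3 : 0 ≤ t ^ 2 * H (y - z) := by positivity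
      have key : (1 + t * β * H (x - y)) * (1 + t * β * H (x - z)) * (1 + t ^ 2 * H (y - z)) ≤
          Real.exp (t * β * H (x - y)) * Real.exp (t * β * H (x - z)) *
            Real.exp (t ^ 2 * H (y - z)) := by
        gcongr
      have m1 : β * H (x - y) * (t ^ i * (t ^ j * dn (fun i' => MM H β i' j l l' l'') i)) ≤
          β * H (x - y) * (t * E) := mul_le_mul_of_nonneg_left a2 (by positivity)
      have m2 : β * H (x - z) * (t ^ j * (t ^ i * dn (fun j' => MM H β i j' l l' l'') j)) ≤
          β * H (x - z) * (t * E) := mul_le_mul_of_nonneg_left a3 (by positivity)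
      have m3 : (H (y - z) + β ^ 2 * H (x - y) * H (x - z)) *
          (t ^ i * (t ^ j * dn (fun i' => dn (fun j' => MM H β i' j' l l' l'') j) i)) ≤
          (H (y - z) + β ^ 2 * H (x - y) * H (x - z)) * (t * (t * E)) :=
        mul_le_mul_of_nonneg_left a4 (by positivity)
      calc _ = t ^ i * (t ^ j * MM H β i j l l' l'') +
            β * H (x - y) * (t ^ i * (t ^ j * dn (fun i' => MM H β i' j l l' l'') i)) +
            β * H (x - z) * (t ^ j * (t ^ i * dn (fun j' => MM H β i j' l l' l'') j)) +
            (H (y - z) + β ^ 2 * H (x - y) * H (x - z)) *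
            (t ^ i * (t ^ j * dn (fun i' => dn (fun j' => MM H β i' j' l l' l'') j) i)) := by ring
        _ ≤ E + β * H (x - y) * (t * E) + β * H (x - z) * (t * E) +
            (H (y - z) + β ^ 2 * H (x - y) * H (x - z)) * (t * (t * E)) := by linarith
        _ ≤ (1 + t * β * H (x - y)) * (1 + t * β * H (x - z)) * (1 + t ^ 2 * H (y - z)) * E := by
            have : 0 ≤ (t * β * H (x - y) + t * β * H (x - z) +
              t * β * H (x - y) * (t * β * H (x - z))) * (t ^ 2 * H (y - z)) * E := by positivity
            nlinarith [this]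
        _ ≤ _ := mul_le_mul_of_nonneg_right key hE0.le

/-- no interaction with the tilting path: only the diagonal terms survive -/
theorem MM_far (l l' l'' : List Pt) (h1 : l'.length = l.length) (h2 : l''.length = l.length)
    (hf' : ∀ v ∈ hl H l l', β * v = 0) (hf'' : ∀ v ∈ hl H l l'', β * v = 0) (i j : ℕ) :
    MM H β i j l l' l'' = if i = j then es i (hl H l' l'') else 0 := by
  induction l generalizing l' l'' i j with
  | nil =>
    have e1 : l' = [] := List.length_eq_zero_iff.mp h1
    have e2 : l'' = [] := List.length_eq_zero_iff.mp h2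
    subst e1 e2
    rw [MM_nil]
    cases i <;> cases j <;> simp [es_zero, es_succ_nil, hl]
  | cons x l ih =>
    match l', l'', h1, h2 with
    | y :: l', z :: l'', h1, h2 =>
      have h1' : l'.length = l.length := by simpa using h1
      have h2' : l''.length = l.length := by simpa using h2
      have g1 : β * H (x - y) = 0 := hf' _ (by simp [hl])
      have g2 : β * H (x - z) = 0 := hf'' _ (by simp [hl])
      have hr' : ∀ v ∈ hl H l l', β * v = 0 := fun v hv => hf' v (by simp [hl, hv])
      have hr'' : ∀ v ∈ hl H l l'', β * v = 0 := fun v hv => hf'' v (by simp [hl, hv])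
      have ih' := fun i' j' => ih l' l'' h1' h2' hr' hr'' i' j'
      rw [MM_cons]
      have g3 : β ^ 2 * H (x - y) * H (x - z) = 0 := by
        have : β ^ 2 * H (x - y) * H (x - z) = (β * H (x - y)) * (β * H (x - z)) := by ring
        rw [this, g1, zero_mul]
      rw [g1, g2, g3]
      simp only [hl, es_cons, ih']
      cases i with
      | zero => cases j <;> simp [dn, es_zero]
      | succ i =>
        cases j with
        | zero => simp [dn]
        | succ j =>
          simp only [dn, zero_mul, add_zero, Nat.add_right_cancel_iff]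
          by_cases hij : i = j
          · simp [hij]
          · simp [hij]

/-- first moment under the tilt -/
theorem MM_single (l l' l'' : List Pt) (h1 : l'.length = l.length) (h2 : l''.length = l.length)
    (i : ℕ) : MM H β i 0 l l' l'' = β ^ i * es i (hl H l l') := by
  induction l generalizing l' l'' i with
  | nil =>
    have e1 : l' = [] := List.length_eq_zero_iff.mp h1
    have e2 : l'' = [] := List.length_eq_zero_iff.mp h2
    subst e1 e2
    rw [MM_nil]
    cases i <;> simp [es_zero, es_succ_nil, hl]
  | cons x l ih =>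
    match l', l'', h1, h2 with
    | y :: l', z :: l'', h1, h2 =>
      have h1' : l'.length = l.length := by simpa using h1
      have h2' : l''.length = l.length := by simpa using h2
      rw [MM_cons]
      simp only [hl, es_cons, ih l' l'' h1' h2']
      cases i with
      | zero => simp [dn, es_zero]
      | succ i => simp only [dn]; ring

theorem single_HI (hM : SMom ν H β) (l l' : List Pt) (h1 : l'.length = l.length) (i : ℕ) :
    HI (muE ν) (fun e => wt β e l * es i (vals e l')) (β ^ i * es i (hl H l l')) := by
  have := MM_HI hM l l' l h1 rfl i 0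
  rw [MM_single l l' l h1 rfl] at this
  exact this.congr (fun e => by simp [es_zero]) rfl

theorem wt_HI (hM : SMom ν H β) (l : List Pt) : HI (muE ν) (fun e => wt β e l) 1 := by
  have := single_HI hM l l rfl 0
  refine this.congr (fun e => by simp [es_zero]) (by simp [es_zero])

theorem wt_zero (e : ℕ → Pt → ℝ) (l : List Pt) : wt 0 e l = 1 := by
  induction l generalizing e with
  | nil => rfl
  | cons x l ih => simp [wt, ih]

theorem es_zeros {l : List ℝ} (h : ∀ v ∈ l, v = 0) (q : ℕ) : es (q + 1) l = 0 := by
  induction l with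
  | nil => rfl
  | cons a l ih =>
    rw [es_succ_cons, ih (fun v hv => h v (List.mem_cons_of_mem _ hv)),
      h a List.mem_cons_self]
    ring

theorem es_nonneg {l : List ℝ} (h : ∀ v ∈ l, 0 ≤ v) (q : ℕ) : 0 ≤ es q l := by
  induction l generalizing q with
  | nil => exact es_nil_nonneg q
  | cons a l ih =>
    have ih' := fun q => ih (fun v hv => h v (List.mem_cons_of_mem _ hv)) q
    rw [es_cons]
    have := dn_nonneg (f := fun j => es j l) ih' q
    have ha := h a List.mem_cons_self
    have := ih' q
    positivity

theorem hl_nonneg (hH : ∀ x, 0 ≤ H x) (l l' : List Pt) : ∀ v ∈ hl H l l', 0 ≤ v := by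
  induction l generalizing l' with
  | nil => simp [hl]
  | cons x l ih =>
    cases l' with
    | nil => simp [hl]
    | cons y l' =>
      intro v hv
      simp only [hl, List.mem_cons] at hv
      rcases hv with rfl | hv
      · exact hH _
      · exact ih l' v hv

/-- elementary symmetric functions of a list with entries in `[0,c]` -/
theorem es_le {c : ℝ} (hc : 0 ≤ c) {l : List ℝ} (h : ∀ v ∈ l, 0 ≤ v ∧ v ≤ c) (q : ℕ) :
    es q l ≤ ((l.length + 1) * (c + 1)) ^ q := by
  induction l generalizing q with
  | nil =>
    refine (es_nil_le q).trans ?_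
    have : (1:ℝ) ≤ (((List.length ([] : List ℝ) : ℕ) : ℝ) + 1) * (c + 1) := by simp; linarith
    exact one_le_pow₀ this
  | cons a l ih =>
    have ih' := fun q => ih (fun v hv => h v (List.mem_cons_of_mem _ hv)) q
    cases q with
    | zero => simp [es_zero]
    | succ q =>
      rw [es_succ_cons]
      obtain ⟨ha0, hac⟩ := h a List.mem_cons_self
      have hes : 0 ≤ es q l := es_nonneg (fun v hv => (h v (List.mem_cons_of_mem _ hv)).1) q
      have h1 := ih' (q + 1)
      have h2 := ih' q
      set L : ℝ := ((l.length : ℝ) + 1) * (c + 1) with hL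
      have hL0 : 0 ≤ L := by positivity
      have e1 : (((a :: l).length : ℝ) + 1) * (c + 1) = L + (c + 1) := by
        simp only [List.length_cons]; push_cast; rw [hL]; ring
      rw [e1]
      have h3 : L ^ q ≤ (L + (c + 1)) ^ q := by gcongr; linarith
      calc es (q + 1) l + a * es q l ≤ L ^ (q + 1) + (c + 1) * L ^ q := by
            have : a * es q l ≤ (c + 1) * L ^ q := by
              apply mul_le_mul _ h2 hes (by linarith)
              linarith
            linarith
        _ = (L + (c + 1)) * L ^ q := by ring
        _ ≤ (L + (c + 1)) * (L + (c + 1)) ^ q := by gcongr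
        _ = (L + (c + 1)) ^ (q + 1) := by ring

end

end Pool.Agent.Helper98.LogPoly.Mn
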