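import Mathlib

/-! Definitions for the small-disorder free energy of the planar polymer with log-critical
correlations (MP_b30792_pr). -/

set_option autoImplicit false

namespace Pool.Agent.Helper98.LogPoly

open MeasureTheory ProbabilityTheory Filter
open scoped ENNReal NNReal Topology

/-- points of the lattice -/
abbrev Pt := ℤ × ℤ

/-- the four unit steps -/
def stp : Fin 4 → Pt := ![(1, 0), (-1, 0), (0, 1), (0, -1)]

/-- squared Euclidean norm -/
noncomputable def nsq (x : Pt) : ℝ := (x.1 : ℝ) ^ 2 + (x.2 : ℝ) ^ 2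

/-- one step of the difference of two independent simple random walks -/
noncomputable def PD (f : Pt → ℝ) (x : Pt) : ℝ :=
  (1 / 16) * ∑ i : Fin 4, ∑ j : Fin 4, f (x + stp i - stp j)

/-- `uu V k x = E_x exp (∑_{n=1}^k V (D_n))` for the difference walk `D` -/
noncomputable def uu (V : Pt → ℝ) : ℕ → Pt → ℝ
  | 0, _ => 1
  | k + 1, x => PD (fun y => Real.exp (V y) * uu V k y) x

/-- `EP k F x` : average of `F [S_1, ..., S_k]` over the simple random walk started at `x` -/
noncomputable def EP : ℕ → (List Pt → ℝ) → Pt → ℝ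
  | 0, F, _ => F []
  | k + 1, F, x => (1 / 4) * ∑ i : Fin 4, EP k (fun l => F ((x + stp i) :: l)) (x + stp i)

/-- position at time `n` of the walk from `0` with increments `stp (s i)` -/
def pos {N : ℕ} (s : Fin N → Fin 4) (n : ℕ) : Pt :=
  ∑ i : Fin N, if (i : ℕ) < n then stp (s i) else 0

/-- the normalised partition function `W_N^β` in the environment `o` -/
noncomputable def WW (β : ℝ) (N : ℕ) (o : ℕ → Pt → ℝ) : ℝ :=
  (1 / 4 : ℝ) ^ N * ∑ s : Fin N → Fin 4,
    Real.exp (∑ n ∈ Finset.range N, (β * o (n + 1) (pos s (n + 1)) - β ^ 2 / 2))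

/-- weight of a list of positions in the environment `e` (slice `0` is used first) -/
noncomputable def wt (β : ℝ) : (ℕ → Pt → ℝ) → List Pt → ℝ
  | _, [] => 1
  | e, x :: l => Real.exp (β * e 0 x - β ^ 2 / 2) * wt β (fun n => e (n + 1)) l

/-- values of the environment along a list of positions -/
def vals : (ℕ → Pt → ℝ) → List Pt → List ℝ
  | _, [] => []
  | e, x :: l => e 0 x :: vals (fun n => e (n + 1)) l

/-- elementary symmetric function of a list -/
def es : ℕ → List ℝ → ℝ
  | 0, _ => 1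
  | _ + 1, [] => 0
  | q + 1, a :: l => es (q + 1) l + a * es q l

/-- the law of the environment is `P`-Gaussian, centred, with covariance `1_{n=m} h (x-y)` -/
structure IsEnv {Ω : Type*} [MeasurableSpace Ω] (P : Measure Ω) (ω : ℕ → Pt → Ω → ℝ)
    (h : Pt → ℝ) : Prop where
  gauss : IsGaussianProcess (fun i : ℕ × Pt => ω i.1 i.2) P
  mean : ∀ n x, ∫ w, ω n x w ∂P = 0
  cov : ∀ n m x y, ∫ w, ω n x w * ω m y w ∂P = if n = m then h (x - y) else 0

/-- `ν` is the law of a centred Gaussian field on the lattice with covariance `H (x-y)` -/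
def GaussSlice (ν : Measure (Pt → ℝ)) (H : Pt → ℝ) : Prop :=
  ∀ (F : Finset Pt) (c : Pt → ℝ),
    ν.map (fun ω => ∑ x ∈ F, c x * ω x) =
      gaussianReal 0 (∑ x ∈ F, ∑ y ∈ F, c x * c y * H (x - y)).toNNReal

/-- positive definite kernel -/
def PosDefKer (h : Pt → ℝ) : Prop :=
  (∀ x, h (-x) = h x) ∧
    ∀ (F : Finset Pt) (c : Pt → ℝ), 0 ≤ ∑ x ∈ F, ∑ y ∈ F, c x * c y * h (x - y)

/-- the cut-off `χ_r` -/
noncomputable def chi (r : ℕ) (x : Pt) : ℝ :=
  max 0 (1 - |(x.1 : ℝ)| / r) * max 0 (1 - |(x.2 : ℝ)| / r)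

/-- the law of an i.i.d. sequence of slices -/
noncomputable def muE (ν : Measure (Pt → ℝ)) : Measure (ℕ → Pt → ℝ) :=
  Measure.infinitePi (fun _ : ℕ => ν)

/-! ### the special functions -/

/-- coefficients of the entire function `G_p` -/
noncomputable def gco (p : ℝ) (k : ℕ) : ℝ :=
  (-2) ^ k / ∏ j ∈ Finset.range k, (((j : ℝ) + 1) * p * (((j : ℝ) + 1) * p - 1))

noncomputable def GG (p t : ℝ) : ℝ := ∑' k : ℕ, gco p k * t ^ k
noncomputable def GG1 (p t : ℝ) : ℝ := ∑' k : ℕ, ((k : ℝ) + 1) * gco p (k + 1) * t ^ k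
noncomputable def GG2 (p t : ℝ) : ℝ :=
  ∑' k : ℕ, ((k : ℝ) + 2) * ((k : ℝ) + 1) * gco p (k + 2) * t ^ k

/-- first positive zero of `G_p` -/
noncomputable def tst (p : ℝ) : ℝ := sInf {t : ℝ | 0 < t ∧ GG p t = 0}

/-- Bessel function of the first kind (for `z > 0`) -/
noncomputable def besselJ (α z : ℝ) : ℝ :=
  ∑' k : ℕ, (-1) ^ k / ((k.factorial : ℝ) * Real.Gamma ((k : ℝ) + α + 1)) *
    (z / 2) ^ (2 * (k : ℝ) + α)

/-- the normalised Bessel function -/
noncomputable def besselJt (α z : ℝ) : ℝ := Real.Gamma (α + 1) * (z / 2) ^ (-α) * besselJ α z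

/-! ### regularised logarithm -/

noncomputable def rho (κ : ℝ) (x : Pt) : ℝ := (1 / 2) * Real.log (κ + nsq x)

/-- the asymptotics of the covariance -/
def HAsym (a : ℝ) (h : Pt → ℝ) : Prop :=
  Tendsto (fun x : Pt => h x * nsq x / ((1 / 2) * Real.log (nsq x)) ^ a) cofinite (𝓝 1)

end Pool.Agent.Helper98.LogPoly
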