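import Pool.Agent.Helper98.LogPoly.PartA
import Pool.Agent.Helper98.LogPoly.Sup.Super
import Pool.Agent.Helper66.LogPoly.FreeEnergy
import Pool.Agent.Helper93.LogPoly.Bessel

/-! The small-disorder asymptotics of the free energy. -/

set_option autoImplicit false

namespace Pool.Agent.Helper98.LogPoly.Mn

open MeasureTheory ProbabilityTheory Filter Topology
open scoped ENNReal

section

variable {Ω : Type*} [MeasurableSpace Ω] {P : Measure Ω} [IsProbabilityMeasure P]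
  {ω : ℕ → Pt → Ω → ℝ} {h : Pt → ℝ} {a : ℝ}

theorem tendsto_rpow_zero {s : ℝ} (hs : 0 < s) :
    Tendsto (fun β : ℝ => β ^ s) (𝓝[>] 0) (𝓝 0) := by
  have h1 : Tendsto (fun β : ℝ => β ^ s) (𝓝 0) (𝓝 (0 ^ s)) :=
    (Real.continuous_rpow_const hs.le).tendsto 0
  rw [Real.zero_rpow hs.ne'] at h1
  exact h1.mono_left nhdsWithin_le_nhds

/-- lower bound of `-p(β)` -/
theorem lower_side (ha : -1 < a) (hω : IsEnv P ω h) (h0 : h 0 = 1) (hnn : ∀ x, 0 ≤ h x)
    (hh : HAsym a h) {p : ℝ → ℝ}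
    (hp : ∀ β, 0 < β → ∀ᵐ w ∂P, Tendsto (fun T : ℕ =>
      Real.log (WW β T (fun n x => ω n x w)) / T) atTop (𝓝 (p β)))
    {t3 : ℝ} (ht3 : tst (a + 2) < t3) :
    ∀ᶠ β : ℝ in 𝓝[>] 0, p β < 0 ∧
      β ^ (2 / (a + 2)) * Real.log (Real.log 2) - 2 * t3 ^ (1 / (a + 2)) ≤
        β ^ (2 / (a + 2)) * Real.log (-p β) := by
  have hp1 : 1 < a + 2 := by linarith
  have hp0 : 0 < a + 2 := by linarith
  have hT : 0 < tst (a + 2) := (isLeast_tst hp1).1.1
  have ht30 : 0 < t3 := hT.trans ht3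
  have hpd := posDefKer_of_env hω
  have hsup : SuperB a h (tst (a + 2) / 2) := SP.super_bound ha hnn hh (by linarith)
  obtain ⟨t2, h1, h2⟩ := exists_between ht3
  have hB := partB ha hnn hh h0 hpd hsup h1 h2
  have hl2 : 0 < Real.log 2 := Real.log_pos (by norm_num)
  filter_upwards [hB, self_mem_nhdsWithin] with β hβ hβ0
  have hβpos : 0 < β := hβ0
  obtain ⟨N, hN1, hNlog, ν, hνp, H, hν, hH, H0, hHh, hdec⟩ := hβ
  have hNR : (0:ℝ) < N := by exact_mod_cast hN1
  have hle : p β ≤ -(Real.log 2 / N) := by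
    refine free_energy_le (P := P) (W := fun T w => WW β T (fun n x => ω n x w))
      (fun n w => WW_pos _ _ _) (fun n => integrable_sqrt_WW hω h0 β n) hN1 ?_ (hp β hβpos)
    intro n
    exact (sqrt_comparison hω h0 hν hH H0 hHh β (n * N)).trans (hdec n)
  have hpos : 0 < Real.log 2 / N := by positivity
  refine ⟨by linarith, ?_⟩
  have h3 : Real.log (Real.log 2 / N) ≤ Real.log (-p β) := Real.log_le_log hpos (by linarith)
  rw [Real.log_div hl2.ne' hNR.ne'] at h3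
  have hbs : 0 < β ^ (2 / (a + 2)) := Real.rpow_pos_of_pos hβpos _
  have h4 : β ^ (2 / (a + 2)) * (2 * (t3 / β ^ 2) ^ (1 / (a + 2))) = 2 * t3 ^ (1 / (a + 2)) := by
    rw [Real.div_rpow ht30.le (by positivity), ← Real.rpow_natCast, ← Real.rpow_mul hβpos.le]
    have : ((2:ℕ) : ℝ) * (1 / (a + 2)) = 2 / (a + 2) := by push_cast; ring
    rw [this]
    field_simp
  have h5 := mul_le_mul_of_nonneg_left h3 hbs.le
  have h6 := mul_le_mul_of_nonneg_left hNlog hbs.le
  rw [h4] at h6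
  linarith

/-- upper bound of `-p(β)` -/
theorem upper_side (ha : -1 < a) (hω : IsEnv P ω h) (h0 : h 0 = 1) (hnn : ∀ x, 0 ≤ h x)
    (hh : HAsym a h) {p : ℝ → ℝ}
    (hp : ∀ β, 0 < β → ∀ᵐ w ∂P, Tendsto (fun T : ℕ =>
      Real.log (WW β T (fun n x => ω n x w)) / T) atTop (𝓝 (p β)))
    {t1 b : ℝ} (ht10 : 0 < t1) (ht1 : t1 < tst (a + 2)) (hb : 1 < b) :
    ∃ c : ℝ, ∀ᶠ β : ℝ in 𝓝[>] 0, p β < 0 → 
      β ^ (2 / (a + 2)) * Real.log (-p β) ≤
        β ^ (2 / (a + 2)) * c - 2 * (t1 / b) ^ (1 / (a + 2)) := by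
  have hp1 : 1 < a + 2 := by linarith
  have hp0 : 0 < a + 2 := by linarith
  obtain ⟨C, B0, hB0, hsup⟩ := SP.super_bound ha hnn hh ht1
  set C' : ℝ := max C 1 with hC'
  set c : ℝ := Real.log C' / (2 * (b - 1)) with hc
  refine ⟨Real.log c + Real.log 2, ?_⟩
  have hb0 : 0 < b := by linarith
  have hβB : ∀ᶠ β : ℝ in 𝓝[>] 0, b * β ^ 2 < B0 := by
    have : Tendsto (fun β : ℝ => b * β ^ 2) (𝓝 0) (𝓝 (b * 0 ^ 2)) :=
      ((continuous_pow 2).const_mul b).tendsto 0
    exact nhdsWithin_le_nhds (this.eventually_lt_const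
      (by rw [zero_pow two_ne_zero, mul_zero]; exact hB0))
  filter_upwards [hβB, self_mem_nhdsWithin] with β hβ hβ0 hneg
  have hβpos : 0 < β := hβ0
  set B : ℝ := b * β ^ 2 with hB
  have hBpos : 0 < B := by positivity
  set y : ℝ := 2 * (t1 / B) ^ (1 / (a + 2)) with hy
  have hy0 : 0 ≤ y := by positivity
  set N : ℕ := ⌊Real.exp y⌋₊ with hN
  have hexp1 : 1 ≤ Real.exp y := Real.one_le_exp hy0
  have hN1 : 1 ≤ N := by
    rw [hN]; exact Nat.le_floor (by simpa using hexp1)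
  have hNR : (0:ℝ) < N := by exact_mod_cast hN1
  have hNle : (N:ℝ) ≤ Real.exp y := Nat.floor_le (Real.exp_pos y).le
  have hNge : Real.exp y ≤ 2 * N := by
    have h1 := Nat.lt_floor_add_one (Real.exp y)
    rw [← hN] at h1
    have h2 : (1:ℝ) ≤ N := by exact_mod_cast hN1
    linarith
  have hlogN : Real.log N ≤ y := by
    rw [Real.log_le_iff_le_exp hNR]; exact hNle
  have hlogN0 : 0 ≤ Real.log N := Real.log_nonneg (by exact_mod_cast hN1)
  have hcond : B * ((1 / 2) * Real.log N) ^ (a + 2) ≤ t1 := by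
    have h1 : ((1 / 2) * Real.log N) ^ (a + 2) ≤ ((t1 / B) ^ (1 / (a + 2))) ^ (a + 2) := by
      refine Real.rpow_le_rpow (by positivity) ?_ hp0.le
      rw [hy] at hlogN; linarith
    rw [← Real.rpow_mul (by positivity), one_div_mul_cancel hp0.ne', Real.rpow_one] at h1
    calc _ ≤ B * (t1 / B) := mul_le_mul_of_nonneg_left h1 hBpos.le
      _ = t1 := by field_simp
  have hCN : ∀ x, uu (fun y => b * β ^ 2 * h y) N x ≤ C' := fun x =>
    (hsup B hBpos hβ N hN1 hcond N le_rfl x).trans (le_max_left _ _)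
  have hge := free_energy_ge hω h0 hnn hb hN1 (le_max_right C 1) hCN (hp β hβpos)
  rw [← hC', ← hc] at hge
  have hc0 : 0 < c := by
    by_contra hcon
    rw [not_lt] at hcon
    have : c / N ≤ 0 := div_nonpos_of_nonpos_of_nonneg hcon hNR.le
    linarith
  have h3 : Real.log (-p β) ≤ Real.log (c / N) := Real.log_le_log (by linarith) hge
  rw [Real.log_div hc0.ne' hNR.ne'] at h3
  have h4 : y - Real.log 2 ≤ Real.log N := by
    have h5 : y ≤ Real.log (2 * N) := by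
      rw [Real.le_log_iff_exp_le (by positivity)]; exact hNge
    rw [Real.log_mul (by norm_num) hNR.ne'] at h5
    linarith
  have hbs : 0 < β ^ (2 / (a + 2)) := Real.rpow_pos_of_pos hβpos _
  have h6 : β ^ (2 / (a + 2)) * y = 2 * (t1 / b) ^ (1 / (a + 2)) := by
    rw [hy, hB, show t1 / (b * β ^ 2) = (t1 / b) / β ^ 2 by field_simp,
      Real.div_rpow (by positivity) (by positivity) (1 / (a + 2)), ← Real.rpow_natCast,
      ← Real.rpow_mul hβpos.le]
    have : ((2:ℕ) : ℝ) * (1 / (a + 2)) = 2 / (a + 2) := by push_cast; ring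
    rw [this]
    field_simp
  have h7 : Real.log (-p β) ≤ (Real.log c + Real.log 2) - y := by linarith
  have h8 := mul_le_mul_of_nonneg_left h7 hbs.le
  rw [mul_sub, h6] at h8
  exact h8

/-- the limit theorem, in terms of the first zero of `G_{a+2}` -/
theorem main_limit (ha : -1 < a) (hω : IsEnv P ω h) (h0 : h 0 = 1) (hnn : ∀ x, 0 ≤ h x)
    (hh : HAsym a h) {p : ℝ → ℝ}
    (hp : ∀ β, 0 < β → ∀ᵐ w ∂P, Tendsto (fun T : ℕ =>
      Real.log (WW β T (fun n x => ω n x w)) / T) atTop (𝓝 (p β))) :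
    (∀ᶠ β : ℝ in 𝓝[>] 0, p β < 0) ∧
    Tendsto (fun β : ℝ => β ^ (2 / (a + 2)) * Real.log (-p β)) (𝓝[>] 0)
      (𝓝 (-(2 * tst (a + 2) ^ (1 / (a + 2))))) := by
  have hp1 : 1 < a + 2 := by linarith
  have hp0 : 0 < a + 2 := by linarith
  set T : ℝ := tst (a + 2) with hTdef
  have hT : 0 < T := (isLeast_tst hp1).1.1
  have hneg : ∀ᶠ β : ℝ in 𝓝[>] 0, p β < 0 := by
    filter_upwards [lower_side ha hω h0 hnn hh hp (show tst (a + 2) < T + 1 by linarith)]
      with β hβ using hβ.1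
  refine ⟨hneg, ?_⟩
  have hs : 0 < 2 / (a + 2) := by positivity
  have hcont : ContinuousAt (fun t : ℝ => -(2 * t ^ (1 / (a + 2)))) T :=
    (((Real.continuous_rpow_const (by positivity)).const_mul 2).neg).continuousAt
  rw [Metric.tendsto_nhds]
  intro ε hε
  obtain ⟨η, hη, hηT⟩ := Metric.continuousAt_iff.mp hcont (ε / 2) (by positivity)
  -- the lower side
  set t3 : ℝ := T + η / 2 with ht3
  have e3 : |(-(2 * t3 ^ (1 / (a + 2)))) - (-(2 * T ^ (1 / (a + 2))))| < ε / 2 := by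
    have := hηT (x := t3) (by
    rw [Real.dist_eq, ht3, add_sub_cancel_left, abs_of_pos (by positivity)]; linarith)
    rwa [Real.dist_eq] at this
  -- the upper side
  set δ : ℝ := min (η / 2) (T / 2) with hδ
  have hδ0 : 0 < δ := lt_min (by positivity) (by positivity)
  have hδη : δ ≤ η / 2 := min_le_left _ _
  have hδT : δ ≤ T / 2 := min_le_right _ _
  set t1 : ℝ := T - δ / 2 with ht1
  have ht10 : 0 < t1 := by rw [ht1]; linarith
  set b : ℝ := t1 / (T - δ) with hb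
  have hTδ : 0 < T - δ := by linarith
  have hb1 : 1 < b := by rw [hb, one_lt_div hTδ]; linarith
  have htb : t1 / b = T - δ := by rw [hb]; field_simp
  have e1 : |(-(2 * (t1 / b) ^ (1 / (a + 2)))) - (-(2 * T ^ (1 / (a + 2))))| < ε / 2 := by
    have := hηT (x := t1 / b) (by
      rw [Real.dist_eq, htb]
      rw [show T - δ - T = -δ by ring, abs_neg, abs_of_pos hδ0]; linarith)
    rwa [Real.dist_eq] at this
  obtain ⟨c, hc⟩ := upper_side ha hω h0 hnn hh hp ht10 (show t1 < tst (a + 2) by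
    rw [ht1]; linarith) hb1
  have hsmall1 : ∀ᶠ β : ℝ in 𝓝[>] 0, |β ^ (2 / (a + 2)) * Real.log (Real.log 2)| < ε / 2 := by
    have := (tendsto_rpow_zero hs).mul_const (Real.log (Real.log 2))
    rw [zero_mul] at this
    have h1 := (Metric.tendsto_nhds.mp this) (ε / 2) (by positivity)
    filter_upwards [h1] with β hβ
    rwa [Real.dist_eq, sub_zero] at hβ
  have hsmall2 : ∀ᶠ β : ℝ in 𝓝[>] 0, |β ^ (2 / (a + 2)) * c| < ε / 2 := by
    have := (tendsto_rpow_zero hs).mul_const c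
    rw [zero_mul] at this
    have h1 := (Metric.tendsto_nhds.mp this) (ε / 2) (by positivity)
    filter_upwards [h1] with β hβ
    rwa [Real.dist_eq, sub_zero] at hβ
  filter_upwards [lower_side ha hω h0 hnn hh hp (show tst (a + 2) < t3 by rw [ht3]; linarith),
    hc, hsmall1, hsmall2] with β h1 h2 h3 h4
  have h5 := h1.2
  have h6 := h2 h1.1
  rw [Real.dist_eq, abs_lt]
  rw [abs_lt] at e3 e1 h3 h4
  constructor <;> linarith [e3.1, e3.2, e1.1, e1.2, h3.1, h3.2, h4.1, h4.2]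

/-- the constant of the problem -/
theorem const_eq (ha : -1 < a) :
    ((2 : ℝ) ^ ((a - 1) / 2) * (a + 2) * (Real.sqrt (8 * tst (a + 2)) / (a + 2))) ^ (2 / (a + 2)) =
      2 * tst (a + 2) ^ (1 / (a + 2)) := by
  have hp1 : 1 < a + 2 := by linarith
  have hp0 : 0 < a + 2 := by linarith
  set T : ℝ := tst (a + 2) with hTdef
  have hT : 0 < T := (isLeast_tst hp1).1.1
  have h1 : (2 : ℝ) ^ ((a - 1) / 2) * (a + 2) * (Real.sqrt (8 * T) / (a + 2)) =
      (2 : ℝ) ^ ((a + 2) / 2) * T ^ ((1:ℝ) / 2) := by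
    have e8 : Real.sqrt (8 * T) = (2:ℝ) ^ ((3:ℝ) / 2) * T ^ ((1:ℝ) / 2) := by
      rw [Real.sqrt_eq_rpow, Real.mul_rpow (by norm_num) hT.le]
      congr 1
      rw [show (8:ℝ) = 2 ^ (3:ℝ) by norm_num, ← Real.rpow_mul (by norm_num)]
      norm_num
    rw [e8]
    have e9 : (2 : ℝ) ^ ((a + 2) / 2) = (2 : ℝ) ^ ((a - 1) / 2) * (2:ℝ) ^ ((3:ℝ) / 2) := by
      rw [← Real.rpow_add (by norm_num)]
      congr 1; ring
    rw [e9]
    field_simp
  rw [h1, Real.mul_rpow (by positivity) (by positivity), ← Real.rpow_mul (by norm_num),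
    ← Real.rpow_mul hT.le]
  congr 1
  · rw [show (a + 2) / 2 * (2 / (a + 2)) = 1 by field_simp, Real.rpow_one]
  · congr 1
    field_simp

end

end Pool.Agent.Helper98.LogPoly.Mn
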