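import Pool.Agent.Helper98.LogPoly.Pair

/-! Pair averages in terms of the difference walk. -/

set_option autoImplicit false

namespace Pool.Agent.Helper98.LogPoly.Mn

theorem PD_mono {f g : Pt → ℝ} (h : ∀ x, f x ≤ g x) (x : Pt) : PD f x ≤ PD g x := by
  unfold PD
  refine mul_le_mul_of_nonneg_left ?_ (by norm_num)
  exact Finset.sum_le_sum fun i _ => Finset.sum_le_sum fun j _ => h _

theorem PD_const (c : ℝ) (x : Pt) : PD (fun _ => c) x = c := by
  unfold PD; simp; ring

theorem PD_nonneg {f : Pt → ℝ} (h : ∀ x, 0 ≤ f x) (x : Pt) : 0 ≤ PD f x := by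
  have := PD_mono (f := fun _ => 0) (g := f) h x
  rwa [PD_const] at this

theorem PD_add (f g : Pt → ℝ) (x : Pt) : PD (fun y => f y + g y) x = PD f x + PD g x := by
  unfold PD; simp only [Finset.sum_add_distrib]; ring

theorem PD_const_mul (c : ℝ) (f : Pt → ℝ) (x : Pt) : PD (fun y => c * f y) x = c * PD f x := by
  unfold PD; simp only [← Finset.mul_sum]; ring

theorem PD_sub (f g : Pt → ℝ) (x : Pt) : PD (fun y => f y - g y) x = PD f x - PD g x := by
  unfold PD; simp only [Finset.sum_sub_distrib]; ring

/-- average over the difference walk -/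
noncomputable def ED : ℕ → (List Pt → ℝ) → Pt → ℝ
  | 0, F, _ => F []
  | k + 1, F, d => PD (fun d' => ED k (fun l => F (d' :: l)) d') d

theorem ED_const_mul (k : ℕ) (c : ℝ) (F : List Pt → ℝ) (x : Pt) :
    ED k (fun l => c * F l) x = c * ED k F x := by
  induction k generalizing F x with
  | zero => rfl
  | succ k ih =>
    simp only [ED, ih]
    rw [PD_const_mul]

theorem ED_add (k : ℕ) (F G : List Pt → ℝ) (x : Pt) :
    ED k (fun l => F l + G l) x = ED k F x + ED k G x := by
  induction k generalizing F G x with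
  | zero => rfl
  | succ k ih =>
    simp only [ED, ih]
    rw [PD_add]

/-- differences of two lists -/
def dl (l l' : List Pt) : List Pt := List.zipWith (fun a b => a - b) l l'

theorem EP_EP_eq_ED (k : ℕ) (F : List Pt → ℝ) (x y : Pt) :
    EP k (fun l => EP k (fun l' => F (dl l l')) y) x = ED k F (x - y) := by
  induction k generalizing F x y with
  | zero => rfl
  | succ k ih =>
    rw [EP_succ]
    simp only [EP_succ, ED]
    unfold PD
    have h : ∀ i : Fin 4, EP k (fun l => (1 / 4) * ∑ j : Fin 4, EP k (fun l' =>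
        F (dl ((x + stp i) :: l) ((y + stp j) :: l'))) (y + stp j)) (x + stp i) =
        (1 / 4) * ∑ j : Fin 4, ED k (fun l => F ((x - y + stp i - stp j) :: l))
          (x - y + stp i - stp j) := by
      intro i
      rw [EP_const_mul, EP_sum]
      congr 1
      refine Finset.sum_congr rfl fun j _ => ?_
      have e : x - y + stp i - stp j = (x + stp i) - (y + stp j) := by abel
      rw [e, ← ih (fun l => F ((x + stp i - (y + stp j)) :: l)) (x + stp i) (y + stp j)]
      rfl
    simp only [h]
    rw [← Finset.mul_sum]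
    ring

theorem hs_eq (H : Pt → ℝ) (l l' : List Pt) : hs H l l' = ((dl l l').map H).sum := by
  induction l generalizing l' with
  | nil => simp [hs, dl]
  | cons x l ih =>
    cases l' with
    | nil => simp [hs, dl]
    | cons y l' =>
      simp only [hs, ih l']
      simp [dl]

theorem hl_eq (H : Pt → ℝ) (l l' : List Pt) : hl H l l' = (dl l l').map H := by
  induction l generalizing l' with
  | nil => simp [hl, dl]
  | cons x l ih =>
    cases l' with
    | nil => simp [hl, dl]
    | cons y l' =>
      simp only [hl, ih l']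
      simp [dl]

theorem ED_exp (V : Pt → ℝ) (k : ℕ) (d : Pt) :
    ED k (fun l => Real.exp ((l.map V).sum)) d = uu V k d := by
  induction k generalizing d with
  | zero => simp [ED, uu]
  | succ k ih =>
    simp only [ED, uu, List.map_cons, List.sum_cons, Real.exp_add]
    congr 1
    funext d'
    rw [ED_const_mul, ih]

/-- exponential moments of a pair of walks -/
theorem EP_EP_exp (H : Pt → ℝ) (c : ℝ) (k : ℕ) (x y : Pt) :
    EP k (fun l => EP k (fun l' => Real.exp (c * hs H (x :: l) (y :: l'))) y) x =
      Real.exp (c * H (x - y)) * uu (fun z => c * H z) k (x - y) := by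
  have h : ∀ l l' : List Pt, Real.exp (c * hs H (x :: l) (y :: l')) =
      Real.exp (c * H (x - y)) * Real.exp (((dl l l').map (fun z => c * H z)).sum) := by
    intro l l'
    rw [← Real.exp_add]
    congr 1
    have : hs H (x :: l) (y :: l') = H (x - y) + hs H l l' := rfl
    rw [this, mul_add, hs_eq, ← List.sum_map_mul_left]
  simp only [h]
  simp only [EP_const_mul]
  rw [EP_EP_eq_ED k (fun l => Real.exp ((l.map (fun z => c * H z)).sum)), ED_exp]

/-- `aa V j k d = E_d [e_j (V(D_0), ..., V(D_{k-1}))]` -/
noncomputable def aa (V : Pt → ℝ) : ℕ → ℕ → Pt → ℝ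
  | 0, _, _ => 1
  | _ + 1, 0, _ => 0
  | j + 1, k + 1, d => PD (aa V (j + 1) k) d + V d * PD (aa V j k) d

theorem aa_zero (V : Pt → ℝ) (k : ℕ) (d : Pt) : aa V 0 k d = 1 := by
  rw [aa]

theorem aa_succ_zero (V : Pt → ℝ) (j : ℕ) (d : Pt) : aa V (j + 1) 0 d = 0 := by
  rw [aa]

theorem aa_succ_succ (V : Pt → ℝ) (j k : ℕ) (d : Pt) :
    aa V (j + 1) (k + 1) d = PD (aa V (j + 1) k) d + V d * PD (aa V j k) d := by
  rw [aa]

theorem aa_nonneg {V : Pt → ℝ} (hV : ∀ x, 0 ≤ V x) (j k : ℕ) (d : Pt) : 0 ≤ aa V j k d := by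
  induction k generalizing j d with
  | zero =>
    cases j with
    | zero => rw [aa_zero]; exact zero_le_one
    | succ j => rw [aa_succ_zero]
  | succ k ih =>
    cases j with
    | zero => rw [aa_zero]; exact zero_le_one
    | succ j =>
      rw [aa_succ_succ]
      exact add_nonneg (PD_nonneg (fun x => ih (j + 1) x) d)
        (mul_nonneg (hV d) (PD_nonneg (fun x => ih j x) d))

theorem ED_one (k : ℕ) (d : Pt) : ED k (fun _ => 1) d = 1 := by
  induction k generalizing d with
  | zero => rfl
  | succ k ih => simp only [ED, ih, PD_const]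

theorem ED_es (V : Pt → ℝ) (k q : ℕ) (d : Pt) :
    ED k (fun l => es q (V d :: l.map V)) d = aa V q (k + 1) d := by
  induction k generalizing q d with
  | zero =>
    simp only [ED, List.map_nil]
    cases q with
    | zero => simp [es_zero, aa_zero]
    | succ q =>
      rw [es_succ_cons, es_succ_nil, aa_succ_succ]
      have : aa V (q + 1) 0 = fun _ => 0 := by funext z; exact aa_succ_zero V q z
      rw [this, PD_const]
      cases q with
      | zero =>
        have : aa V 0 0 = fun _ => 1 := by funext z; exact aa_zero V 0 z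
        rw [this, PD_const, es_zero]
      | succ q =>
        have : aa V (q + 1) 0 = fun _ => 0 := by funext z; exact aa_succ_zero V q z
        rw [this, PD_const, es_succ_nil]
  | succ k ih =>
    cases q with
    | zero =>
      simp only [es_zero, aa_zero]
      exact ED_one (k + 1) d
    | succ q =>
      rw [aa_succ_succ]
      simp only [ED, List.map_cons]
      have h : ∀ d' : Pt, ED k (fun l => es (q + 1) (V d :: V d' :: l.map V)) d' =
          aa V (q + 1) (k + 1) d' + V d * aa V q (k + 1) d' := by
        intro d'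
        rw [← ih (q + 1) d', ← ih q d', ← ED_const_mul, ← ED_add]
        rfl
      simp only [h]
      rw [PD_add, PD_const_mul]

/-- the pair average of the elementary symmetric functions -/
theorem EP_EP_es (H : Pt → ℝ) (k q : ℕ) (x y : Pt) :
    EP k (fun l => EP k (fun l' => es q (hl H (x :: l) (y :: l'))) y) x =
      aa H q (k + 1) (x - y) := by
  have h : ∀ l l' : List Pt, hl H (x :: l) (y :: l') = H (x - y) :: (dl l l').map H := by
    intro l l'
    rw [← hl_eq]; rfl
  simp only [h]
  rw [EP_EP_eq_ED k (fun l => es q (H (x - y) :: l.map H)), ED_es]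

/-- lower bound for the chaos coefficients from a subsolution -/
theorem aa_lower {H φ : Pt → ℝ} (hH : ∀ x, 0 ≤ H x) {Hm : ℝ} (hHm : ∀ x, H x ≤ Hm)
    {B ρ0 lam : ℝ} (hB : 0 ≤ B) (hρ0 : 0 < ρ0) (hlam : 0 ≤ lam)
    (hφ1 : ∀ x, φ x ≤ 1)
    (hφ : ∀ x, φ x ≤ Real.exp (-lam) * (1 + B * H x / ρ0) * PD φ x) (k j : ℕ) (y : Pt) :
    ρ0 ^ j * (φ y - Real.exp (-(lam * k)) * (1 + B * Hm / ρ0 * k) ^ j) ≤ B ^ j * aa H j k y := by
  have hHm0 : 0 ≤ Hm := (hH 0).trans (hHm 0)
  have hv0 : 0 ≤ B * Hm / ρ0 := by positivity
  set v := B * Hm / ρ0 with hv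
  induction k generalizing j y with
  | zero =>
    cases j with
    | zero =>
      simp only [pow_zero, aa_zero]
      simp
      linarith [hφ1 y]
    | succ j =>
      rw [aa_succ_zero, mul_zero]
      simp
      exact mul_nonpos_of_nonneg_of_nonpos (by positivity) (by linarith [hφ1 y])
  | succ k ih =>
    cases j with
    | zero =>
      simp only [pow_zero, aa_zero, one_mul, mul_one]
      have := Real.exp_pos (-(lam * ((k + 1 : ℕ) : ℝ)))
      linarith [hφ1 y]
    | succ j =>
      have hk0 : (0:ℝ) ≤ k := Nat.cast_nonneg k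
      have hbase : 0 ≤ 1 + v * k := by positivity
      set E := Real.exp (-(lam * k)) with hE
      have he1 : Real.exp (-lam) ≤ 1 := by rw [Real.exp_le_one_iff]; linarith
      have he0 : 0 < Real.exp (-lam) := Real.exp_pos _
      have hweak : ∀ {w W : ℝ}, 0 ≤ W → w ≤ W → Real.exp (-lam) * w ≤ W := by
        intro w W h0 h1
        rcases le_total 0 w with hw | hw
        · nlinarith
        · nlinarith
      have hEs : Real.exp (-(lam * ((k + 1 : ℕ) : ℝ))) = Real.exp (-lam) * E := by
        rw [hE, ← Real.exp_add]; congr 1; push_cast; ring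
      have h1 : Real.exp (-lam) * (ρ0 ^ (j + 1) * (PD φ y - E * (1 + v * k) ^ (j + 1))) ≤
          B ^ (j + 1) * PD (aa H (j + 1) k) y := by
        have : PD (fun z => Real.exp (-lam) * (ρ0 ^ (j + 1) * (φ z - E * (1 + v * k) ^ (j + 1)))) y
            ≤ PD (fun z => B ^ (j + 1) * aa H (j + 1) k z) y :=
          PD_mono (fun z => hweak (mul_nonneg (pow_nonneg hB _) (aa_nonneg hH _ _ _))
            (ih (j + 1) z)) y
        rw [PD_const_mul, PD_const_mul, PD_const_mul, PD_sub, PD_const] at this
        exact this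
      have h2 : Real.exp (-lam) * (ρ0 ^ j * (PD φ y - E * (1 + v * k) ^ j)) ≤
          B ^ j * PD (aa H j k) y := by
        have : PD (fun z => Real.exp (-lam) * (ρ0 ^ j * (φ z - E * (1 + v * k) ^ j))) y
            ≤ PD (fun z => B ^ j * aa H j k z) y :=
          PD_mono (fun z => hweak (mul_nonneg (pow_nonneg hB _) (aa_nonneg hH _ _ _))
            (ih j z)) y
        rw [PD_const_mul, PD_const_mul, PD_const_mul, PD_sub, PD_const] at this
        exact this
      rw [aa_succ_succ]
      have hHy := hH y
      have hBH : 0 ≤ B * H y := by positivity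
      have h3 : B * H y * (Real.exp (-lam) * (ρ0 ^ j * (PD φ y - E * (1 + v * k) ^ j))) ≤
          B * H y * (B ^ j * PD (aa H j k) y) := mul_le_mul_of_nonneg_left h2 hBH
      have h4 : B ^ (j + 1) * (PD (aa H (j + 1) k) y + H y * PD (aa H j k) y) =
          B ^ (j + 1) * PD (aa H (j + 1) k) y + B * H y * (B ^ j * PD (aa H j k) y) := by ring
      rw [h4]
      refine le_trans ?_ (add_le_add h1 h3)
      have h5 : Real.exp (-lam) * (ρ0 ^ (j + 1) * (PD φ y - E * (1 + v * k) ^ (j + 1))) +
          B * H y * (Real.exp (-lam) * (ρ0 ^ j * (PD φ y - E * (1 + v * k) ^ j))) =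
          ρ0 ^ (j + 1) * (Real.exp (-lam) * (1 + B * H y / ρ0) * PD φ y -
            Real.exp (-lam) * E * ((1 + v * k) ^ j * ((1 + v * k) + B * H y / ρ0))) := by
        field_simp
        ring
      rw [h5, hEs]
      refine mul_le_mul_of_nonneg_left ?_ (by positivity)
      have h6 : B * H y / ρ0 ≤ v := by
        rw [hv]
        exact div_le_div_of_nonneg_right (mul_le_mul_of_nonneg_left (hHm y) hB) hρ0.le
      have h7 : (1 + v * k) ^ j * ((1 + v * k) + B * H y / ρ0) ≤
          (1 + v * ((k + 1 : ℕ) : ℝ)) ^ (j + 1) := by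
        have e : 1 + v * ((k + 1 : ℕ) : ℝ) = (1 + v * k) + v := by push_cast; ring
        rw [e, pow_succ]
        apply mul_le_mul
        · exact pow_le_pow_left₀ hbase (by linarith) j
        · linarith
        · have : 0 ≤ B * H y / ρ0 := by positivity
          linarith
        · positivity
      have h8 := hφ y
      have h9 : Real.exp (-lam) * E * ((1 + v * k) ^ j * ((1 + v * k) + B * H y / ρ0)) ≤
          Real.exp (-lam) * E * (1 + v * ((k + 1 : ℕ) : ℝ)) ^ (j + 1) :=
        mul_le_mul_of_nonneg_left h7 (by positivity)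
      linarith

end Pool.Agent.Helper98.LogPoly.Mn
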