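import Pool.Agent.Helper98.LogPoly.Chaos

/-! The chaos statistic and its moments. -/

set_option autoImplicit false

namespace Pool.Agent.Helper98.LogPoly.Mn

open MeasureTheory ProbabilityTheory

section HIlemmas

variable {Ω : Type*} [MeasurableSpace Ω] {μ : Measure Ω}

theorem HI.const_mul {f : Ω → ℝ} {a : ℝ} (c : ℝ) (hf : HI μ f a) :
    HI μ (fun w => c * f w) (c * a) :=
  ⟨hf.1.const_mul c, by rw [integral_const_mul, hf.2]⟩

theorem HI_zero : HI μ (fun _ => (0 : ℝ)) 0 := ⟨integrable_zero _ _ _, by simp⟩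

theorem HI_sum {ι : Type*} (s : Finset ι) {f : ι → Ω → ℝ} {a : ι → ℝ}
    (h : ∀ i ∈ s, HI μ (f i) (a i)) : HI μ (fun w => ∑ i ∈ s, f i w) (∑ i ∈ s, a i) := by
  refine ⟨integrable_finsetSum _ fun i hi => (h i hi).1, ?_⟩
  rw [integral_finsetSum _ fun i hi => (h i hi).1]
  exact Finset.sum_congr rfl fun i hi => (h i hi).2

theorem HI_EP {k : ℕ} {F : List Pt → Ω → ℝ} {c : List Pt → ℝ} {x : Pt}
    (h : ∀ l : List Pt, l.length = k → HI μ (F l) (c l)) :
    HI μ (fun w => EP k (fun l => F l w) x) (EP k c x) := by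
  refine ⟨EP_integrable fun l hl _ => (h l hl).1, ?_⟩
  rw [integral_EP fun l hl _ => (h l hl).1]
  exact EP_congr fun l hl _ => (h l hl).2

end HIlemmas

/-! ### translation invariance -/

theorem EP_translate (k : ℕ) (F : List Pt → ℝ) (x z : Pt) :
    EP k F (x + z) = EP k (fun l => F (l.map (fun y => y + z))) x := by
  induction k generalizing F x with
  | zero => rfl
  | succ k ih =>
    rw [EP_succ, EP_succ]
    congr 1
    refine Finset.sum_congr rfl fun i _ => ?_
    have : x + z + stp i = x + stp i + z := by abel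
    rw [this, ih]
    rfl

/-- sup-norm closeness -/
def near (ρ : ℤ) (x y : Pt) : Prop := |y.1 - x.1| ≤ ρ ∧ |y.2 - x.2| ≤ ρ

open Classical in
/-- indicator that the path `l` stays within sup-distance `ρ` of `x` -/
noncomputable def stay (ρ : ℤ) (x : Pt) (l : List Pt) : ℝ := if ∀ y ∈ l, near ρ x y then 1 else 0

theorem stay_nonneg (ρ : ℤ) (x : Pt) (l : List Pt) : 0 ≤ stay ρ x l := by
  unfold stay; split_ifs <;> norm_num

theorem stay_le_one (ρ : ℤ) (x : Pt) (l : List Pt) : stay ρ x l ≤ 1 := by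
  unfold stay; split_ifs <;> norm_num

theorem stay_mul_self (ρ : ℤ) (x : Pt) (l : List Pt) : stay ρ x l * stay ρ x l = stay ρ x l := by
  unfold stay; split_ifs <;> norm_num

theorem stay_translate (ρ : ℤ) (x z : Pt) (l : List Pt) :
    stay ρ (x + z) (l.map (fun y => y + z)) = stay ρ x l := by
  have h : (∀ y ∈ l.map (fun y => y + z), near ρ (x + z) y) ↔ ∀ y ∈ l, near ρ x y := by
    unfold near
    simp only [List.mem_map, forall_exists_index, and_imp, forall_apply_eq_imp_iff₂, Prod.fst_add,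
      Prod.snd_add, add_sub_add_right_eq_sub]
  unfold stay
  by_cases h1 : ∀ y ∈ l, near ρ x y
  · rw [if_pos h1, if_pos (h.mpr h1)]
  · rw [if_neg h1, if_neg (fun h2 => h1 (h.mp h2))]

theorem hl_translate (H : Pt → ℝ) (z : Pt) (l l' : List Pt) :
    hl H (l.map (fun y => y + z)) (l'.map (fun y => y + z)) = hl H l l' := by
  induction l generalizing l' with
  | nil => simp [hl]
  | cons x l ih =>
    cases l' with
    | nil => simp [hl]
    | cons y l' => simp [hl, ih]

theorem mem_hl {H : Pt → ℝ} {l l' : List Pt} {v : ℝ} (hv : v ∈ hl H l l') :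
    ∃ a ∈ l, ∃ b ∈ l', v = H (a - b) := by
  induction l generalizing l' with
  | nil => simp [hl] at hv
  | cons x l ih =>
    cases l' with
    | nil => simp [hl] at hv
    | cons y l' =>
      simp only [hl, List.mem_cons] at hv
      rcases hv with rfl | hv
      · exact ⟨x, List.mem_cons_self, y, List.mem_cons_self, rfl⟩
      · obtain ⟨a, ha, b, hb, rfl⟩ := ih hv
        exact ⟨a, List.mem_cons_of_mem _ ha, b, List.mem_cons_of_mem _ hb, rfl⟩

/-- the pair correlation -/
noncomputable def CC (H : Pt → ℝ) (k q : ℕ) (ρ : ℤ) (x y : Pt) : ℝ :=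
  EP k (fun l => EP k (fun l' => stay ρ x l * stay ρ y l' * es q (hl H (x :: l) (y :: l'))) y) x

section

variable {H : Pt → ℝ} {k q : ℕ} {ρ : ℤ}

theorem CC_nonneg (hH : ∀ x, 0 ≤ H x) (x y : Pt) : 0 ≤ CC H k q ρ x y :=
  EP_nonneg fun _ _ _ => EP_nonneg fun _ _ _ =>
    mul_nonneg (mul_nonneg (stay_nonneg _ _ _) (stay_nonneg _ _ _))
      (es_nonneg (hl_nonneg hH _ _) q)

theorem CC_translate (x y z : Pt) : CC H k q ρ (x + z) (y + z) = CC H k q ρ x y := by
  unfold CC
  rw [EP_translate]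
  refine EP_congr fun l _ _ => ?_
  rw [EP_translate]
  refine EP_congr fun l' _ _ => ?_
  rw [stay_translate, stay_translate]
  congr 2
  exact hl_translate H z (x :: l) (y :: l')

theorem CC_eq (x y : Pt) : CC H k q ρ x y = CC H k q ρ 0 (y - x) := by
  have := CC_translate (H := H) (k := k) (q := q) (ρ := ρ) 0 (y - x) x
  rw [zero_add, sub_add_cancel] at this
  exact this

/-- `H` is supported in the open box of radius `r` -/
def Supp (H : Pt → ℝ) (r : ℤ) : Prop := ∀ x : Pt, H x ≠ 0 → |x.1| < r ∧ |x.2| < r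

theorem stay_of_ne {x : Pt} {l : List Pt} (h : stay ρ x l ≠ 0) : ∀ y ∈ l, near ρ x y := by
  unfold stay at h
  split_ifs at h with h1
  · exact h1
  · exact absurd rfl h

theorem near_refl (hρ : 0 ≤ ρ) (x : Pt) : near ρ x x := by
  unfold near; simp [hρ]

theorem near_cons (hρ : 0 ≤ ρ) {x : Pt} {l : List Pt} (h : ∀ y ∈ l, near ρ x y) :
    ∀ y ∈ x :: l, near ρ x y := by
  intro y hy
  rcases List.mem_cons.mp hy with rfl | hy
  · exact near_refl hρ _
  · exact h y hy

/-- two paths that stay near far away points do not interact -/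
theorem hl_far {r : ℤ} (hS : Supp H r) (hρ : 0 ≤ ρ) {x y : Pt} (hxy : ¬ near (2 * ρ + r) x y)
    {l l' : List Pt} (h1 : ∀ a ∈ l, near ρ x a) (h2 : ∀ a ∈ l', near ρ y a) :
    ∀ v ∈ hl H (x :: l) (y :: l'), v = 0 := by
  intro v hv
  obtain ⟨a, ha, b, hb, rfl⟩ := mem_hl hv
  by_contra hne
  obtain ⟨c1, c2⟩ := hS _ hne
  have ha' := near_cons hρ h1 a ha
  have hb' := near_cons hρ h2 b hb
  apply hxy
  unfold near at *
  simp only [Prod.fst_sub, Prod.snd_sub] at c1 c2
  obtain ⟨a1, a2⟩ := ha'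
  obtain ⟨b1, b2⟩ := hb'
  rw [abs_le] at *
  rw [abs_lt] at c1 c2
  refine ⟨?_, ?_⟩
  · constructor <;> linarith [a1.1, a1.2, b1.1, b1.2, c1.1, c1.2]
  · rw [abs_le]
    constructor <;> linarith [a2.1, a2.2, b2.1, b2.2, c2.1, c2.2]

theorem CC_far {r : ℤ} (hS : Supp H r) (hρ : 0 ≤ ρ) (hq : 1 ≤ q) {x y : Pt}
    (hxy : ¬ near (2 * ρ + r) x y) : CC H k q ρ x y = 0 := by
  obtain ⟨q, rfl⟩ : ∃ q', q = q' + 1 := ⟨q - 1, by omega⟩
  have : CC H k (q + 1) ρ x y = EP k (fun _ => EP k (fun _ => 0) y) x := by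
    refine EP_congr fun l _ _ => EP_congr fun l' _ _ => ?_
    by_cases h1 : stay ρ x l = 0
    · simp [h1]
    by_cases h2 : stay ρ y l' = 0
    · simp [h2]
    rw [es_zeros (hl_far hS hρ hxy (stay_of_ne h1) (stay_of_ne h2)), mul_zero]
  rw [this, EP_const, EP_const]

/-- boxes -/
noncomputable def bx (R : ℤ) (c : Pt) : Finset Pt :=
  Finset.Icc (c.1 - R) (c.1 + R) ×ˢ Finset.Icc (c.2 - R) (c.2 + R)

theorem mem_bx {R : ℤ} {c y : Pt} : y ∈ bx R c ↔ near R c y := by
  unfold bx near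
  simp only [Finset.mem_product, Finset.mem_Icc, abs_le]
  constructor
  · rintro ⟨⟨a, b⟩, c, d⟩; refine ⟨⟨?_, ?_⟩, ?_, ?_⟩ <;> linarith
  · rintro ⟨⟨a, b⟩, c, d⟩; refine ⟨⟨?_, ?_⟩, ?_, ?_⟩ <;> linarith

theorem card_bx {R : ℤ} (hR : 0 ≤ R) (c : Pt) : ((bx R c).card : ℝ) = (2 * R + 1) ^ 2 := by
  unfold bx
  rw [Finset.card_product, Int.card_Icc, Int.card_Icc]
  have e1 : (c.1 + R + 1 - (c.1 - R)) = 2 * R + 1 := by ring
  have e2 : (c.2 + R + 1 - (c.2 - R)) = 2 * R + 1 := by ring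
  rw [e1, e2]
  have : (((2 * R + 1).toNat : ℕ) : ℝ) = 2 * R + 1 := by
    have h := Int.toNat_of_nonneg (show 0 ≤ 2 * R + 1 by linarith)
    have : (((2 * R + 1).toNat : ℤ) : ℝ) = ((2 * R + 1 : ℤ) : ℝ) := by rw [h]
    push_cast at this ⊢
    exact this
  push_cast
  rw [this]
  ring

/-- total mass of the pair correlation -/
noncomputable def MT (H : Pt → ℝ) (k q : ℕ) (ρ r : ℤ) : ℝ :=
  ∑ y ∈ bx (2 * ρ + r) 0, CC H k q ρ 0 y

theorem MT_nonneg (hH : ∀ x, 0 ≤ H x) (r : ℤ) : 0 ≤ MT H k q ρ r :=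
  Finset.sum_nonneg fun y _ => CC_nonneg hH 0 y

theorem near_sub {R : ℤ} {x y : Pt} : near R 0 (y - x) ↔ near R x y := by
  unfold near; simp

theorem sum_CC_le {r : ℤ} (hH : ∀ x, 0 ≤ H x) (hS : Supp H r) (hρ : 0 ≤ ρ) (hq : 1 ≤ q)
    (A : Finset Pt) (x : Pt) : ∑ y ∈ A, CC H k q ρ x y ≤ MT H k q ρ r := by
  classical
  have h1 : ∑ y ∈ A, CC H k q ρ x y = ∑ y ∈ A.filter (fun y => near (2 * ρ + r) x y),
      CC H k q ρ x y := by
    rw [Finset.sum_filter]
    refine Finset.sum_congr rfl fun y _ => ?_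
    split_ifs with h
    · rfl
    · exact CC_far hS hρ hq h
  rw [h1]
  have h2 : ∑ y ∈ A.filter (fun y => near (2 * ρ + r) x y), CC H k q ρ x y =
      ∑ z ∈ (A.filter (fun y => near (2 * ρ + r) x y)).image (fun y => y - x),
        CC H k q ρ 0 z := by
    rw [Finset.sum_image (fun a _ b _ h => by simpa using h)]
    exact Finset.sum_congr rfl fun y _ => CC_eq x y
  rw [h2]
  refine Finset.sum_le_sum_of_subset_of_nonneg ?_ fun y _ _ => CC_nonneg hH 0 y
  intro z hz
  obtain ⟨y, hy, rfl⟩ := Finset.mem_image.mp hz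
  rw [mem_bx, near_sub]
  exact (Finset.mem_filter.mp hy).2

theorem sum_CC_eq {r : ℤ} (hS : Supp H r) (hρ : 0 ≤ ρ) (hq : 1 ≤ q)
    {A : Finset Pt} {x : Pt} (hA : bx (2 * ρ + r) x ⊆ A) :
    ∑ y ∈ A, CC H k q ρ x y = MT H k q ρ r := by
  classical
  have h1 : ∑ y ∈ A, CC H k q ρ x y = ∑ y ∈ bx (2 * ρ + r) x, CC H k q ρ x y := by
    refine (Finset.sum_subset hA fun y _ hy => ?_).symm
    exact CC_far hS hρ hq (fun h => hy (mem_bx.mpr h))
  rw [h1]
  unfold MT
  refine Finset.sum_nbij' (fun y => y - x) (fun z => z + x) ?_ ?_ ?_ ?_ ?_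
  · intro y hy
    rw [mem_bx] at hy ⊢
    exact near_sub.mpr hy
  · intro z hz
    rw [mem_bx] at hz ⊢
    rw [← near_sub]
    simpa using hz
  · intro y _; simp
  · intro z _; simp
  · intro y _; exact CC_eq x y

end

/-! ### the statistic -/

/-- the chaos statistic -/
noncomputable def XX (k q : ℕ) (ρ : ℤ) (A : Finset Pt) (e : ℕ → Pt → ℝ) : ℝ :=
  ∑ x ∈ A, EP k (fun l => stay ρ x l * es q (vals e (x :: l))) x

theorem XX_measurable (k q : ℕ) (ρ : ℤ) (A : Finset Pt) : Measurable (XX k q ρ A) := by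
  unfold XX
  refine Finset.measurable_sum _ fun x _ => EP_measurable fun l _ => ?_
  exact (es_vals_measurable q (x :: l)).const_mul _

section

variable {ν : Measure (Pt → ℝ)} [IsProbabilityMeasure ν] {H : Pt → ℝ} {β : ℝ} {k q : ℕ} {ρ : ℤ}

/-- first moment of the statistic under the tilt by a path -/
theorem XX_HI (hM : SMom ν H β) (A : Finset Pt) (l : List Pt) (hlen : l.length = k + 1) :
    HI (muE ν) (fun e => wt β e l * XX k q ρ A e)
      (∑ x ∈ A, EP k (fun l' => stay ρ x l' * (β ^ q * es q (hl H l (x :: l')))) x) := by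
  have h := HI_sum A (f := fun x e => EP k (fun l' => stay ρ x l' *
      (wt β e l * es q (vals e (x :: l')))) x)
    (a := fun x => EP k (fun l' => stay ρ x l' * (β ^ q * es q (hl H l (x :: l')))) x)
    (μ := muE ν) (fun x _ => HI_EP fun l' hl' =>
      (single_HI hM l (x :: l') (by simp [hl', hlen]) q).const_mul _)
  refine h.congr (fun e => ?_) rfl
  unfold XX
  rw [Finset.mul_sum]
  refine Finset.sum_congr rfl fun x _ => ?_
  rw [← EP_const_mul]
  exact EP_congr fun l' _ _ => by ring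

/-- mixed second moment of the statistics under the tilt by a path -/
theorem XX_sq_HI (hM : SMom ν H β) (A : Finset Pt) (l : List Pt) (hlen : l.length = k + 1) :
    HI (muE ν) (fun e => wt β e l * XX k q ρ A e ^ 2)
      (∑ x ∈ A, ∑ y ∈ A, EP k (fun l' => EP k (fun l'' => stay ρ x l' * stay ρ y l'' *
        MM H β q q l (x :: l') (y :: l'')) y) x) := by
  have h := HI_sum A (μ := muE ν) (fun x (_ : x ∈ A) => HI_sum A (μ := muE ν)
    (fun y (_ : y ∈ A) => HI_EP (x := x) (k := k) (μ := muE ν) fun l' hl' =>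
      HI_EP (x := y) (k := k) (μ := muE ν) fun l'' hl'' =>
        (MM_HI hM l (x :: l') (y :: l'') (by simp [hl', hlen]) (by simp [hl'', hlen]) q q).const_mul
          (stay ρ x l' * stay ρ y l'')))
  refine h.congr (fun e => ?_) rfl
  unfold XX
  rw [pow_two, Finset.sum_mul_sum, Finset.mul_sum]
  refine Finset.sum_congr rfl fun x _ => ?_
  rw [Finset.mul_sum]
  refine Finset.sum_congr rfl fun y _ => ?_
  rw [EP_mul, ← EP_const_mul]
  refine EP_congr fun l' _ _ => ?_
  rw [← EP_const_mul]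
  exact EP_congr fun l'' _ _ => by ring

/-- plain first moment -/
theorem XX_mean (hM : SMom ν H 0) (A : Finset Pt) (hq : 1 ≤ q) :
    HI (muE ν) (fun e => XX k q ρ A e) 0 := by
  have h := XX_HI (k := k) (q := q) (ρ := ρ) hM A (List.replicate (k + 1) 0) (by simp)
  refine h.congr (fun e => by rw [wt_zero, one_mul]) ?_
  symm
  refine Finset.sum_eq_zero fun x _ => ?_
  have : ∀ l' : List Pt, stay ρ x l' * ((0 : ℝ) ^ q *
      es q (hl H (List.replicate (k + 1) 0) (x :: l'))) = 0 := by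
    intro l'
    rw [zero_pow (by omega)]; ring
  simp only [this, EP_const]

/-- plain second moment -/
theorem XX_var (hM : SMom ν H 0) (A : Finset Pt) :
    HI (muE ν) (fun e => XX k q ρ A e ^ 2) (∑ x ∈ A, ∑ y ∈ A, CC H k q ρ x y) := by
  have h := XX_sq_HI (k := k) (q := q) (ρ := ρ) hM A (List.replicate (k + 1) 0) (by simp)
  refine h.congr (fun e => by rw [wt_zero, one_mul]) ?_
  refine Finset.sum_congr rfl fun x _ => Finset.sum_congr rfl fun y _ => ?_
  unfold CC
  refine EP_congr fun l' hl' _ => EP_congr fun l'' hl'' _ => ?_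
  rw [MM_far _ _ _ (by simp [hl']) (by simp [hl'']) (fun v _ => by simp) (fun v _ => by simp)]
  simp

/-- far part: the tilt has no influence -/
theorem XX_sq_far (hM : SMom ν H β) {r : ℤ} (hS : Supp H r) (hρ : 0 ≤ ρ) (A : Finset Pt)
    {s : Pt} {l : List Pt} (hlen : l.length = k) (hst : ∀ a ∈ l, near ρ s a)
    (hA : ∀ x ∈ A, ¬ near (2 * ρ + r) s x) :
    ∫ e, wt β e (s :: l) * XX k q ρ A e ^ 2 ∂(muE ν) = ∑ x ∈ A, ∑ y ∈ A, CC H k q ρ x y := by
  rw [(XX_sq_HI (k := k) (q := q) (ρ := ρ) hM A (s :: l) (by simp [hlen])).2]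
  refine Finset.sum_congr rfl fun x hx => Finset.sum_congr rfl fun y hy => ?_
  unfold CC
  refine EP_congr fun l' hl' _ => EP_congr fun l'' hl'' _ => ?_
  by_cases h1 : stay ρ x l' = 0
  · simp [h1]
  by_cases h2 : stay ρ y l'' = 0
  · simp [h2]
  rw [MM_far _ _ _ (by simp [hl', hlen]) (by simp [hl'', hlen])]
  · simp
  · intro v hv
    rw [hl_far hS hρ (hA x hx) hst (stay_of_ne h1) v hv, mul_zero]
  · intro v hv
    rw [hl_far hS hρ (hA y hy) hst (stay_of_ne h2) v hv, mul_zero]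

theorem hs_nonneg (hH : ∀ x, 0 ≤ H x) (l l' : List Pt) : 0 ≤ hs H l l' := by
  induction l generalizing l' with
  | nil => simp [hs]
  | cons x l ih =>
    cases l' with
    | nil => simp [hs]
    | cons y l' => simp only [hs]; linarith [hH (x - y), ih l']

/-- near part: crude bound through exponential moments -/
theorem XX_sq_near (hM : SMom ν H β) (hH : ∀ x, 0 ≤ H x) {t U : ℝ} (ht : 0 < t) (htβ : t ≤ β)
    (hU : ∀ x y : Pt, EP k (fun l => EP k (fun l' =>
      Real.exp (3 * t * β * hs H (x :: l) (y :: l'))) y) x ≤ U)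
    (A : Finset Pt) (s : Pt) :
    EP k (fun l => ∫ e, wt β e (s :: l) * XX k q ρ A e ^ 2 ∂(muE ν)) s ≤
      (A.card : ℝ) ^ 2 * ((t ^ (2 * q))⁻¹ * U) := by
  have hβ : 0 ≤ β := ht.le.trans htβ
  set c : ℝ := (t ^ (2 * q))⁻¹ with hc
  have hc0 : 0 ≤ c := by positivity
  set E : List Pt → List Pt → ℝ := fun l l' => Real.exp (3 * t * β * hs H l l') with hE
  -- pointwise bound of the mixed moments
  have hMM : ∀ (x y : Pt) (l l' l'' : List Pt), l.length = k → l'.length = k → l''.length = k →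
      stay ρ x l' * stay ρ y l'' * MM H β q q (s :: l) (x :: l') (y :: l'') ≤
        c * (1 / 3) * (E (s :: l) (x :: l') + (E (s :: l) (y :: l'') +
          E (x :: l') (y :: l''))) := by
    intro x y l l' l'' h1 h2 h3
    have hm0 : 0 ≤ MM H β q q (s :: l) (x :: l') (y :: l'') :=
      MM_nonneg hH hβ _ _ _ (by simp [h1, h2]) (by simp [h1, h3]) q q
    have hm1 := MM_le hH hβ ht.le (s :: l) (x :: l') (y :: l'') (by simp [h1, h2])
      (by simp [h1, h3]) q q
    have a1 := hs_nonneg hH (s :: l) (x :: l')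
    have a2 := hs_nonneg hH (s :: l) (y :: l'')
    have a3 := hs_nonneg hH (x :: l') (y :: l'')
    have hm2 : Real.exp (t * β * hs H (s :: l) (x :: l') + t * β * hs H (s :: l) (y :: l'') +
        t ^ 2 * hs H (x :: l') (y :: l'')) ≤
        Real.exp (t * β * hs H (s :: l) (x :: l')) * Real.exp (t * β * hs H (s :: l) (y :: l'')) *
        Real.exp (t * β * hs H (x :: l') (y :: l'')) := by
      rw [← Real.exp_add, ← Real.exp_add]
      apply Real.exp_le_exp.mpr
      have : t ^ 2 ≤ t * β := by nlinarith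
      nlinarith
    set X := Real.exp (t * β * hs H (s :: l) (x :: l')) with hX
    set Y := Real.exp (t * β * hs H (s :: l) (y :: l'')) with hY
    set Z := Real.exp (t * β * hs H (x :: l') (y :: l'')) with hZ
    have hX3 : E (s :: l) (x :: l') = X ^ 3 := by
      rw [hE, hX, ← Real.exp_nat_mul]; push_cast; ring_nf
    have hY3 : E (s :: l) (y :: l'') = Y ^ 3 := by
      rw [hE, hY, ← Real.exp_nat_mul]; push_cast; ring_nf
    have hZ3 : E (x :: l') (y :: l'') = Z ^ 3 := by
      rw [hE, hZ, ← Real.exp_nat_mul]; push_cast; ring_nf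
    have hX0 : 0 < X := Real.exp_pos _
    have hY0 : 0 < Y := Real.exp_pos _
    have hZ0 : 0 < Z := Real.exp_pos _
    have amgm : X * Y * Z ≤ (1 / 3) * (X ^ 3 + (Y ^ 3 + Z ^ 3)) := by
      have : 0 ≤ (X + Y + Z) * ((X - Y) ^ 2 + (Y - Z) ^ 2 + (X - Z) ^ 2) := by positivity
      nlinarith [this]
    have htq : 0 < t ^ (2 * q) := by positivity
    have h5 : MM H β q q (s :: l) (x :: l') (y :: l'') ≤ c * (X * Y * Z) := by
      have h6 : t ^ q * (t ^ q * MM H β q q (s :: l) (x :: l') (y :: l'')) =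
          t ^ (2 * q) * MM H β q q (s :: l) (x :: l') (y :: l'') := by
        rw [two_mul, pow_add]; ring
      rw [h6] at hm1
      rw [hc, ← div_eq_inv_mul, le_div_iff₀ htq]
      linarith
    have hst : stay ρ x l' * stay ρ y l'' ≤ 1 :=
      mul_le_one₀ (stay_le_one _ _ _) (stay_nonneg _ _ _) (stay_le_one _ _ _)
    calc stay ρ x l' * stay ρ y l'' * MM H β q q (s :: l) (x :: l') (y :: l'')
        ≤ 1 * MM H β q q (s :: l) (x :: l') (y :: l'') := mul_le_mul_of_nonneg_right hst hm0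
      _ ≤ c * (X * Y * Z) := by rw [one_mul]; exact h5
      _ ≤ c * ((1 / 3) * (X ^ 3 + (Y ^ 3 + Z ^ 3))) := mul_le_mul_of_nonneg_left amgm hc0
      _ = _ := by rw [hX3, hY3, hZ3]; ring
  calc EP k (fun l => ∫ e, wt β e (s :: l) * XX k q ρ A e ^ 2 ∂(muE ν)) s
      ≤ EP k (fun l => ∑ x ∈ A, ∑ y ∈ A, EP k (fun l' => EP k (fun l'' =>
          c * (1 / 3) * (E (s :: l) (x :: l') + (E (s :: l) (y :: l'') +
          E (x :: l') (y :: l'')))) y) x) s := by
        refine EP_mono fun l hl _ => ?_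
        rw [(XX_sq_HI (k := k) (q := q) (ρ := ρ) hM A (s :: l) (by simp [hl])).2]
        refine Finset.sum_le_sum fun x _ => Finset.sum_le_sum fun y _ => ?_
        exact EP_mono fun l' hl' _ => EP_mono fun l'' hl'' _ => hMM x y l l' l'' hl hl' hl''
    _ = ∑ x ∈ A, ∑ y ∈ A, c * (1 / 3) *
          (EP k (fun l => EP k (fun l' => E (s :: l) (x :: l')) x) s +
          (EP k (fun l => EP k (fun l'' => E (s :: l) (y :: l'')) y) s +
          EP k (fun l' => EP k (fun l'' => E (x :: l') (y :: l'')) y) x)) := by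
        rw [EP_sum]
        refine Finset.sum_congr rfl fun x _ => ?_
        rw [EP_sum]
        refine Finset.sum_congr rfl fun y _ => ?_
        simp only [EP_const_mul, EP_add, EP_const]
    _ ≤ ∑ x ∈ A, ∑ y ∈ A, c * (1 / 3) * (U + (U + U)) := by
        refine Finset.sum_le_sum fun x _ => Finset.sum_le_sum fun y _ => ?_
        refine mul_le_mul_of_nonneg_left ?_ (by positivity)
        exact add_le_add (hU s x) (add_le_add (hU s y) (hU x y))
    _ = (A.card : ℝ) ^ 2 * (c * U) := by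
        simp only [Finset.sum_const, nsmul_eq_mul]
        ring

end

end Pool.Agent.Helper98.LogPoly.Mn
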