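import Mathlib

/-! Elementary asymptotic inequalities used for the choice of the parameters. -/

set_option autoImplicit false

namespace Pool.Agent.Helper98.LogPoly.Mn

open Filter Topology

theorem pow_le_exp_mul {y : ℝ} (hy : 1 ≤ y) {q : ℕ} {c : ℝ} (hq : (q : ℝ) ≤ c) :
    y ^ q ≤ Real.exp (c * Real.log y) := by
  have hy0 : 0 < y := by linarith
  have hl : 0 ≤ Real.log y := Real.log_nonneg hy
  calc y ^ q = Real.exp (q * Real.log y) := by
        rw [Real.exp_nat_mul, Real.exp_log hy0]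
    _ ≤ _ := Real.exp_le_exp.mpr (mul_le_mul_of_nonneg_right hq hl)

theorem par1 {K1 Hm c1 : ℝ} (hK1 : 0 < K1) (hHm : 0 ≤ Hm) (hc1 : 0 < c1) :
    ∀ᶠ x : ℝ in atTop, ∀ q : ℕ, (q : ℝ) ≤ K1 * Real.log x + 1 →
      Real.exp (-(x ^ 3 / 2)) * (1 + Hm * Real.exp x) ^ q ≤ c1 / 2 := by
  set C := Real.log (1 + Hm) with hC
  have hC0 : 0 ≤ C := Real.log_nonneg (by linarith)
  filter_upwards [eventually_ge_atTop 1, eventually_ge_atTop (2 * ((K1 + 1) * (1 + C) + 1)),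
    eventually_ge_atTop (-Real.log (c1 / 2))] with x hx1 hx2 hx3 q hq
  have hlx : Real.log x ≤ x := (Real.log_le_sub_one_of_pos (by linarith)).trans (by linarith)
  have hq' : (q : ℝ) ≤ (K1 + 1) * x := by nlinarith
  have hex : 1 ≤ Real.exp x := Real.one_le_exp (by linarith)
  have h1 : 1 + Hm * Real.exp x ≤ Real.exp (C + x) := by
    rw [Real.exp_add, hC, Real.exp_log (by linarith)]
    nlinarith
  have h2 : 1 ≤ 1 + Hm * Real.exp x := by
    have : 0 ≤ Hm * Real.exp x := by positivity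
    linarith
  have h3 : Real.log (1 + Hm * Real.exp x) ≤ C + x := by
    rw [Real.log_le_iff_le_exp (by linarith)]; exact h1
  have h4 : (1 + Hm * Real.exp x) ^ q ≤ Real.exp ((K1 + 1) * x * (C + x)) :=
    (pow_le_exp_mul h2 hq').trans (Real.exp_le_exp.mpr
      (mul_le_mul_of_nonneg_left h3 (by positivity)))
  calc Real.exp (-(x ^ 3 / 2)) * (1 + Hm * Real.exp x) ^ q
      ≤ Real.exp (-(x ^ 3 / 2)) * Real.exp ((K1 + 1) * x * (C + x)) :=
        mul_le_mul_of_nonneg_left h4 (Real.exp_pos _).le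
    _ = Real.exp (-(x ^ 3 / 2) + (K1 + 1) * x * (C + x)) := by rw [Real.exp_add]
    _ ≤ Real.exp (-x) := by
        apply Real.exp_le_exp.mpr
        have e1 : (K1 + 1) * x * (C + x) ≤ (K1 + 1) * (1 + C) * x ^ 2 := by
          have : C + x ≤ (1 + C) * x := by nlinarith
          calc _ ≤ (K1 + 1) * x * ((1 + C) * x) :=
                mul_le_mul_of_nonneg_left this (by positivity)
            _ = _ := by ring
        have e2 : 2 * ((K1 + 1) * (1 + C) + 1) * x ^ 2 ≤ x * x ^ 2 :=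
          mul_le_mul_of_nonneg_right hx2 (by positivity)
        nlinarith
    _ ≤ Real.exp (Real.log (c1 / 2)) := Real.exp_le_exp.mpr (by linarith)
    _ = c1 / 2 := Real.exp_log (by linarith)

theorem par2 {K1 Hm : ℝ} (hK1 : 0 < K1) (hHm : 0 ≤ Hm) :
    ∀ᶠ x : ℝ in atTop, ∀ q : ℕ, (q : ℝ) ≤ K1 * Real.log x + 1 →
      (4 * Real.exp x + 1) ^ 2 * (2 * (4 * Real.exp (1 / 2 - x ^ 3)) *
        ((Real.exp x + 1) * (Hm + 1)) ^ (q + 1)) ≤ 1 := by
  set C := Real.log (2 * (Hm + 1)) with hC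
  have hC0 : 0 ≤ C := Real.log_nonneg (by linarith)
  filter_upwards [eventually_ge_atTop 3, eventually_ge_atTop ((K1 + 2) * (1 + C) + 3)]
    with x hx1 hx2 q hq
  have hlx : Real.log x ≤ x := (Real.log_le_sub_one_of_pos (by linarith)).trans (by linarith)
  have hq' : ((q + 1 : ℕ) : ℝ) ≤ (K1 + 2) * x := by push_cast; nlinarith
  have hex : 1 ≤ Real.exp x := Real.one_le_exp (by linarith)
  have h1 : (Real.exp x + 1) * (Hm + 1) ≤ Real.exp (C + x) := by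
    rw [Real.exp_add, hC, Real.exp_log (by linarith)]
    nlinarith
  have h2 : 1 ≤ (Real.exp x + 1) * (Hm + 1) := by nlinarith
  have h3 : Real.log ((Real.exp x + 1) * (Hm + 1)) ≤ C + x := by
    rw [Real.log_le_iff_le_exp (by linarith)]; exact h1
  have h4 : ((Real.exp x + 1) * (Hm + 1)) ^ (q + 1) ≤ Real.exp ((K1 + 2) * x * (C + x)) :=
    (pow_le_exp_mul h2 hq').trans (Real.exp_le_exp.mpr
      (mul_le_mul_of_nonneg_left h3 (by positivity)))
  have h5 : (4 * Real.exp x + 1) ^ 2 ≤ 25 * Real.exp (2 * x) := by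
    have : Real.exp (2 * x) = Real.exp x ^ 2 := by rw [← Real.exp_nat_mul]; norm_num
    rw [this]
    nlinarith
  have h6 : Real.exp (1 / 2 - x ^ 3) ≤ 2 * Real.exp (-x ^ 3) := by
    rw [show (1:ℝ) / 2 - x ^ 3 = 1 / 2 + -x ^ 3 by ring, Real.exp_add]
    have : Real.exp (1 / 2) ≤ 2 := by
      have h7 : Real.exp (1 / 2) * Real.exp (1 / 2) = Real.exp 1 := by
        rw [← Real.exp_add]; norm_num
      have h8 := Real.exp_one_lt_d9
      nlinarith [Real.exp_pos (1/2 : ℝ)]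
    exact mul_le_mul_of_nonneg_right this (Real.exp_pos _).le
  calc (4 * Real.exp x + 1) ^ 2 * (2 * (4 * Real.exp (1 / 2 - x ^ 3)) *
        ((Real.exp x + 1) * (Hm + 1)) ^ (q + 1))
      ≤ (25 * Real.exp (2 * x)) * (2 * (4 * (2 * Real.exp (-x ^ 3))) *
        Real.exp ((K1 + 2) * x * (C + x))) := by gcongr
    _ = 400 * Real.exp (2 * x + -x ^ 3 + (K1 + 2) * x * (C + x)) := by
        rw [Real.exp_add, Real.exp_add]; ring
    _ ≤ 400 * Real.exp (-9) := by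
        refine mul_le_mul_of_nonneg_left (Real.exp_le_exp.mpr ?_) (by norm_num)
        have e1 : (K1 + 2) * x * (C + x) ≤ (K1 + 2) * (1 + C) * x ^ 2 := by
          have : C + x ≤ (1 + C) * x := by nlinarith
          calc _ ≤ (K1 + 2) * x * ((1 + C) * x) :=
                mul_le_mul_of_nonneg_left this (by positivity)
            _ = _ := by ring
        have e2 : ((K1 + 2) * (1 + C) + 3) * x ^ 2 ≤ x * x ^ 2 :=
          mul_le_mul_of_nonneg_right hx2 (by positivity)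
        nlinarith
    _ ≤ 1 := by
        have h9 : (2.7:ℝ) ^ 9 ≤ Real.exp 9 := by
          have h10 : Real.exp 9 = Real.exp 1 ^ 9 := by rw [← Real.exp_nat_mul]; norm_num
          rw [h10]
          gcongr
          have := Real.exp_one_gt_d9
          linarith
        rw [Real.exp_neg, ← div_eq_mul_inv, div_le_one (Real.exp_pos _)]
        calc (400:ℝ) ≤ 2.7 ^ 9 := by norm_num
          _ ≤ _ := h9

theorem ceil_rpow_le {x E : ℝ} (hx : 1 ≤ x) (hE : 0 ≤ E) :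
    ((⌈x ^ E⌉₊ : ℕ) : ℝ) ≤ 2 * x ^ E := by
  have h1 : 1 ≤ x ^ E := Real.one_le_rpow hx hE
  have := Nat.ceil_lt_add_one (a := x ^ E) (by linarith)
  linarith

theorem par3 {E : ℝ} (hE : 0 ≤ E) :
    ∀ᶠ x : ℝ in atTop, 4 * Real.exp (1 / 2 - x ^ 3) ≤ 1 / ((⌈x ^ E⌉₊ : ℕ) : ℝ) := by
  filter_upwards [eventually_ge_atTop 3, eventually_ge_atTop (E + 1)] with x hx1 hx2
  have hx0 : 0 < x := by linarith
  have h1 := ceil_rpow_le (E := E) (by linarith : 1 ≤ x) hE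
  have h2 : 0 < ((⌈x ^ E⌉₊ : ℕ) : ℝ) := by
    have : 0 < x ^ E := Real.rpow_pos_of_pos hx0 E
    exact_mod_cast Nat.ceil_pos.mpr this
  rw [le_div_iff₀ h2]
  have h3 : x ^ E ≤ Real.exp (E * x) := by
    rw [Real.rpow_def_of_pos hx0]
    apply Real.exp_le_exp.mpr
    have hlx : Real.log x ≤ x := (Real.log_le_sub_one_of_pos (by linarith)).trans (by linarith)
    nlinarith
  calc 4 * Real.exp (1 / 2 - x ^ 3) * ((⌈x ^ E⌉₊ : ℕ) : ℝ)
      ≤ 4 * Real.exp (1 / 2 - x ^ 3) * (2 * Real.exp (E * x)) := by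
        refine mul_le_mul_of_nonneg_left (by linarith) (by positivity)
    _ = 8 * Real.exp (1 / 2 - x ^ 3 + E * x) := by rw [Real.exp_add]; ring
    _ ≤ 8 * Real.exp (-3) := by
        refine mul_le_mul_of_nonneg_left (Real.exp_le_exp.mpr ?_) (by norm_num)
        have : (E + 1) * x ≤ x * x := mul_le_mul_of_nonneg_right hx2 hx0.le
        nlinarith [mul_nonneg (by linarith : (0:ℝ) ≤ x - 3) (by positivity : (0:ℝ) ≤ x ^ 2)]
    _ ≤ 1 := by
        have h9 : (2.7:ℝ) ^ 3 ≤ Real.exp 3 := by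
          have h10 : Real.exp 3 = Real.exp 1 ^ 3 := by rw [← Real.exp_nat_mul]; norm_num
          rw [h10]
          gcongr
          have := Real.exp_one_gt_d9
          linarith
        rw [Real.exp_neg, ← div_eq_mul_inv, div_le_one (Real.exp_pos _)]
        calc (8:ℝ) ≤ 2.7 ^ 3 := by norm_num
          _ ≤ _ := h9

/-- `ℓ = exp x` -/
theorem par4 {E : ℝ} (hE : 14 ≤ E) :
    ∀ᶠ x : ℝ in atTop, 3 * ((⌈Real.sqrt (Real.exp x) * x ^ 3⌉₊ : ℕ) : ℝ) + 1 ≤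
      Real.sqrt (Real.exp x * ((⌈x ^ E⌉₊ : ℕ) : ℝ)) := by
  filter_upwards [eventually_ge_atTop 2] with x hx
  have hx0 : 0 < x := by linarith
  have hs1 : 1 ≤ Real.sqrt (Real.exp x) := by
    rw [Real.one_le_sqrt]; exact Real.one_le_exp hx0.le
  have h1 : ((⌈Real.sqrt (Real.exp x) * x ^ 3⌉₊ : ℕ) : ℝ) ≤ Real.sqrt (Real.exp x) * x ^ 3 + 1 :=
    (Nat.ceil_lt_add_one (by positivity)).le
  have h2 : x ^ (14 : ℕ) ≤ ((⌈x ^ E⌉₊ : ℕ) : ℝ) := by
    calc x ^ (14:ℕ) = x ^ (14:ℝ) := by rw [← Real.rpow_natCast]; norm_num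
      _ ≤ x ^ E := Real.rpow_le_rpow_of_exponent_le (by linarith) hE
      _ ≤ _ := Nat.le_ceil _
  have h3 : Real.sqrt (Real.exp x) * x ^ 7 ≤
      Real.sqrt (Real.exp x * ((⌈x ^ E⌉₊ : ℕ) : ℝ)) := by
    rw [Real.sqrt_mul (Real.exp_pos x).le]
    refine mul_le_mul_of_nonneg_left ?_ (Real.sqrt_nonneg _)
    apply Real.le_sqrt_of_sq_le
    calc (x ^ 7) ^ 2 = x ^ 14 := by ring
      _ ≤ _ := h2
  refine le_trans ?_ h3
  have h4 : (16:ℝ) ≤ x ^ 4 := by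
    calc (16:ℝ) = 2 ^ 4 := by norm_num
      _ ≤ x ^ 4 := by gcongr
  have h5 : (8:ℝ) ≤ x ^ 3 := by
    calc (8:ℝ) = 2 ^ 3 := by norm_num
      _ ≤ x ^ 3 := by gcongr
  have h6 : x ^ 7 = x ^ 4 * x ^ 3 := by ring
  set s := Real.sqrt (Real.exp x)
  have h7 : 8 ≤ s * x ^ 3 := by nlinarith
  have h8 : 16 * (s * x ^ 3) ≤ s * x ^ 7 := by
    rw [h6]
    nlinarith [mul_nonneg (by positivity : (0:ℝ) ≤ s * x ^ 3) (by linarith : (0:ℝ) ≤ x ^ 4 - 16)]
  linarith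

theorem par5 {K1 c0 U : ℝ} (hK1 : 0 < K1) (hc0 : 0 < c0) (hc1 : c0 ≤ 1) (hU : 0 ≤ U)
    {E : ℝ} (hE : 14 + 2 * K1 * Real.log (1 / c0) ≤ E) :
    ∀ᶠ x : ℝ in atTop, ∀ q : ℕ, (q : ℝ) ≤ K1 * Real.log x + 1 →
      (6 * ((⌈Real.sqrt (Real.exp x) * x ^ 3⌉₊ : ℕ) : ℝ) + 1) ^ 4 *
        ((c0 ^ (2 * (q + 1)))⁻¹ * U) ≤ Real.exp x ^ 2 * ((⌈x ^ E⌉₊ : ℕ) : ℝ) := by
  set Lc := Real.log (1 / c0) with hLc
  have hLc0 : 0 ≤ Lc := Real.log_nonneg (by rw [le_div_iff₀ hc0]; linarith)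
  filter_upwards [eventually_ge_atTop 1,
    eventually_ge_atTop (13 ^ 4 * Real.exp (4 * Lc) * U)] with x hx1 hx2 q hq
  have hx0 : 0 < x := by linarith
  have hs1 : 1 ≤ Real.sqrt (Real.exp x) := by
    rw [Real.one_le_sqrt]; exact Real.one_le_exp hx0.le
  have h1 : ((⌈Real.sqrt (Real.exp x) * x ^ 3⌉₊ : ℕ) : ℝ) ≤ Real.sqrt (Real.exp x) * x ^ 3 + 1 :=
    (Nat.ceil_lt_add_one (by positivity)).le
  have h2 : 1 ≤ Real.sqrt (Real.exp x) * x ^ 3 := by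
    have : 1 ≤ x ^ 3 := one_le_pow₀ hx1
    nlinarith
  have h3 : 6 * ((⌈Real.sqrt (Real.exp x) * x ^ 3⌉₊ : ℕ) : ℝ) + 1 ≤
      13 * (Real.sqrt (Real.exp x) * x ^ 3) := by linarith
  have h4 : (6 * ((⌈Real.sqrt (Real.exp x) * x ^ 3⌉₊ : ℕ) : ℝ) + 1) ^ 4 ≤
      13 ^ 4 * (Real.exp x ^ 2 * x ^ 12) := by
    calc _ ≤ (13 * (Real.sqrt (Real.exp x) * x ^ 3)) ^ 4 := by gcongr
      _ = 13 ^ 4 * ((Real.sqrt (Real.exp x) ^ 2) ^ 2 * x ^ 12) := by ring
      _ = _ := by rw [Real.sq_sqrt (Real.exp_pos x).le]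
  have h5 : (c0 ^ (2 * (q + 1)))⁻¹ ≤ Real.exp (4 * Lc) * x ^ (2 * K1 * Lc) := by
    have e1 : (c0 ^ (2 * (q + 1)))⁻¹ = (1 / c0) ^ (2 * (q + 1)) := by
      rw [one_div, inv_pow]
    rw [e1]
    have h6 : 1 ≤ 1 / c0 := by rw [le_div_iff₀ hc0]; linarith
    have h7 : ((2 * (q + 1) : ℕ) : ℝ) ≤ 2 * (K1 * Real.log x + 2) := by push_cast; linarith
    refine (pow_le_exp_mul h6 h7).trans (le_of_eq ?_)
    rw [Real.rpow_def_of_pos hx0, ← Real.exp_add, ← hLc]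
    congr 1; ring
  have h8 : x ^ (14 + 2 * K1 * Lc) ≤ ((⌈x ^ E⌉₊ : ℕ) : ℝ) :=
    (Real.rpow_le_rpow_of_exponent_le hx1 hE).trans (Nat.le_ceil _)
  calc (6 * ((⌈Real.sqrt (Real.exp x) * x ^ 3⌉₊ : ℕ) : ℝ) + 1) ^ 4 *
        ((c0 ^ (2 * (q + 1)))⁻¹ * U)
      ≤ (13 ^ 4 * (Real.exp x ^ 2 * x ^ 12)) * ((Real.exp (4 * Lc) * x ^ (2 * K1 * Lc)) * U) := by
        gcongr
    _ = Real.exp x ^ 2 * ((13 ^ 4 * Real.exp (4 * Lc) * U) * x ^ 12 * x ^ (2 * K1 * Lc)) := by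
        ring
    _ ≤ Real.exp x ^ 2 * (x * x ^ 12 * x ^ (2 * K1 * Lc)) := by gcongr
    _ ≤ Real.exp x ^ 2 * (x ^ (14 + 2 * K1 * Lc)) := by
        refine mul_le_mul_of_nonneg_left ?_ (by positivity)
        rw [Real.rpow_add hx0]
        refine mul_le_mul_of_nonneg_right ?_ (Real.rpow_nonneg hx0.le _)
        calc x * x ^ 12 = 1 * x ^ 13 := by ring
          _ ≤ x * x ^ 13 := by gcongr
          _ = x ^ (14:ℝ) := by
              rw [show (14:ℝ) = ((14:ℕ):ℝ) by norm_num, Real.rpow_natCast]; ring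
    _ ≤ _ := mul_le_mul_of_nonneg_left h8 (by positivity)

theorem par8 {κ E : ℝ} (hκ : 1 < κ) (hE : 0 ≤ E) :
    ∀ᶠ x : ℝ in atTop, x + Real.log ((⌈x ^ E⌉₊ : ℕ) : ℝ) ≤ κ * (x - Real.log 2) := by
  have h1 : ∀ᶠ x : ℝ in atTop, Real.log x ≤ (κ - 1) / (2 * (E + 1)) * x := by
    have := Real.isLittleO_log_id_atTop.bound
      (show 0 < (κ - 1) / (2 * (E + 1)) by
        have : 0 < κ - 1 := by linarith
        positivity)
    filter_upwards [this, eventually_ge_atTop 1] with x hx hx1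
    rw [Real.norm_of_nonneg (Real.log_nonneg hx1), Real.norm_of_nonneg (by simp; linarith)] at hx
    simpa using hx
  filter_upwards [h1, eventually_ge_atTop 1,
    eventually_ge_atTop ((1 + κ) * Real.log 2 * 2 / (κ - 1))] with x hx hx1 hx2
  have hκ' : 0 < κ - 1 := by linarith
  have hx0 : 0 < x := by linarith
  have h2 := ceil_rpow_le hx1 hE
  have h3 : 0 < ((⌈x ^ E⌉₊ : ℕ) : ℝ) := by
    have : 0 < x ^ E := Real.rpow_pos_of_pos hx0 E
    exact_mod_cast Nat.ceil_pos.mpr this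
  have h4 : Real.log ((⌈x ^ E⌉₊ : ℕ) : ℝ) ≤ Real.log 2 + E * Real.log x := by
    calc _ ≤ Real.log (2 * x ^ E) := Real.log_le_log h3 h2
      _ = Real.log 2 + E * Real.log x := by
          rw [Real.log_mul (by norm_num) (Real.rpow_pos_of_pos hx0 E).ne', Real.log_rpow hx0]
  have h5 : E * Real.log x ≤ (κ - 1) / 2 * x := by
    have hlx : 0 ≤ Real.log x := Real.log_nonneg hx1
    calc E * Real.log x ≤ (E + 1) * Real.log x := by nlinarith
      _ ≤ (E + 1) * ((κ - 1) / (2 * (E + 1)) * x) := by gcongr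
      _ = (κ - 1) / 2 * x := by field_simp
  have h6 : (1 + κ) * Real.log 2 ≤ (κ - 1) / 2 * x := by
    rw [div_le_iff₀ hκ'] at hx2
    linarith
  linarith

end Pool.Agent.Helper98.LogPoly.Mn
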