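import Pool.Agent.Helper98.LogPoly.PartB2
import Pool.Agent.Helper82.LogPoly.PathLaw

/-! From moment bounds to bounds for the free energy. -/

set_option autoImplicit false

namespace Pool.Agent.Helper98.LogPoly.Mn

open MeasureTheory ProbabilityTheory Filter Topology
open scoped ENNReal

theorem uu_add_le {V : Pt → ℝ} {C : ℝ} {k : ℕ} (h : ∀ x, uu V k x ≤ C) (i : ℕ) (x : Pt) :
    uu V (i + k) x ≤ C * uu V i x := by
  induction i generalizing x with
  | zero => rw [Nat.zero_add]; simpa [uu] using h x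
  | succ i ih =>
    rw [show i + 1 + k = (i + k) + 1 by ring]
    simp only [uu]
    rw [← PD_const_mul]
    refine PD_mono (fun y => ?_) x
    calc Real.exp (V y) * uu V (i + k) y ≤ Real.exp (V y) * (C * uu V i y) :=
          mul_le_mul_of_nonneg_left (ih y) (Real.exp_pos _).le
      _ = _ := by ring

theorem uu_mul_le {V : Pt → ℝ} {C : ℝ} {k : ℕ} (h : ∀ x, uu V k x ≤ C) (j : ℕ) (x : Pt) :
    uu V (j * k) x ≤ C ^ j := by
  have hC : 0 ≤ C := (uu_pos V k 0).le.trans (h 0)
  induction j generalizing x with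
  | zero => simp [uu]
  | succ j ih =>
    rw [show (j + 1) * k = j * k + k by ring, pow_succ, mul_comm (C ^ j)]
    exact (uu_add_le h (j * k) x).trans (mul_le_mul_of_nonneg_left (ih x) hC)

section

variable {Ω : Type*} [MeasurableSpace Ω] {P : Measure Ω} [IsProbabilityMeasure P]
  {ω : ℕ → Pt → Ω → ℝ} {h : Pt → ℝ}

omit [IsProbabilityMeasure P] in
/-- the covariance of a Gaussian environment is positive definite -/
theorem posDefKer_of_env (hω : IsEnv P ω h) : PosDefKer h := by
  have hL : ∀ x, MemLp (ω 0 x) 2 P := fun x => PL.memLp_env hω 0 x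
  have hc : ∀ x y, ∫ w, ω 0 x w * ω 0 y w ∂P = h (x - y) := fun x y => by
    rw [hω.cov 0 0 x y, if_pos rfl]
  constructor
  · intro x
    have h1 := hc 0 x
    have h2 := hc x 0
    rw [sub_zero] at h2
    rw [zero_sub] at h1
    rw [← h1, ← h2]
    exact integral_congr_ae (Eventually.of_forall fun w => mul_comm _ _)
  · intro F c
    have h1 : ∫ w, (∑ x ∈ F, c x * ω 0 x w) ^ 2 ∂P =
        ∑ x ∈ F, ∑ y ∈ F, c x * c y * h (x - y) := by
      have h2 : ∀ w, (∑ x ∈ F, c x * ω 0 x w) ^ 2 =
          ∑ x ∈ F, ∑ y ∈ F, c x * c y * (ω 0 x w * ω 0 y w) := by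
        intro w
        rw [pow_two, Finset.sum_mul_sum]
        exact Finset.sum_congr rfl fun x _ => Finset.sum_congr rfl fun y _ => by ring
      simp only [h2]
      have hi : ∀ x y, Integrable (fun w => c x * c y * (ω 0 x w * ω 0 y w)) P := fun x y =>
        ((hL x).integrable_mul (hL y)).const_mul _
      rw [integral_finsetSum _ fun x _ => integrable_finsetSum _ fun y _ => hi x y]
      refine Finset.sum_congr rfl fun x _ => ?_
      rw [integral_finsetSum _ fun y _ => hi x y]
      refine Finset.sum_congr rfl fun y _ => ?_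
      rw [integral_const_mul, hc]
    rw [← h1]
    exact integral_nonneg fun w => sq_nonneg _

theorem WW_pos (β : ℝ) (N : ℕ) (o : ℕ → Pt → ℝ) : 0 < WW β N o := by
  unfold WW
  refine mul_pos (by positivity) (Finset.sum_pos (fun s _ => Real.exp_pos _) ?_)
  exact Finset.univ_nonempty

/-- lower bound for the free energy -/
theorem free_energy_ge (hω : IsEnv P ω h) (h0 : h 0 = 1) (hnn : ∀ x, 0 ≤ h x) {β b C p : ℝ}
    (hb : 1 < b) {N : ℕ} (hN : 1 ≤ N) (hC1 : 1 ≤ C)
    (hC : ∀ x, uu (fun y => b * β ^ 2 * h y) N x ≤ C)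
    (hp : ∀ᵐ w ∂P, Tendsto (fun T : ℕ => Real.log (WW β T (fun n x => ω n x w)) / T) atTop (𝓝 p)) :
    -p ≤ (Real.log C / (2 * (b - 1))) / N := by
  have hNR : (0:ℝ) < N := by exact_mod_cast hN
  set c : ℝ := Real.log C / (2 * (b - 1)) with hc
  have hc0 : 0 ≤ c := div_nonneg (Real.log_nonneg hC1) (by linarith)
  set W : ℕ → Ω → ℝ := fun T w => WW β T (fun n x => ω n x w) with hW
  -- expectation of the negative part
  have hlog : ∀ j : ℕ, -∫ w, Real.log (W (j * N) w) ∂P ≤ j * c := by
    intro j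
    have h1 := replica_bound hω h0 hnn β hb (j * N)
    have h2 := uu_mul_le hC j 0
    have h3 : Real.log (uu (fun y => b * β ^ 2 * h y) (j * N) 0) ≤ j * Real.log C := by
      calc _ ≤ Real.log (C ^ j) := Real.log_le_log (uu_pos _ _ _) h2
        _ = _ := by rw [Real.log_pow]
    calc _ ≤ _ := h1
      _ ≤ (1 / (2 * (b - 1))) * (j * Real.log C) :=
          mul_le_mul_of_nonneg_left h3 (by have : 0 < b - 1 := by linarith
                                           positivity)
      _ = _ := by rw [hc]; ring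
  set X : ℕ → Ω → ℝ := fun j w => max (-Real.log (W (j * N) w)) 0 / (j * N) with hX
  have hXint : ∀ j, Integrable (X j) P := fun j =>
    ((integrable_log_WW hω h0 β (j * N)).neg.pos_part).div_const _
  have hXnn : ∀ j w, 0 ≤ X j w := fun j w => div_nonneg (le_max_right _ _) (by positivity)
  have hXle : ∀ j : ℕ, 1 ≤ j → ∫ w, X j w ∂P ≤ c / N + 1 / (j * N) := by
    intro j hj
    have hjR : (0:ℝ) < j := by exact_mod_cast hj
    have hWi := integral_WW hω h0 β (j * N)
    have hLi := integrable_log_WW hω h0 β (j * N)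
    have h1 : ∫ w, X j w ∂P ≤ ∫ w, (-Real.log (W (j * N) w) + W (j * N) w) / (j * N) ∂P := by
      refine integral_mono (hXint j) ((hLi.neg.add hWi.1).div_const _) fun w => ?_
      show max (-Real.log (W (j * N) w)) 0 / (j * N) ≤
        (-Real.log (W (j * N) w) + W (j * N) w) / (j * N)
      refine div_le_div_of_nonneg_right ?_ (by positivity)
      have hWp : 0 < W (j * N) w := WW_pos _ _ _
      have h2 := Real.log_le_sub_one_of_pos hWp
      exact max_le (by linarith) (by linarith)
    refine h1.trans ?_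
    have hs : ∫ w, (-Real.log (W (j * N) w) + W (j * N) w) ∂P =
        -(∫ w, Real.log (W (j * N) w) ∂P) + 1 := by
      have h5 := integral_add (μ := P) (f := fun w => -Real.log (W (j * N) w))
        (g := fun w => W (j * N) w) hLi.neg hWi.1
      rw [h5, integral_neg]
      congr 1
      exact hWi.2
    rw [integral_div, hs]
    have h3 := hlog j
    rw [div_add_div _ _ hNR.ne' (by positivity), div_le_div_iff₀ (by positivity) (by positivity)]
    have h4 : (-∫ w, Real.log (W (j * N) w) ∂P + 1) * (N * (j * N)) ≤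
        (j * c + 1) * (N * (j * N)) := mul_le_mul_of_nonneg_right (by linarith) (by positivity)
    calc _ ≤ _ := h4
      _ = _ := by ring
  -- Fatou
  have hfatou : ∫⁻ w, liminf (fun j => ENNReal.ofReal (X j w)) atTop ∂P ≤
      liminf (fun j => ∫⁻ w, ENNReal.ofReal (X j w) ∂P) atTop :=
    lintegral_liminf_le' fun j => (hXint j).aestronglyMeasurable.aemeasurable.ennreal_ofReal
  have hleft : ENNReal.ofReal (-p) ≤ ∫⁻ w, liminf (fun j => ENNReal.ofReal (X j w)) atTop ∂P := by
    have h1 : ∀ᵐ w ∂P, ENNReal.ofReal (-p) ≤ liminf (fun j => ENNReal.ofReal (X j w)) atTop := by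
      filter_upwards [hp] with w hw
      have h2 : Tendsto (fun j : ℕ => j * N) atTop atTop :=
        tendsto_id.atTop_mul_const' (by omega)
      have h3 := (hw.comp h2).neg.max (tendsto_const_nhds (x := (0:ℝ)))
      have h4 : Tendsto (fun j => X j w) atTop (𝓝 (max (-p) 0)) := by
        refine h3.congr fun j => ?_
        simp only [Function.comp, hX, hW]
        rw [← max_div_div_right (by positivity : (0:ℝ) ≤ (j:ℝ) * N), zero_div, neg_div]
        push_cast
        rfl
      have h5 : liminf (fun j => ENNReal.ofReal (X j w)) atTop = ENNReal.ofReal (max (-p) 0) :=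
        ((ENNReal.continuous_ofReal.tendsto _).comp h4).liminf_eq
      rw [h5]
      exact ENNReal.ofReal_le_ofReal (le_max_left _ _)
    calc ENNReal.ofReal (-p) = ∫⁻ _, ENNReal.ofReal (-p) ∂P := by simp
      _ ≤ _ := lintegral_mono_ae h1
  have hright : liminf (fun j => ∫⁻ w, ENNReal.ofReal (X j w) ∂P) atTop ≤
      ENNReal.ofReal (c / N) := by
    have h1 : Tendsto (fun j : ℕ => ENNReal.ofReal (c / N + 1 / (j * N))) atTop
        (𝓝 (ENNReal.ofReal (c / N + 0))) := by
      refine (ENNReal.continuous_ofReal.tendsto _).comp (tendsto_const_nhds.add ?_)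
      have h2 : Tendsto (fun j : ℕ => (j : ℝ) * N) atTop atTop :=
        tendsto_natCast_atTop_atTop.atTop_mul_const hNR
      refine h2.inv_tendsto_atTop.congr fun j => ?_
      rw [Pi.inv_apply, one_div]
    rw [add_zero] at h1
    rw [← h1.liminf_eq]
    refine liminf_le_liminf ?_
    filter_upwards [eventually_ge_atTop 1] with j hj
    rw [← ofReal_integral_eq_lintegral_ofReal (hXint j) (Eventually.of_forall (hXnn j))]
    exact ENNReal.ofReal_le_ofReal (hXle j hj)
  have hfin := (hleft.trans hfatou).trans hright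
  rwa [ENNReal.ofReal_le_ofReal_iff (by positivity)] at hfin

/-- upper bound for the free energy -/
theorem free_energy_le {W : ℕ → Ω → ℝ} (hWpos : ∀ n w, 0 < W n w)
    (hWint : ∀ n, Integrable (fun w => Real.sqrt (W n w)) P) {N : ℕ} (hN : 1 ≤ N)
    (hdec : ∀ n : ℕ, ∫ w, Real.sqrt (W (n * N) w) ∂P ≤ (1 / 2) ^ n) {p : ℝ}
    (hp : ∀ᵐ w ∂P, Tendsto (fun T : ℕ => Real.log (W T w) / T) atTop (𝓝 p)) :
    p ≤ -(Real.log 2 / N) := by
  have hNR : (0:ℝ) < N := by exact_mod_cast hN
  have hl2 : 0 < Real.log 2 := Real.log_pos (by norm_num)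
  set r : ℝ := Real.exp (Real.log 2 / 2) with hr
  have hr0 : 0 < r := Real.exp_pos _
  have hr2 : r * r = 2 := by
    rw [hr, ← Real.exp_add, add_halves, Real.exp_log (by norm_num)]
  set Y : ℕ → Ω → ℝ := fun n w => Real.sqrt (W (n * N) w) * r ^ n with hY
  have hYint : ∀ n, Integrable (Y n) P := fun n => (hWint (n * N)).mul_const _
  have hYnn : ∀ n w, 0 ≤ Y n w := fun n w => by positivity
  have hYle : ∀ n, ∫ w, Y n w ∂P ≤ (1 / r) ^ n := by
    intro n
    have h1 : ∫ w, Y n w ∂P = (∫ w, Real.sqrt (W (n * N) w) ∂P) * r ^ n := integral_mul_const _ _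
    rw [h1]
    calc _ ≤ (1 / 2) ^ n * r ^ n := mul_le_mul_of_nonneg_right (hdec n) (by positivity)
      _ = (1 / r) ^ n := by
          rw [← mul_pow]
          congr 1
          rw [eq_div_iff hr0.ne', mul_assoc, hr2]; norm_num
  have hfatou : ∫⁻ w, liminf (fun n => ENNReal.ofReal (Y n w)) atTop ∂P ≤
      liminf (fun n => ∫⁻ w, ENNReal.ofReal (Y n w) ∂P) atTop :=
    lintegral_liminf_le' fun n => (hYint n).aestronglyMeasurable.aemeasurable.ennreal_ofReal
  have hzero : liminf (fun n => ∫⁻ w, ENNReal.ofReal (Y n w) ∂P) atTop ≤ 0 := by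
    have hr1 : 1 / r < 1 := by
      rw [div_lt_one hr0, hr]
      exact Real.one_lt_exp_iff.mpr (by linarith)
    have h1 : Tendsto (fun n : ℕ => ENNReal.ofReal ((1 / r) ^ n)) atTop (𝓝 (ENNReal.ofReal 0)) :=
      (ENNReal.continuous_ofReal.tendsto _).comp
        (tendsto_pow_atTop_nhds_zero_of_lt_one (by positivity) hr1)
    rw [ENNReal.ofReal_zero] at h1
    rw [← h1.liminf_eq]
    refine liminf_le_liminf (Eventually.of_forall fun n => ?_)
    show ∫⁻ w, ENNReal.ofReal (Y n w) ∂P ≤ ENNReal.ofReal ((1 / r) ^ n)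
    rw [← ofReal_integral_eq_lintegral_ofReal (hYint n) (Eventually.of_forall (hYnn n))]
    exact ENNReal.ofReal_le_ofReal (hYle n)
  by_contra hcon
  rw [not_le] at hcon
  have hall : ∀ᵐ w ∂P, (1:ℝ≥0∞) ≤ liminf (fun n => ENNReal.ofReal (Y n w)) atTop := by
   filter_upwards [hp] with w hw2
   have h2 : Tendsto (fun j : ℕ => j * N) atTop atTop :=
     tendsto_id.atTop_mul_const' (by omega)
   have h3 := hw2.comp h2
   have h4 : ∀ᶠ j : ℕ in atTop, -(Real.log 2 / N) < Real.log (W (j * N) w) / ((j * N : ℕ) : ℝ) :=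
     h3.eventually_const_lt hcon
   have h5 : ∀ᶠ j : ℕ in atTop, 1 ≤ Y j w := by
     filter_upwards [h4, eventually_ge_atTop 1] with j hj hj1
     have hjR : (0:ℝ) < j := by exact_mod_cast hj1
     have h6 : -(j * Real.log 2) < Real.log (W (j * N) w) := by
       rw [lt_div_iff₀ (by push_cast; positivity)] at hj
       have e : -(Real.log 2 / N) * ((j * N : ℕ) : ℝ) = -(j * Real.log 2) := by
         push_cast; field_simp
       rwa [e] at hj
     have h7 : Real.exp (-(j * Real.log 2) / 2) ≤ Real.sqrt (W (j * N) w) := by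
       rw [Real.le_sqrt' (Real.exp_pos _), ← Real.exp_nat_mul]
       rw [← Real.exp_log (hWpos (j * N) w)]
       apply Real.exp_le_exp.mpr
       push_cast
       linarith
     calc (1:ℝ) = Real.exp (-(j * Real.log 2) / 2) * r ^ j := by
           rw [hr, ← Real.exp_nat_mul, ← Real.exp_add]
           rw [show -((j:ℝ) * Real.log 2) / 2 + j * (Real.log 2 / 2) = 0 by ring, Real.exp_zero]
       _ ≤ Y j w := mul_le_mul_of_nonneg_right h7 (by positivity)
   have h8 : (1:ℝ≥0∞) ≤ liminf (fun n => ENNReal.ofReal (Y n w)) atTop := by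
     refine le_liminf_of_le (by isBoundedDefault) ?_
     filter_upwards [h5] with j hj
     rw [← ENNReal.ofReal_one]
     exact ENNReal.ofReal_le_ofReal hj
   exact h8
  have h9 : (1:ℝ≥0∞) ≤ ∫⁻ w, liminf (fun n => ENNReal.ofReal (Y n w)) atTop ∂P := by
    calc (1:ℝ≥0∞) = ∫⁻ _, 1 ∂P := by simp
      _ ≤ _ := lintegral_mono_ae hall
  have h10 := h9.trans (hfatou.trans hzero)
  exact absurd h10 (by norm_num)

end

end Pool.Agent.Helper98.LogPoly.Mn
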