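import Pool.Agent.Helper98.LogPoly.Link

/-! Exponential bound for leaving a box, and the lower bound for the total mass. -/

set_option autoImplicit false

namespace Pool.Agent.Helper98.LogPoly.Mn

/-- exponential weight -/
noncomputable def psi (θ : ℝ) (x y : Pt) : ℝ :=
  2 * Real.cosh (θ * ((y.1 : ℝ) - x.1)) + 2 * Real.cosh (θ * ((y.2 : ℝ) - x.2))

theorem psi_self (θ : ℝ) (x : Pt) : psi θ x x = 4 := by
  unfold psi; simp; norm_num

theorem psi_pos (θ : ℝ) (x y : Pt) : 0 < psi θ x y := by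
  unfold psi
  have := Real.cosh_pos (θ * ((y.1 : ℝ) - x.1))
  have := Real.cosh_pos (θ * ((y.2 : ℝ) - x.2))
  linarith

theorem psi_step (θ : ℝ) (x y : Pt) :
    (1 / 4) * ∑ i : Fin 4, psi θ x (y + stp i) ≤ Real.exp (θ ^ 2 / 2) * psi θ x y := by
  have h1 : (1 / 4) * ∑ i : Fin 4, psi θ x (y + stp i) =
      (1 + Real.cosh θ) / 2 * psi θ x y := by
    have e1 : ∀ a : ℝ, Real.cosh (θ * (a + 1)) + Real.cosh (θ * (a - 1)) =
        2 * Real.cosh (θ * a) * Real.cosh θ := by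
      intro a
      rw [mul_add, mul_sub, mul_one, Real.cosh_add, Real.cosh_sub]; ring
    have h2 := e1 ((y.1 : ℝ) - x.1)
    have h3 := e1 ((y.2 : ℝ) - x.2)
    rw [Fin.sum_univ_four]
    unfold psi stp
    simp only [Matrix.cons_val_zero, Matrix.cons_val_one, Matrix.cons_val, Prod.fst_add,
      Prod.snd_add, Int.cast_add, Int.cast_one, Int.cast_neg, add_zero]
    have r1 : (y.1 : ℝ) + 1 - x.1 = ((y.1 : ℝ) - x.1) + 1 := by ring
    have r2 : (y.1 : ℝ) + -1 - x.1 = ((y.1 : ℝ) - x.1) - 1 := by ring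
    have r3 : (y.2 : ℝ) + 1 - x.2 = ((y.2 : ℝ) - x.2) + 1 := by ring
    have r4 : (y.2 : ℝ) + -1 - x.2 = ((y.2 : ℝ) - x.2) - 1 := by ring
    rw [r1, r2, r3, r4]
    linear_combination (1 / 2) * h2 + (1 / 2) * h3
  rw [h1]
  refine mul_le_mul_of_nonneg_right ?_ (psi_pos θ x y).le
  have h4 := Real.cosh_le_exp_half_sq θ
  have h5 := Real.one_le_cosh θ
  linarith

theorem psi_far {θ : ℝ} (hθ : 0 ≤ θ) {ρ : ℤ} {x y : Pt} (h : ¬ near ρ x y) :
    Real.exp (θ * ρ) ≤ psi θ x y := by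
  have key : ∀ a : ℝ, (ρ : ℝ) ≤ |a| → Real.exp (θ * ρ) ≤ 2 * Real.cosh (θ * a) := by
    intro a ha
    have h1 : Real.cosh (θ * a) = Real.cosh (θ * |a|) := by
      rcases abs_cases a with ⟨h, _⟩ | ⟨h, _⟩
      · rw [h]
      · rw [h, mul_neg, Real.cosh_neg]
    rw [h1, Real.cosh_eq]
    have h2 : Real.exp (θ * ρ) ≤ Real.exp (θ * |a|) :=
      Real.exp_le_exp.mpr (mul_le_mul_of_nonneg_left ha hθ)
    have h3 := Real.exp_pos (-(θ * |a|))
    linarith
  unfold near at h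
  rw [not_and_or, not_le, not_le] at h
  unfold psi
  rcases h with h | h
  · have h1 : (ρ : ℝ) ≤ |(y.1 : ℝ) - x.1| := by
      have : ((ρ : ℤ) : ℝ) ≤ ((|y.1 - x.1| : ℤ) : ℝ) := by exact_mod_cast h.le
      rw [Int.cast_abs, Int.cast_sub] at this
      exact this
    have := key _ h1
    have := Real.cosh_pos (θ * ((y.2 : ℝ) - x.2))
    linarith
  · have h1 : (ρ : ℝ) ≤ |(y.2 : ℝ) - x.2| := by
      have : ((ρ : ℤ) : ℝ) ≤ ((|y.2 - x.2| : ℤ) : ℝ) := by exact_mod_cast h.le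
      rw [Int.cast_abs, Int.cast_sub] at this
      exact this
    have := key _ h1
    have := Real.cosh_pos (θ * ((y.1 : ℝ) - x.1))
    linarith

theorem stay_cons_near {ρ : ℤ} {x y : Pt} (h : near ρ x y) (l : List Pt) :
    stay ρ x (y :: l) = stay ρ x l := by
  unfold stay
  by_cases h1 : ∀ z ∈ l, near ρ x z
  · rw [if_pos h1, if_pos]
    intro z hz
    rcases List.mem_cons.mp hz with rfl | hz
    · exact h
    · exact h1 z hz
  · rw [if_neg h1, if_neg]
    intro h2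
    exact h1 fun z hz => h2 z (List.mem_cons_of_mem _ hz)

theorem stay_cons_far {ρ : ℤ} {x y : Pt} (h : ¬ near ρ x y) (l : List Pt) :
    stay ρ x (y :: l) = 0 := by
  unfold stay
  rw [if_neg]
  intro h2
  exact h (h2 y List.mem_cons_self)

theorem tail_aux {θ : ℝ} (hθ : 0 ≤ θ) (ρ : ℤ) (x : Pt) (k : ℕ) (y : Pt) :
    EP k (fun l => 1 - stay ρ x l) y ≤
      Real.exp (θ ^ 2 / 2) ^ k * (Real.exp (-(θ * ρ)) * psi θ x y) := by
  induction k generalizing y with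
  | zero =>
    have h1 : stay ρ x [] = 1 := by unfold stay; simp
    have : EP 0 (fun l => 1 - stay ρ x l) y = 0 := by
      show 1 - stay ρ x [] = 0
      rw [h1]; ring
    rw [this, pow_zero, one_mul]
    exact mul_nonneg (Real.exp_pos _).le (psi_pos θ x y).le
  | succ k ih =>
    rw [EP_succ]
    set c := Real.exp (θ ^ 2 / 2) with hc
    have hc1 : 1 ≤ c := by rw [hc]; exact Real.one_le_exp (by positivity)
    have hcp : 1 ≤ c ^ k := one_le_pow₀ hc1
    have h1 : ∀ i ∈ (Finset.univ : Finset (Fin 4)),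
        EP k (fun l => 1 - stay ρ x ((y + stp i) :: l)) (y + stp i) ≤
        c ^ k * Real.exp (-(θ * ρ)) * psi θ x (y + stp i) := by
      intro i _
      by_cases hn : near ρ x (y + stp i)
      · simp only [stay_cons_near hn]
        calc _ ≤ _ := ih (y + stp i)
          _ = _ := by ring
      · simp only [stay_cons_far hn, sub_zero, EP_const]
        have h2 := psi_far hθ hn
        have h3 : 1 ≤ Real.exp (-(θ * ρ)) * psi θ x (y + stp i) := by
          calc (1:ℝ) = Real.exp (-(θ * ρ)) * Real.exp (θ * ρ) := by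
                rw [← Real.exp_add]; simp
            _ ≤ _ := mul_le_mul_of_nonneg_left h2 (Real.exp_pos _).le
        calc (1:ℝ) = 1 * 1 := by ring
          _ ≤ c ^ k * (Real.exp (-(θ * ρ)) * psi θ x (y + stp i)) :=
              mul_le_mul hcp h3 zero_le_one (by linarith)
          _ = _ := by ring
    have h2 := Finset.sum_le_sum h1
    rw [← Finset.mul_sum] at h2
    have h3 := psi_step θ x y
    have h4 : 0 < c ^ k * Real.exp (-(θ * ρ)) := by positivity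
    calc (1 / 4) * ∑ i : Fin 4, EP k (fun l => 1 - stay ρ x ((y + stp i) :: l)) (y + stp i)
        ≤ (1 / 4) * (c ^ k * Real.exp (-(θ * ρ)) * ∑ i : Fin 4, psi θ x (y + stp i)) :=
          mul_le_mul_of_nonneg_left h2 (by norm_num)
      _ = c ^ k * Real.exp (-(θ * ρ)) * ((1 / 4) * ∑ i : Fin 4, psi θ x (y + stp i)) := by ring
      _ ≤ c ^ k * Real.exp (-(θ * ρ)) * (c * psi θ x y) :=
          mul_le_mul_of_nonneg_left h3 h4.le
      _ = _ := by ring

/-- probability of leaving the box -/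
theorem tail_bound {θ : ℝ} (hθ : 0 ≤ θ) (ρ : ℤ) (x : Pt) (k : ℕ) :
    EP k (fun l => 1 - stay ρ x l) x ≤ 4 * Real.exp (k * (θ ^ 2 / 2) - θ * ρ) := by
  have h := tail_aux hθ ρ x k x
  rw [psi_self, ← Real.exp_nat_mul] at h
  calc _ ≤ _ := h
    _ = 4 * (Real.exp (k * (θ ^ 2 / 2)) * Real.exp (-(θ * ρ))) := by ring
    _ = _ := by rw [← Real.exp_add]; ring_nf

/-! ### mass of the chaos -/

theorem stp_bd (i : Fin 4) : |(stp i).1| ≤ 1 ∧ |(stp i).2| ≤ 1 := by
  fin_cases i <;> simp [stp]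

theorem sum_PD_ge {f : Pt → ℝ} (hf : ∀ x, 0 ≤ f x) (R : ℤ) :
    ∑ y ∈ bx R 0, f y ≤ ∑ y ∈ bx (R + 2) 0, PD f y := by
  classical
  unfold PD
  rw [← Finset.mul_sum]
  have h1 : ∀ i j : Fin 4, ∑ y ∈ bx R 0, f y ≤ ∑ y ∈ bx (R + 2) 0, f (y + stp i - stp j) := by
    intro i j
    have h2 : ∑ y ∈ bx (R + 2) 0, f (y + stp i - stp j) =
        ∑ z ∈ (bx (R + 2) 0).image (fun y => y + stp i - stp j), f z := by
      rw [Finset.sum_image (fun a _ b _ h => by simpa using h)]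
    rw [h2]
    refine Finset.sum_le_sum_of_subset_of_nonneg ?_ fun y _ _ => hf y
    intro y hy
    rw [Finset.mem_image]
    refine ⟨y - stp i + stp j, ?_, by abel⟩
    rw [mem_bx] at hy ⊢
    unfold near at hy ⊢
    obtain ⟨a1, a2⟩ := stp_bd i
    obtain ⟨b1, b2⟩ := stp_bd j
    simp only [Prod.fst_zero, Prod.snd_zero, sub_zero, Prod.fst_add, Prod.snd_add, Prod.fst_sub,
      Prod.snd_sub] at hy ⊢
    obtain ⟨c1, c2⟩ := hy
    rw [abs_le] at a1 a2 b1 b2 c1 c2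
    constructor
    · rw [abs_le]
      exact ⟨by linarith [c1.1, a1.2, b1.1], by linarith [c1.2, a1.1, b1.2]⟩
    · rw [abs_le]
      exact ⟨by linarith [c2.1, a2.2, b2.1], by linarith [c2.2, a2.1, b2.2]⟩
  have h3 : ∑ y ∈ bx (R + 2) 0, ∑ i : Fin 4, ∑ j : Fin 4, f (y + stp i - stp j) =
      ∑ i : Fin 4, ∑ j : Fin 4, ∑ y ∈ bx (R + 2) 0, f (y + stp i - stp j) := by
    rw [Finset.sum_comm]
    refine Finset.sum_congr rfl fun i _ => ?_
    rw [Finset.sum_comm]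
  rw [h3]
  have h4 : ∑ i : Fin 4, ∑ j : Fin 4, ∑ y ∈ bx R 0, f y ≤
      ∑ i : Fin 4, ∑ j : Fin 4, ∑ y ∈ bx (R + 2) 0, f (y + stp i - stp j) :=
    Finset.sum_le_sum fun i _ => Finset.sum_le_sum fun j _ => h1 i j
  simp only [Finset.sum_const, Finset.card_univ, Fintype.card_fin, nsmul_eq_mul] at h4
  push_cast at h4
  linarith

/-- the total mass of the chaos coefficients grows at least linearly -/
theorem sum_aa_ge {H : Pt → ℝ} (hH : ∀ x, 0 ≤ H x) (H0 : H 0 = 1) (q K : ℕ) :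
    ∑ k ∈ Finset.range K, PD (aa H q k) 0 ≤ ∑ y ∈ bx (2 * K) 0, aa H (q + 1) K y := by
  classical
  induction K with
  | zero =>
    simp only [Finset.range_zero, Finset.sum_empty]
    exact Finset.sum_nonneg fun y _ => aa_nonneg hH _ _ _
  | succ K ih =>
    rw [Finset.sum_range_succ]
    have h1 := sum_PD_ge (f := aa H (q + 1) K) (fun x => aa_nonneg hH _ _ _) (2 * K)
    have e : (2 * ((K + 1 : ℕ) : ℤ)) = 2 * (K : ℤ) + 2 := by push_cast; ring
    rw [e]
    simp only [aa_succ_succ]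
    rw [Finset.sum_add_distrib]
    have h2 : PD (aa H q K) 0 ≤ ∑ y ∈ bx (2 * (K : ℤ) + 2) 0, H y * PD (aa H q K) y := by
      have h3 : H 0 * PD (aa H q K) 0 ≤ ∑ y ∈ bx (2 * (K : ℤ) + 2) 0, H y * PD (aa H q K) y := by
        refine Finset.single_le_sum (f := fun y => H y * PD (aa H q K) y)
          (fun y _ => mul_nonneg (hH y) (PD_nonneg (fun x => aa_nonneg hH _ _ _) y)) ?_
        rw [mem_bx]
        exact near_refl (by positivity) 0
      rwa [H0, one_mul] at h3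
    linarith

/-- reflection of a box -/
theorem sum_bx_neg (f : Pt → ℝ) (R : ℤ) : ∑ y ∈ bx R 0, f (0 - y) = ∑ y ∈ bx R 0, f y := by
  refine Finset.sum_nbij' (fun y => 0 - y) (fun y => 0 - y) ?_ ?_ ?_ ?_ ?_
  · intro y hy
    rw [mem_bx] at hy ⊢
    unfold near at hy ⊢
    simpa using hy
  · intro y hy
    rw [mem_bx] at hy ⊢
    unfold near at hy ⊢
    simpa using hy
  · intro y _; simp
  · intro y _; simp
  · intro y _; rfl

/-- comparison of the pair correlation with and without the constraint -/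
theorem CC_ge {H : Pt → ℝ} (hH : ∀ x, 0 ≤ H x) {Hm : ℝ} (hHm : ∀ x, H x ≤ Hm) {ρ : ℤ} {k q : ℕ}
    {τ : ℝ} (hτ : ∀ x : Pt, EP k (fun l => 1 - stay ρ x l) x ≤ τ) (x y : Pt) :
    aa H q (k + 1) (x - y) - 2 * τ * ((k + 2) * (Hm + 1)) ^ q ≤ CC H k q ρ x y := by
  have hHm0 : 0 ≤ Hm := (hH 0).trans (hHm 0)
  rw [← EP_EP_es H k q x y]
  set c : ℝ := ((k + 2) * (Hm + 1)) ^ q with hc
  have hc0 : 0 ≤ c := by positivity
  have h1 : ∀ l l' : List Pt, l.length = k → l'.length = k →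
      es q (hl H (x :: l) (y :: l')) ≤ c := by
    intro l l' h2 h3
    have h4 : ∀ v ∈ hl H (x :: l) (y :: l'), 0 ≤ v ∧ v ≤ Hm := by
      intro v hv
      obtain ⟨a, _, b, _, rfl⟩ := mem_hl hv
      exact ⟨hH _, hHm _⟩
    have h5 := es_le hHm0 h4 q
    have h6 : (hl H (x :: l) (y :: l')).length = k + 1 := by
      rw [hl_eq]
      simp [dl, h2, h3]
    rw [h6] at h5
    calc _ ≤ _ := h5
      _ = c := by rw [hc]; push_cast; ring_nf
  have h2 : EP k (fun l => EP k (fun l' => es q (hl H (x :: l) (y :: l'))) y) x -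
      EP k (fun l => EP k (fun l' => c * ((1 - stay ρ x l) + (1 - stay ρ y l'))) y) x ≤
      CC H k q ρ x y := by
    unfold CC
    rw [← EP_sub]
    refine EP_mono fun l hl' _ => ?_
    rw [← EP_sub]
    refine EP_mono fun l' hl'' _ => ?_
    have h3 := h1 l l' hl' hl''
    have h4 : 0 ≤ es q (hl H (x :: l) (y :: l')) := es_nonneg (hl_nonneg hH _ _) q
    have a0 := stay_nonneg ρ x l
    have a1 := stay_le_one ρ x l
    have b0 := stay_nonneg ρ y l'
    have b1 := stay_le_one ρ y l'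
    have h5 : (1 - stay ρ x l * stay ρ y l') * es q (hl H (x :: l) (y :: l')) ≤
        ((1 - stay ρ x l) + (1 - stay ρ y l')) * c := by
      apply mul_le_mul _ h3 h4 (by linarith)
      nlinarith
    linarith
  have h3 : EP k (fun l => EP k (fun l' => c * ((1 - stay ρ x l) + (1 - stay ρ y l'))) y) x ≤
      c * (τ + τ) := by
    have : EP k (fun l => EP k (fun l' => c * ((1 - stay ρ x l) + (1 - stay ρ y l'))) y) x =
        c * (EP k (fun l => 1 - stay ρ x l) x + EP k (fun l' => 1 - stay ρ y l') y) := by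
      simp only [EP_const_mul, EP_add, EP_const]
    rw [this]
    exact mul_le_mul_of_nonneg_left (add_le_add (hτ x) (hτ y)) hc0
  linarith

/-- lower bound for the total mass of the pair correlation -/
theorem MT_ge {H : Pt → ℝ} (hH : ∀ x, 0 ≤ H x) {Hm : ℝ} (hHm : ∀ x, H x ≤ Hm) (H0 : H 0 = 1)
    {r ρ : ℤ} (hS : Supp H r) (hρ : 0 ≤ ρ) {k q : ℕ}
    {τ : ℝ} (hτ : ∀ x : Pt, EP k (fun l => 1 - stay ρ x l) x ≤ τ) :
    ∑ j ∈ Finset.range (k + 1), PD (aa H q j) 0 -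
      (4 * (k + 1) + 1) ^ 2 * (2 * τ * ((k + 2) * (Hm + 1)) ^ (q + 1)) ≤
      MT H k (q + 1) ρ r := by
  have h1 := sum_aa_ge hH H0 q (k + 1)
  have h2 := sum_CC_le (k := k) (q := q + 1) hH hS hρ (by omega) (bx (2 * ((k + 1 : ℕ) : ℤ)) 0) 0
  have h3 : ∑ y ∈ bx (2 * ((k + 1 : ℕ) : ℤ)) 0,
      (aa H (q + 1) (k + 1) (0 - y) - 2 * τ * ((k + 2) * (Hm + 1)) ^ (q + 1)) ≤
      ∑ y ∈ bx (2 * ((k + 1 : ℕ) : ℤ)) 0, CC H k (q + 1) ρ 0 y :=
    Finset.sum_le_sum fun y _ => CC_ge hH hHm hτ 0 y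
  rw [Finset.sum_sub_distrib, sum_bx_neg (fun y => aa H (q + 1) (k + 1) y), Finset.sum_const,
    nsmul_eq_mul, card_bx (by positivity)] at h3
  push_cast at h3 h1 h2
  have e : (2 * (2 * ((k:ℝ) + 1)) + 1) ^ 2 = (4 * (k + 1) + 1) ^ 2 := by ring
  rw [e] at h3
  linarith

/-- growth of the chaos coefficients from a subsolution -/
theorem sum_aa_lower {H φ : Pt → ℝ} (hH : ∀ x, 0 ≤ H x) {Hm : ℝ} (hHm : ∀ x, H x ≤ Hm)
    {B ρ0 lam c1 : ℝ} (hB : 0 ≤ B) (hρ0 : 0 < ρ0) (hlam : 0 ≤ lam) (hc1 : 0 ≤ c1)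
    (hφ1 : ∀ x, φ x ≤ 1)
    (hφ : ∀ x, φ x ≤ Real.exp (-lam) * (1 + B * H x / ρ0) * PD φ x)
    (hφ0 : c1 ≤ PD φ 0) {K q : ℕ} (hK : 2 ≤ K)
    (hsmall : Real.exp (-(lam * (K / 2))) * (1 + B * Hm / ρ0 * K) ^ q ≤ c1 / 2) :
    (K : ℝ) / 4 * (ρ0 ^ q * (c1 / 2)) ≤ B ^ q * ∑ j ∈ Finset.range K, PD (aa H q j) 0 := by
  have hHm0 : 0 ≤ Hm := (hH 0).trans (hHm 0)
  have hv0 : 0 ≤ B * Hm / ρ0 := by positivity
  have h1 : ∀ j ∈ Finset.Ico (K - K / 2) K, ρ0 ^ q * (c1 / 2) ≤ B ^ q * PD (aa H q j) 0 := by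
    intro j hj
    rw [Finset.mem_Ico] at hj
    have h2 : PD (fun z => ρ0 ^ q * (φ z - Real.exp (-(lam * j)) *
        (1 + B * Hm / ρ0 * j) ^ q)) 0 ≤ PD (fun z => B ^ q * aa H q j z) 0 :=
      PD_mono (fun z => aa_lower hH hHm hB hρ0 hlam hφ1 hφ j q z) 0
    rw [PD_const_mul, PD_const_mul, PD_sub, PD_const] at h2
    refine le_trans ?_ h2
    refine mul_le_mul_of_nonneg_left ?_ (by positivity)
    have hj1 : (K : ℝ) / 2 ≤ j := by
      have : K ≤ 2 * j := by omega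
      have : (K : ℝ) ≤ 2 * j := by exact_mod_cast this
      linarith
    have hj2 : (j : ℝ) ≤ K := by exact_mod_cast hj.2.le
    have h3 : Real.exp (-(lam * j)) * (1 + B * Hm / ρ0 * j) ^ q ≤
        Real.exp (-(lam * (K / 2))) * (1 + B * Hm / ρ0 * K) ^ q := by
      apply mul_le_mul
      · apply Real.exp_le_exp.mpr
        have := mul_le_mul_of_nonneg_left hj1 hlam
        linarith
      · apply pow_le_pow_left₀ (by positivity)
        have := mul_le_mul_of_nonneg_left hj2 hv0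
        linarith
      · positivity
      · positivity
    linarith
  have h4 : ((Finset.Ico (K - K / 2) K).card : ℝ) * (ρ0 ^ q * (c1 / 2)) ≤
      ∑ j ∈ Finset.Ico (K - K / 2) K, B ^ q * PD (aa H q j) 0 := by
    have := Finset.sum_le_sum h1
    rwa [Finset.sum_const, nsmul_eq_mul] at this
  have h5 : ∑ j ∈ Finset.Ico (K - K / 2) K, B ^ q * PD (aa H q j) 0 ≤
      ∑ j ∈ Finset.range K, B ^ q * PD (aa H q j) 0 := by
    refine Finset.sum_le_sum_of_subset_of_nonneg ?_ fun j _ _ =>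
      mul_nonneg (pow_nonneg hB _) (PD_nonneg (fun x => aa_nonneg hH _ _ _) 0)
    intro j hj
    rw [Finset.mem_Ico] at hj
    exact Finset.mem_range.mpr hj.2
  rw [← Finset.mul_sum (Finset.range K)] at h5
  have h6 : (K : ℝ) / 4 ≤ ((Finset.Ico (K - K / 2) K).card : ℝ) := by
    rw [Nat.card_Ico]
    have : K - (K - K / 2) = K / 2 := by omega
    rw [this]
    have : K ≤ 4 * (K / 2) := by omega
    have : (K : ℝ) ≤ 4 * ((K / 2 : ℕ) : ℝ) := by exact_mod_cast this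
    linarith
  have h7 : 0 ≤ ρ0 ^ q * (c1 / 2) := by positivity
  calc (K : ℝ) / 4 * (ρ0 ^ q * (c1 / 2)) ≤ ((Finset.Ico (K - K / 2) K).card : ℝ) *
        (ρ0 ^ q * (c1 / 2)) := mul_le_mul_of_nonneg_right h6 h7
    _ ≤ _ := h4.trans h5

end Pool.Agent.Helper98.LogPoly.Mn
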