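import Pool.Agent.Helper98.LogPoly.Tilt
import Pool.Agent.Helper98.LogPoly.Tail
import Pool.Agent.Helper98.LogPoly.Params
import Pool.Agent.Helper13.LogPoly.Coarse
import Pool.Agent.Helper44.LogPoly.Slice
import Pool.Agent.Helper87.LogPoly.SubMain

/-! Exponential decay of the fractional moment above the critical scale. -/

set_option autoImplicit false

namespace Pool.Agent.Helper98.LogPoly.Mn

open MeasureTheory ProbabilityTheory Filter Topology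

theorem ker_le_one {h : Pt → ℝ} (hpd : PosDefKer h) (h0 : h 0 = 1) (x : Pt) : h x ≤ 1 := by
  classical
  by_cases hx : x = 0
  · rw [hx, h0]
  have h1 := hpd.2 {0, x} (fun y => if y = 0 then 1 else -1)
  rw [Finset.sum_pair (Ne.symm hx), Finset.sum_pair (Ne.symm hx), Finset.sum_pair (Ne.symm hx)] at h1
  simp only [if_true, if_neg hx, sub_self, sub_zero, zero_sub, hpd.1, h0] at h1
  linarith

theorem chi_nonneg (r : ℕ) (x : Pt) : 0 ≤ chi r x :=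
  mul_nonneg (le_max_left _ _) (le_max_left _ _)

theorem chi_le_one (r : ℕ) (x : Pt) : chi r x ≤ 1 := by
  unfold chi
  have h1 : 0 ≤ |(x.1 : ℝ)| / r := by positivity
  have h2 : 0 ≤ |(x.2 : ℝ)| / r := by positivity
  exact mul_le_one₀ (max_le zero_le_one (by linarith only [h1])) (le_max_left _ _)
    (max_le zero_le_one (by linarith))

theorem chi_zero (r : ℕ) : chi r 0 = 1 := by
  unfold chi; simp

theorem chi_supp {r : ℕ} (hr : 1 ≤ r) {x : Pt} (h : chi r x ≠ 0) :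
    |x.1| < (r : ℤ) ∧ |x.2| < (r : ℤ) := by
  have hr' : (0:ℝ) < r := by exact_mod_cast hr
  have key : ∀ a : ℤ, max (0:ℝ) (1 - |(a : ℝ)| / r) ≠ 0 → |a| < (r : ℤ) := by
    intro a ha
    by_contra hcon
    rw [not_lt] at hcon
    apply ha
    apply max_eq_left
    have h1 : ((r : ℤ) : ℝ) ≤ ((|a| : ℤ) : ℝ) := by exact_mod_cast hcon
    rw [Int.cast_abs] at h1
    have h2 : (r : ℝ) ≤ |(a : ℝ)| := by simpa using h1
    have : 1 ≤ |(a : ℝ)| / r := by rw [le_div_iff₀ hr']; linarith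
    linarith
  unfold chi at h
  exact ⟨key _ (left_ne_zero_of_mul h), key _ (right_ne_zero_of_mul h)⟩

theorem chi_lower {r : ℕ} (hr : 1 ≤ r) {x : Pt} {s : ℝ} (hs : 0 ≤ s) (hx : nsq x ≤ s ^ 2)
    (hsr : s ≤ r) : 1 - 2 * (s / r) ≤ chi r x := by
  have hr' : (0:ℝ) < r := by exact_mod_cast hr
  have h1 : |(x.1 : ℝ)| ≤ s := by
    apply abs_le_of_sq_le_sq _ hs
    unfold nsq at hx
    linarith only [hx, sq_nonneg (x.2 : ℝ)]
  have h2 : |(x.2 : ℝ)| ≤ s := by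
    apply abs_le_of_sq_le_sq _ hs
    unfold nsq at hx
    linarith only [hx, sq_nonneg (x.1 : ℝ)]
  have h3 : |(x.1 : ℝ)| / r ≤ s / r := by gcongr
  have h4 : |(x.2 : ℝ)| / r ≤ s / r := by gcongr
  have h5 : s / r ≤ 1 := by rw [div_le_one hr']; exact hsr
  have h6 : 0 ≤ |(x.1 : ℝ)| / r := by positivity
  have h7 : 0 ≤ |(x.2 : ℝ)| / r := by positivity
  unfold chi
  rw [max_eq_right (by linarith), max_eq_right (by linarith)]
  nlinarith only [h3, h4, h6, h5]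

theorem uu_pos (V : Pt → ℝ) (k : ℕ) (x : Pt) : 0 < uu V k x := by
  induction k generalizing x with
  | zero => exact zero_lt_one
  | succ k ih =>
    simp only [uu]
    unfold PD
    have : ∀ i ∈ (Finset.univ : Finset (Fin 4)), 0 < ∑ j : Fin 4,
        Real.exp (V (x + stp i - stp j)) * uu V k (x + stp i - stp j) := fun i _ =>
      Finset.sum_pos (fun j _ => mul_pos (Real.exp_pos _) (ih _)) Finset.univ_nonempty
    have := Finset.sum_pos this Finset.univ_nonempty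
    positivity

theorem uu_mono {V V' : Pt → ℝ} (h : ∀ x, V x ≤ V' x) (k : ℕ) (x : Pt) :
    uu V k x ≤ uu V' k x := by
  induction k generalizing x with
  | zero => exact le_rfl
  | succ k ih =>
    simp only [uu]
    refine PD_mono (fun y => ?_) x
    exact mul_le_mul (Real.exp_le_exp.mpr (h y)) (ih y) (uu_pos V k y).le (Real.exp_pos _).le

/-- the conclusion of the supersolution piece -/
def SuperB (a : ℝ) (h : Pt → ℝ) (t1 : ℝ) : Prop :=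
    ∃ C B0 : ℝ, 0 < B0 ∧ ∀ B : ℝ, 0 < B → B < B0 → ∀ N : ℕ, 1 ≤ N →
      B * ((1 / 2) * Real.log N) ^ (a + 2) ≤ t1 →
      ∀ k ≤ N, ∀ x, uu (fun y => B * h y) k x ≤ C

/-- numerical relations between the parameters, deterministic part of the choice -/
theorem partB_core {ν : Measure (Pt → ℝ)} [IsProbabilityMeasure ν] {H : Pt → ℝ}
    (hν : GaussSlice ν H) (hHpd : PosDefKer H) (H0 : H 0 = 1) (hH : ∀ x, 0 ≤ H x)
    {β : ℝ} (hβ : 0 < β)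
    {A0 R0 : ℝ} (hA0 : 0 < A0) (hR0 : 0 < R0)
    (hco : ∀ ℓ m σ : ℕ, 1 ≤ ℓ → 1 ≤ m → ℓ * m ≤ σ ^ 2 →
      ∀ g : Pt → (ℕ → Pt → ℝ) → ℝ, (∀ Q, Measurable (g Q)) →
      (∀ Q e, 1 / 2 ≤ g Q e ∧ g Q e ≤ 3 / 2) →
      (∀ Q, ∫ e, (g Q e)⁻¹ ∂(muE ν) ≤ 1 + 4 / m) →
      (∀ Q z, EP ℓ (fun l => ∫ e, wt β e l * g Q e ∂(muE ν)) z ≤ 1 + 6 / m) →
      (∀ Q z : Pt, |(z.1 : ℝ) - σ * Q.1| ≤ R0 * σ → |(z.2 : ℝ) - σ * Q.2| ≤ R0 * σ →
        EP ℓ (fun l => ∫ e, wt β e l * g Q e ∂(muE ν)) z ≤ 1 - A0 / m) →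
      (∀ Q z, EP ℓ (fun l => ∫ e, wt β e l * g Q e ^ 2 ∂(muE ν)) z ≤ 1 + 10 / m) →
      ∀ k : ℕ, ∫ e, Real.sqrt (EP (k * (m * ℓ)) (fun l => wt β e l) 0) ∂(muE ν) ≤ (1 / 2) ^ k)
    {k q m ρ σ : ℕ} (hm : 1 ≤ m) (hσ1 : (k + 1) * m ≤ σ ^ 2) (hσ2 : (σ : ℝ) ^ 2 ≤ 4 * ((k + 1) * m))
    (hρσ : 3 * ρ + 1 ≤ σ) (hS : Supp H ρ)
    {c0 U : ℝ} (hc0 : 0 < c0) (hc01 : c0 ≤ 1) (hU0 : 0 ≤ U)
    (hU : ∀ x y : Pt, EP k (fun l => EP k (fun l' =>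
      Real.exp (3 * (c0 * β) * β * hs H (x :: l) (y :: l'))) y) x ≤ U)
    (htail : ∀ x : Pt, EP k (fun l => 1 - stay ρ x l) x ≤ 1 / m)
    (hmass : (A0 + 3) ^ 2 * (4 * (2 * R0 + 5) ^ 2) * (k + 1) ≤
      (β ^ 2) ^ (q + 1) * MT H k (q + 1) ρ ρ)
    (hnear : (6 * (ρ : ℝ) + 1) ^ 4 * ((c0 ^ (2 * (q + 1)))⁻¹ * U) ≤ (k + 1) ^ 2 * m) (n : ℕ) :
    ∫ e, Real.sqrt (EP (n * (m * (k + 1))) (fun l => wt β e l) 0) ∂(muE ν) ≤ (1 / 2) ^ n := by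
  have hM : SMom ν H β := ⟨slice_int0 hν hHpd H0 β, slice_int1 hν hHpd H0 β,
    slice_int2 hν hHpd H0 β⟩
  have hM0 : SMom ν H 0 := ⟨slice_int0 hν hHpd H0 0, slice_int1 hν hHpd H0 0,
    slice_int2 hν hHpd H0 0⟩
  have hmR : (0:ℝ) < m := by exact_mod_cast hm
  have hkR : (0:ℝ) < (k:ℝ) + 1 := by positivity
  have hσpos : 1 ≤ σ := by omega
  have hσR : (1:ℝ) ≤ σ := by exact_mod_cast hσpos
  -- the box
  set R : ℤ := ⌈R0 * σ⌉ + σ with hR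
  have hceil0 : 0 ≤ ⌈R0 * (σ : ℝ)⌉ := Int.ceil_nonneg (by positivity)
  have hRpos : 0 ≤ R := by rw [hR]; positivity
  set A : Pt → Finset Pt := fun Q => bx R (σ * Q.1, σ * Q.2) with hA
  set a : ℝ := (2 * (R : ℝ) + 1) ^ 2 with ha
  have hcard : ∀ Q, ((A Q).card : ℝ) = a := fun Q => card_bx hRpos _
  have hRle : (R : ℝ) ≤ R0 * σ + 1 + σ := by
    rw [hR]; push_cast
    have := Int.ceil_lt_add_one (R0 * (σ : ℝ))
    linarith
  have hRge : (σ : ℝ) ≤ R := by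
    rw [hR]; push_cast
    have : (0:ℝ) ≤ (⌈R0 * (σ : ℝ)⌉ : ℤ) := by exact_mod_cast hceil0
    linarith
  have ha_le : a ≤ (4 * (2 * R0 + 5) ^ 2) * ((k + 1) * m) := by
    have h1 : 2 * (R : ℝ) + 1 ≤ (2 * R0 + 5) * σ := by linarith only [hσR, hRle]
    have h2 : 0 ≤ 2 * (R : ℝ) + 1 := by linarith
    calc a ≤ ((2 * R0 + 5) * σ) ^ 2 := by rw [ha]; gcongr
      _ = (2 * R0 + 5) ^ 2 * (σ : ℝ) ^ 2 := by ring
      _ ≤ (2 * R0 + 5) ^ 2 * (4 * ((k + 1) * m)) := by gcongr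
      _ = _ := by ring
  have hσ1R : ((k : ℝ) + 1) * m ≤ (σ : ℝ) ^ 2 := by exact_mod_cast hσ1
  have ha_ge : ((k : ℝ) + 1) * m ≤ a := by
    calc ((k : ℝ) + 1) * m ≤ (σ : ℝ) ^ 2 := hσ1R
      _ ≤ a := by rw [ha]; gcongr; linarith
  have ha0 : 0 < a := lt_of_lt_of_le (by positivity) ha_ge
  -- the total mass
  set M := MT H k (q + 1) ρ ρ with hMdef
  have hb2 : 0 < (β ^ 2) ^ (q + 1) := by positivity
  have hM1 : (k : ℝ) + 1 ≤ (β ^ 2) ^ (q + 1) * M := by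
    refine le_trans ?_ hmass
    have : 1 ≤ (A0 + 3) ^ 2 * (4 * (2 * R0 + 5) ^ 2) := by nlinarith only [hA0, hR0, mul_pos hA0 hR0]
    nlinarith only [this]
  have hMpos : 0 < M := by
    by_contra hcon
    rw [not_lt] at hcon
    have := mul_nonpos_of_nonneg_of_nonpos hb2.le hcon
    linarith
  set D : ℝ := m * (a * M) with hD
  have hDpos : 0 < D := by positivity
  set g : ℝ := 1 / Real.sqrt D with hg
  have hgpos : 0 < g := by positivity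
  have hg2 : g ^ 2 = 1 / D := by
    rw [hg, div_pow, one_pow, Real.sq_sqrt hDpos.le]
  have hsm : ∀ Q, g ^ 2 * ((A Q).card * MT H k (q + 1) ρ ρ) ≤ 1 / m := by
    intro Q
    rw [hcard, ← hMdef, hg2, hD]
    apply le_of_eq
    field_simp
  have hnear' : g ^ 2 * ((2 * (2 * ((ρ : ℤ) : ℝ) + ((ρ : ℤ) : ℝ)) + 1) ^ 4 *
      (((c0 * β) ^ (2 * (q + 1)))⁻¹ * U)) ≤ 1 / m := by
    rw [hg2, div_mul_eq_mul_div, one_mul, div_le_div_iff₀ hDpos hmR, one_mul]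
    have e1 : ((c0 * β) ^ (2 * (q + 1)))⁻¹ = (c0 ^ (2 * (q + 1)))⁻¹ * ((β ^ 2) ^ (q + 1))⁻¹ := by
      rw [mul_pow, mul_inv, pow_mul β]
    have e2 : (2 * (2 * ((ρ : ℤ) : ℝ) + ((ρ : ℤ) : ℝ)) + 1) = 6 * (ρ : ℝ) + 1 := by
      push_cast; ring
    rw [e1, e2]
    have h1 : (6 * (ρ : ℝ) + 1) ^ 4 * ((c0 ^ (2 * (q + 1)))⁻¹ * U) * ((β ^ 2) ^ (q + 1))⁻¹ ≤
        a * M := by
      rw [← div_eq_mul_inv, div_le_iff₀ hb2]
      calc _ ≤ ((k:ℝ) + 1) ^ 2 * m := hnear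
        _ = (((k:ℝ) + 1) * m) * (k + 1) := by ring
        _ ≤ a * ((β ^ 2) ^ (q + 1) * M) := mul_le_mul ha_ge hM1 hkR.le ha0.le
        _ = _ := by ring
    calc _ = ((6 * (ρ : ℝ) + 1) ^ 4 * ((c0 ^ (2 * (q + 1)))⁻¹ * U) *
          ((β ^ 2) ^ (q + 1))⁻¹) * m := by ring
      _ ≤ (a * M) * m := mul_le_mul_of_nonneg_right h1 hmR.le
      _ = D := by rw [hD]; ring
  have hbig : (A0 + 3) / m ≤ g * (β ^ (q + 1) * M) := by
    have h1 : 0 ≤ g * (β ^ (q + 1) * M) := by positivity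
    rw [div_le_iff₀ hmR]
    apply le_of_sq_le_sq _ (by positivity)
    have e1 : (g * (β ^ (q + 1) * M) * m) ^ 2 = m * ((β ^ 2) ^ (q + 1) * M) / a := by
      have : (β ^ (q + 1)) ^ 2 = (β ^ 2) ^ (q + 1) := by rw [← pow_mul, ← pow_mul, mul_comm]
      calc (g * (β ^ (q + 1) * M) * m) ^ 2 = g ^ 2 * (β ^ (q + 1)) ^ 2 * M ^ 2 * m ^ 2 := by ring
        _ = _ := by rw [hg2, this, hD]; field_simp
    rw [e1, le_div_iff₀ ha0]
    calc (A0 + 3) ^ 2 * a ≤ (A0 + 3) ^ 2 * ((4 * (2 * R0 + 5) ^ 2) * ((k + 1) * m)) := by gcongr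
      _ = m * ((A0 + 3) ^ 2 * (4 * (2 * R0 + 5) ^ 2) * (k + 1)) := by ring
      _ ≤ _ := mul_le_mul_of_nonneg_left hmass hmR.le
  have htβ : c0 * β ≤ β := by nlinarith only [hβ, hc01]
  have hρ0 : (0:ℤ) ≤ (ρ : ℤ) := Int.natCast_nonneg ρ
  have hblock := fun Q z => block_bounds (k := k) (q := q + 1) (ρ := (ρ : ℤ)) (r := (ρ : ℤ)) hM hH hS
    hρ0 hρ0 (by omega) (mul_pos hc0 hβ) htβ hU0 hU (A Q) hgpos (hsm Q) hnear' htail z
  refine hco (k + 1) m σ (by omega) hm hσ1 (fun Q => gb k (q + 1) (ρ : ℤ) (A Q) g) ?_ ?_ ?_ ?_ ?_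
    ?_ n
  · exact fun Q => gb_measurable _ _
  · exact fun Q e => gt_bounds hgpos _
  · exact fun Q => gb_inv hM0 hH hS hρ0 (by omega) _ hgpos (hsm Q)
  · exact fun Q z => (hblock Q z).1
  · intro Q z hz1 hz2
    refine (hblock Q z).2.1 A0 (fun i => ?_) hbig
    intro y hy
    rw [mem_bx] at hy
    rw [hA, mem_bx]
    obtain ⟨b1, b2⟩ := stp_bd i
    unfold near at hy ⊢
    obtain ⟨y1, y2⟩ := hy
    have hz1' : |z.1 - σ * Q.1| ≤ ⌈R0 * (σ : ℝ)⌉ := by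
      have h1 : ((|z.1 - σ * Q.1| : ℤ) : ℝ) ≤ R0 * σ := by
        rw [Int.cast_abs]; push_cast; exact hz1
      have h2 : ((|z.1 - σ * Q.1| : ℤ) : ℝ) ≤ ((⌈R0 * (σ : ℝ)⌉ : ℤ) : ℝ) := h1.trans (Int.le_ceil _)
      exact_mod_cast h2
    have hz2' : |z.2 - σ * Q.2| ≤ ⌈R0 * (σ : ℝ)⌉ := by
      have h1 : ((|z.2 - σ * Q.2| : ℤ) : ℝ) ≤ R0 * σ := by
        rw [Int.cast_abs]; push_cast; exact hz2
      have h2 : ((|z.2 - σ * Q.2| : ℤ) : ℝ) ≤ ((⌈R0 * (σ : ℝ)⌉ : ℤ) : ℝ) := h1.trans (Int.le_ceil _)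
      exact_mod_cast h2
    have hρσ' : 3 * (ρ : ℤ) + 1 ≤ σ := by exact_mod_cast hρσ
    simp only [Prod.fst_add, Prod.snd_add] at y1 y2
    rw [abs_le] at y1 y2 b1 b2 hz1' hz2'
    constructor
    · rw [abs_le, hR]
      constructor <;> simp only [] <;> linarith only [hρσ, b1, y1, hz1', y1.1, y1.2, b1.1, b1.2, hz1'.1, hz1'.2]
    · rw [abs_le, hR]
      constructor <;> simp only [] <;> linarith only [hρσ, b2, y2, hz2', y2.1, y2.2, b2.1, b2.2, hz2'.1, hz2'.2]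
  · exact fun Q z => (hblock Q z).2.2

end Pool.Agent.Helper98.LogPoly.Mn
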