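import Pool.Agent.Helper98.LogPoly.PartB

/-! Choice of the parameters: the fractional moment decays above the critical scale. -/

set_option autoImplicit false

namespace Pool.Agent.Helper98.LogPoly.Mn

open MeasureTheory ProbabilityTheory Filter Topology

/-- all requirements on the scale `ℓ` (with `x = log ℓ`), once the constants are fixed -/
theorem params_all {K1 c0 U c1 κ δ Z : ℝ} (hK1 : 0 < K1) (hc0 : 0 < c0) (hc01 : c0 ≤ 1)
    (hU : 0 ≤ U) (hc1 : 0 < c1) (hκ : 1 < κ) (hδ : 0 < δ) :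
    ∃ E x0 : ℝ, 0 ≤ E ∧ 2 ≤ x0 ∧ ∀ ℓ : ℕ, x0 ≤ Real.log ℓ →
      ∀ q : ℕ, (q : ℝ) ≤ K1 * Real.log (Real.log ℓ) + 1 →
      Real.exp (-(Real.log ℓ ^ 3 / 2)) * (1 + 1 * (ℓ:ℝ)) ^ q ≤ c1 / 2 ∧
      (4 * (ℓ:ℝ) + 1) ^ 2 * (2 * (4 * Real.exp (1 / 2 - Real.log ℓ ^ 3)) *
        (((ℓ:ℝ) + 1) * (1 + 1)) ^ (q + 1)) ≤ 1 ∧
      4 * Real.exp (1 / 2 - Real.log ℓ ^ 3) ≤ 1 / ((⌈Real.log ℓ ^ E⌉₊ : ℕ) : ℝ) ∧
      3 * ((⌈Real.sqrt ℓ * Real.log ℓ ^ 3⌉₊ : ℕ) : ℝ) + 1 ≤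
        Real.sqrt ((ℓ:ℝ) * ((⌈Real.log ℓ ^ E⌉₊ : ℕ) : ℝ)) ∧
      (6 * ((⌈Real.sqrt ℓ * Real.log ℓ ^ 3⌉₊ : ℕ) : ℝ) + 1) ^ 4 *
        ((c0 ^ (2 * (q + 1)))⁻¹ * U) ≤ (ℓ:ℝ) ^ 2 * ((⌈Real.log ℓ ^ E⌉₊ : ℕ) : ℝ) ∧
      Real.log ℓ + Real.log ((⌈Real.log ℓ ^ E⌉₊ : ℕ) : ℝ) ≤ κ * (Real.log ℓ - Real.log 2) ∧
      2 / Real.log ℓ ^ 3 ≤ δ ∧ Z ≤ Real.log ℓ := by
  set E : ℝ := 14 + 2 * K1 * Real.log (1 / c0) with hE
  have hLc0 : 0 ≤ Real.log (1 / c0) := Real.log_nonneg (by rw [le_div_iff₀ hc0]; linarith)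
  have hE14 : 14 ≤ E := by rw [hE]; have : 0 ≤ 2 * K1 * Real.log (1 / c0) := by positivity
                           linarith
  have hE0 : 0 ≤ E := by linarith
  have hall := (par1 (Hm := 1) hK1 zero_le_one hc1).and
    ((par2 (Hm := 1) hK1 zero_le_one).and ((par3 hE0).and ((par4 hE14).and
    ((par5 hK1 hc0 hc01 hU hE.ge).and ((par8 hκ hE0).and
    ((eventually_ge_atTop (2 / δ)).and (eventually_ge_atTop Z)))))))
  obtain ⟨x1, hx1⟩ := eventually_atTop.mp hall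
  refine ⟨E, max x1 2, hE0, le_max_right _ _, fun ℓ hℓ q hq => ?_⟩
  obtain ⟨p1, p2, p3, p4, p5, p8, p9, p10⟩ := hx1 (Real.log ℓ) ((le_max_left _ _).trans hℓ)
  have h2 : 2 ≤ Real.log ℓ := (le_max_right _ _).trans hℓ
  have hℓ0 : (0:ℝ) < ℓ := by
    by_contra hcon
    rw [not_lt] at hcon
    have : (ℓ:ℝ) = 0 := le_antisymm hcon (Nat.cast_nonneg _)
    rw [this, Real.log_zero] at h2
    linarith
  rw [Real.exp_log hℓ0] at p4
  have q1 := p1 q hq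
  have q2 := p2 q hq
  have q5 := p5 q hq
  rw [Real.exp_log hℓ0] at q1 q2 q5
  refine ⟨q1, q2, p3, p4, q5, p8, ?_, p10⟩
  rw [div_le_iff₀ (by positivity)]
  rw [div_le_iff₀ hδ] at p9
  have h4 : Real.log ℓ ≤ Real.log ℓ ^ 3 := by
    have : (1:ℝ) ≤ Real.log ℓ ^ 2 := one_le_pow₀ (by linarith only [h2])
    nlinarith only [this, hδ, p9]
  nlinarith only [p9, hδ, h4]

theorem partB {a : ℝ} (ha : -1 < a) {h : Pt → ℝ} (hnn : ∀ x, 0 ≤ h x) (hh : HAsym a h)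
    (h0 : h 0 = 1) (hpd : PosDefKer h) (hsuper : SuperB a h (tst (a + 2) / 2))
    {t2 t3 : ℝ} (ht2 : tst (a + 2) < t2) (ht3 : t2 < t3) :
    ∀ᶠ β : ℝ in 𝓝[>] 0, ∃ N : ℕ, 1 ≤ N ∧ Real.log N ≤ 2 * (t3 / β ^ 2) ^ (1 / (a + 2)) ∧
      ∃ (ν : Measure (Pt → ℝ)) (_ : IsProbabilityMeasure ν) (H : Pt → ℝ), GaussSlice ν H ∧
        PosDefKer H ∧ H 0 = 1 ∧ (∀ x, H x ≤ h x) ∧
        ∀ n : ℕ, ∫ e, Real.sqrt (EP (n * N) (fun l => wt β e l) 0) ∂(muE ν) ≤ (1 / 2) ^ n := by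
  set p : ℝ := a + 2 with hp
  have hp1 : 1 < p := by rw [hp]; linarith
  have hp0 : 0 < p := by linarith
  have hT : 0 < tst p := (isLeast_tst hp1).1.1
  have ht20 : 0 < t2 := hT.trans ht2
  have ht30 : 0 < t3 := ht20.trans ht3
  obtain ⟨A0, R0, hA0, hR0, hcoarse⟩ := coarse
  obtain ⟨ρ0, c1, δ, ℓ0, hρ0, hc1, hδ, hsub⟩ := sub_solution ha hnn hh ht2
  obtain ⟨C, B0, hB0, hsup⟩ := hsuper
  have hlρ0 : 0 < Real.log ρ0 := Real.log_pos hρ0
  have hρ00 : 0 < ρ0 := by linarith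
  set K1 : ℝ := (p + 1) / Real.log ρ0 with hK1
  have hK10 : 0 < K1 := by positivity
  set c0 : ℝ := min 1 (tst p / 2 / (6 * t2)) with hc0
  have hc00 : 0 < c0 := lt_min one_pos (by positivity)
  have hc01 : c0 ≤ 1 := min_le_left _ _
  have hc0t : c0 * (6 * t2) ≤ tst p / 2 := by
    have : c0 ≤ tst p / 2 / (6 * t2) := min_le_right _ _
    rwa [le_div_iff₀ (by positivity)] at this
  set U : ℝ := Real.exp 3 * max C 0 with hU
  have hU0 : 0 ≤ U := by positivity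
  set κ : ℝ := (t3 / t2) ^ (1 / p) with hκ
  have hκ1 : 1 < κ := Real.one_lt_rpow (by rw [one_lt_div ht20]; exact ht3) (by positivity)
  set Cb : ℝ := (A0 + 3) ^ 2 * (4 * (2 * R0 + 5) ^ 2) with hCb
  have hCb0 : 0 ≤ Cb := by positivity
  obtain ⟨E, x0, hE0, hx02, hpar⟩ := params_all (Z := 8 * (Cb + 1) / (t2 * c1)) hK10 hc00 hc01 hU0
    hc1 hκ1 hδ
  -- the scale y(β) tends to infinity
  have hy : Tendsto (fun β : ℝ => 2 * (t2 / β ^ 2) ^ (1 / p)) (𝓝[>] 0) atTop := by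
    have h1 : Tendsto (fun β : ℝ => β ^ 2) (𝓝[>] 0) (𝓝[>] 0) := by
      rw [tendsto_nhdsWithin_iff]
      constructor
      · have : Tendsto (fun β : ℝ => β ^ 2) (𝓝 0) (𝓝 (0 ^ 2)) := (continuous_pow 2).tendsto 0
        rw [zero_pow two_ne_zero] at this
        exact this.mono_left nhdsWithin_le_nhds
      · filter_upwards [self_mem_nhdsWithin] with β hβ
        exact pow_pos (Set.mem_Ioi.mp hβ) 2
    have h2 : Tendsto (fun β : ℝ => t2 / β ^ 2) (𝓝[>] 0) atTop := by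
      simp only [div_eq_mul_inv]
      exact (tendsto_inv_nhdsGT_zero.comp h1).const_mul_atTop ht20
    exact ((tendsto_rpow_atTop (by positivity)).comp h2).const_mul_atTop (by norm_num)
  have hl2 : 0 < Real.log 2 := Real.log_pos (by norm_num)
  have h21 : 1 < (2:ℝ) ^ (1 / p) := Real.one_lt_rpow (by norm_num) (by positivity)
  have hβev : ∀ᶠ β : ℝ in 𝓝[>] 0, 0 < β ∧ β < 1 ∧ β ^ 2 < B0 / 3 := by
    have h1 : ∀ᶠ β : ℝ in 𝓝 0, β < 1 := eventually_lt_nhds one_pos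
    have h2 : ∀ᶠ β : ℝ in 𝓝 0, β ^ 2 < B0 / 3 := by
      have : Tendsto (fun β : ℝ => β ^ 2) (𝓝 0) (𝓝 (0 ^ 2)) := (continuous_pow 2).tendsto 0
      exact this.eventually_lt_const (by rw [zero_pow two_ne_zero]; positivity)
    filter_upwards [self_mem_nhdsWithin, nhdsWithin_le_nhds h1, nhdsWithin_le_nhds h2]
      with β a b c using ⟨a, b, c⟩
  filter_upwards [hβev, hy.eventually_ge_atTop (max x0 (Real.log (ℓ0 ⊔ 1))),
    hy.eventually_ge_atTop (Real.log 2 / ((2:ℝ) ^ (1 / p) - 1))] with β hβ hyx hy2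
  obtain ⟨hβ0, hβ1, hβB⟩ := hβ
  set B : ℝ := β ^ 2 with hB
  have hBpos : 0 < B := by positivity
  have hB1 : B ≤ 1 := by rw [hB]; exact pow_le_one₀ hβ0.le hβ1.le
  set y : ℝ := 2 * (t2 / B) ^ (1 / p) with hydef
  set ℓ : ℕ := ⌈Real.exp y⌉₊ with hℓ
  have hy0 : x0 ≤ y := (le_max_left _ _).trans hyx
  have hy1 : Real.log (ℓ0 ⊔ 1) ≤ y := (le_max_right _ _).trans hyx
  have hypos : 0 < y := by linarith
  have hexpy : Real.exp y ≤ ℓ := Nat.le_ceil _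
  have hexpy1 : 1 ≤ Real.exp y := Real.one_le_exp hypos.le
  have hexpy2 : (ℓ : ℝ) ≤ 2 * Real.exp y := by
    have := Nat.ceil_lt_add_one (Real.exp_pos y).le
    rw [← hℓ] at this
    linarith only [hexpy1, this]
  have hℓpos : (0:ℝ) < ℓ := by linarith [Real.exp_pos y]
  set x : ℝ := Real.log ℓ with hx
  have hxy : y ≤ x := by
    rw [hx, Real.le_log_iff_exp_le hℓpos]; exact hexpy
  have hxy2 : x ≤ y + Real.log 2 := by
    rw [hx]
    calc Real.log ℓ ≤ Real.log (2 * Real.exp y) := Real.log_le_log hℓpos hexpy2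
      _ = y + Real.log 2 := by
          rw [Real.log_mul (by norm_num) (Real.exp_pos y).ne', Real.log_exp]; ring
  have hx2 : 2 ≤ x := by linarith only [hx02, hy0, hxy]
  have hxpos : 0 < x := by linarith only [hx02, hβ0, hβ1, hy0, hxy]
  -- relation of B and x
  have hyp : ((1 / 2) * y) ^ p = t2 / B := by
    rw [hydef]
    rw [show (1:ℝ) / 2 * (2 * (t2 / B) ^ (1 / p)) = (t2 / B) ^ (1 / p) by ring]
    rw [← Real.rpow_mul (by positivity), one_div_mul_cancel hp0.ne', Real.rpow_one]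
  have hBx : t2 ≤ B * ((1 / 2) * x) ^ p := by
    have h1 : ((1 / 2) * y) ^ p ≤ ((1 / 2) * x) ^ p :=
      Real.rpow_le_rpow (by positivity) (by linarith only [hxy]) hp0.le
    rw [hyp] at h1
    calc t2 = B * (t2 / B) := by field_simp
      _ ≤ _ := mul_le_mul_of_nonneg_left h1 hBpos.le
  have hBx2 : B * ((1 / 2) * x) ^ p ≤ 2 * t2 := by
    have h1 : x ≤ (2:ℝ) ^ (1 / p) * y := by
      rw [div_le_iff₀ (by linarith only [h21])] at hy2
      linarith only [hy2, hxy2]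
    have h2 : ((1 / 2) * x) ^ p ≤ 2 * (t2 / B) := by
      calc ((1 / 2) * x) ^ p ≤ ((2:ℝ) ^ (1 / p) * ((1 / 2) * y)) ^ p :=
            Real.rpow_le_rpow (by positivity) (by linarith only [h1]) hp0.le
        _ = ((2:ℝ) ^ (1 / p)) ^ p * ((1 / 2) * y) ^ p :=
            Real.mul_rpow (by positivity) (by positivity)
        _ = 2 * (t2 / B) := by
            rw [hyp, ← Real.rpow_mul (by norm_num), one_div_mul_cancel hp0.ne', Real.rpow_one]
    calc _ ≤ B * (2 * (t2 / B)) := mul_le_mul_of_nonneg_left h2 hBpos.le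
      _ = 2 * t2 := by field_simp
  -- the parameters
  set q : ℕ := ⌈K1 * Real.log x⌉₊ with hq
  have hlx0 : 0 < Real.log x := Real.log_pos (by linarith only [hx02, hβ0, hβ1, hy0, hxy])
  have hq1 : K1 * Real.log x ≤ q := Nat.le_ceil _
  have hq2 : (q : ℝ) ≤ K1 * Real.log x + 1 := (Nat.ceil_lt_add_one (by positivity)).le
  obtain ⟨p1, p2, p3, p4, p5, p8, p9, p10⟩ := hpar ℓ (by linarith only [hy0, hxy]) q hq2
  rw [← hx] at p1 p2 p3 p4 p5 p8 p9 p10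
  set m : ℕ := ⌈x ^ E⌉₊ with hm
  have hm1 : 1 ≤ m := by
    have : 0 < x ^ E := Real.rpow_pos_of_pos hxpos E
    exact Nat.ceil_pos.mpr this
  have hmR : (1:ℝ) ≤ m := by exact_mod_cast hm1
  set ρ : ℕ := ⌈Real.sqrt ℓ * x ^ 3⌉₊ with hρ
  set σ : ℕ := ⌈Real.sqrt ((ℓ:ℝ) * m)⌉₊ with hσ
  have hℓ2 : 2 ≤ ℓ := by
    have h1 : (2:ℝ) ≤ ℓ := by
      have : y + 1 ≤ Real.exp y := Real.add_one_le_exp y
      linarith only [hx02, hβ0, hβ1, hy0, hexpy, this]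
    exact_mod_cast h1
  obtain ⟨k, hk⟩ : ∃ k, ℓ = k + 1 := ⟨ℓ - 1, by omega⟩
  have hkR : (ℓ : ℝ) = (k:ℝ) + 1 := by rw [hk]; push_cast; ring
  have hlm : (0:ℝ) ≤ (ℓ:ℝ) * m := by positivity
  have hσle : Real.sqrt ((ℓ:ℝ) * m) ≤ σ := Nat.le_ceil _
  have hσ1 : (k + 1) * m ≤ σ ^ 2 := by
    have h1 : (ℓ:ℝ) * m ≤ (σ:ℝ) ^ 2 := by
      calc (ℓ:ℝ) * m = Real.sqrt ((ℓ:ℝ) * m) ^ 2 := (Real.sq_sqrt hlm).symm
        _ ≤ (σ:ℝ) ^ 2 := by gcongr
    rw [← hk]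
    exact_mod_cast h1
  have hσ2 : (σ:ℝ) ^ 2 ≤ 4 * ((k + 1) * m) := by
    have h1 : (σ:ℝ) ≤ Real.sqrt ((ℓ:ℝ) * m) + 1 := (Nat.ceil_lt_add_one (Real.sqrt_nonneg _)).le
    have h2 : 1 ≤ Real.sqrt ((ℓ:ℝ) * m) := by
      rw [Real.one_le_sqrt]
      have h3 : (1:ℝ) ≤ ℓ := by exact_mod_cast (by omega : 1 ≤ ℓ)
      calc (1:ℝ) = 1 * 1 := by norm_num
        _ ≤ (ℓ:ℝ) * m := mul_le_mul h3 hmR zero_le_one hℓpos.le
    calc (σ:ℝ) ^ 2 ≤ (2 * Real.sqrt ((ℓ:ℝ) * m)) ^ 2 := by gcongr; linarith only [p4, h1]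
      _ = 4 * ((ℓ:ℝ) * m) := by rw [mul_pow, Real.sq_sqrt hlm]; norm_num
      _ = _ := by rw [hkR]
  have hρσ : 3 * ρ + 1 ≤ σ := by
    have : 3 * (ρ:ℝ) + 1 ≤ σ := p4.trans hσle
    exact_mod_cast this
  have hsℓ : 1 ≤ Real.sqrt ℓ := by
    rw [Real.one_le_sqrt]; exact_mod_cast (by omega : 1 ≤ ℓ)
  have hρle : Real.sqrt ℓ * x ^ 3 ≤ ρ := Nat.le_ceil _
  have hx3 : 1 ≤ x ^ 3 := one_le_pow₀ (by linarith only [hx02, hβ0, hβ1, hy0, hxy])
  have hρ1 : 1 ≤ ρ := by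
    have : (1:ℝ) ≤ ρ := by
      calc (1:ℝ) = 1 * 1 := by norm_num
        _ ≤ Real.sqrt ℓ * x ^ 3 := mul_le_mul hsℓ hx3 zero_le_one (Real.sqrt_nonneg _)
        _ ≤ ρ := hρle
    exact_mod_cast this
  have hρR : (0:ℝ) < ρ := by exact_mod_cast hρ1
  -- the truncated covariance
  set H : Pt → ℝ := fun z => h z * chi ρ z with hH
  obtain ⟨ν, hνp, hν⟩ := exists_slice hpd hρ1
  have hHpd : PosDefKer H := posDefKer_chi hpd hρ1
  have hH0 : H 0 = 1 := by rw [hH]; simp only [chi_zero, h0, mul_one]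
  have hHnn : ∀ z, 0 ≤ H z := fun z => mul_nonneg (hnn z) (chi_nonneg _ _)
  have hHh : ∀ z, H z ≤ h z := fun z => by
    have := mul_le_mul_of_nonneg_left (chi_le_one ρ z) (hnn z)
    rw [hH]; linarith only [this]
  have hH1 : ∀ z, H z ≤ 1 := fun z => (hHh z).trans (ker_le_one hpd h0 z)
  have hS : Supp H ρ := by
    intro z hz
    exact chi_supp hρ1 (right_ne_zero_of_mul hz)
  have hHlow : ∀ z, nsq z ≤ ℓ → (1 - δ) * h z ≤ H z := by
    intro z hz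
    have h1 : nsq z ≤ Real.sqrt ℓ ^ 2 := by rw [Real.sq_sqrt hℓpos.le]; exact hz
    have h2 : Real.sqrt ℓ ≤ ρ := by
      calc Real.sqrt ℓ = Real.sqrt ℓ * 1 := (mul_one _).symm
        _ ≤ Real.sqrt ℓ * x ^ 3 := mul_le_mul_of_nonneg_left hx3 (Real.sqrt_nonneg _)
        _ ≤ ρ := hρle
    have h3 := chi_lower hρ1 (Real.sqrt_nonneg _) h1 h2
    have h4 : 2 * (Real.sqrt ℓ / ρ) ≤ δ := by
      refine le_trans ?_ p9
      rw [mul_div_assoc', div_le_div_iff₀ hρR (by positivity)]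
      linarith only [hρle]
    have h5 : 1 - δ ≤ chi ρ z := by linarith only [h3, h4]
    have := mul_le_mul_of_nonneg_left h5 (hnn z)
    rw [hH]; linarith only [this]
  -- the subsolution
  have hℓ0' : ℓ0 ≤ (ℓ:ℝ) := by
    have h1 : ℓ0 ⊔ 1 ≤ Real.exp y := by
      rw [← Real.log_le_iff_le_exp (lt_of_lt_of_le one_pos le_sup_right)]
      exact hy1
    exact le_sup_left.trans (h1.trans hexpy)
  obtain ⟨φ, hφ0, hφ1, hφ, hφc⟩ := hsub ℓ hℓ0' B hBpos hBx H hHnn hHlow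
  -- tail
  have htail0 : ∀ z : Pt, EP k (fun l => 1 - stay (ρ:ℤ) z l) z ≤ 4 * Real.exp (1 / 2 - x ^ 3) := by
    intro z
    have h1 := tail_bound (θ := 1 / Real.sqrt ℓ) (by positivity) (ρ:ℤ) z k
    refine h1.trans (mul_le_mul_of_nonneg_left (Real.exp_le_exp.mpr ?_) (by norm_num))
    have h2 : (k:ℝ) * ((1 / Real.sqrt ℓ) ^ 2 / 2) ≤ 1 / 2 := by
      rw [div_pow, one_pow, Real.sq_sqrt hℓpos.le]
      rw [show (k:ℝ) * (1 / (ℓ:ℝ) / 2) = ((k:ℝ) / ℓ) / 2 by ring]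
      have : (k:ℝ) / ℓ ≤ 1 := by rw [div_le_one hℓpos, hkR]; linarith only [hβ0, hβ1]
      linarith only [this]
    have h3 : x ^ 3 ≤ 1 / Real.sqrt ℓ * ((ρ:ℤ) : ℝ) := by
      rw [one_div, inv_mul_eq_div, le_div_iff₀ (by linarith only [hβ0, hβ1, hsℓ])]
      push_cast
      linarith only [hρle]
    linarith only [h2, h3]
  have htail : ∀ z : Pt, EP k (fun l => 1 - stay (ρ:ℤ) z l) z ≤ 1 / m :=
    fun z => (htail0 z).trans p3
  -- the exponential moments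
  have hUb : ∀ u v : Pt, EP k (fun l => EP k (fun l' =>
      Real.exp (3 * (c0 * β) * β * hs H (u :: l) (v :: l'))) v) u ≤ U := by
    intro u v
    rw [EP_EP_exp]
    have hc : 3 * (c0 * β) * β = 3 * c0 * B := by rw [hB]; ring
    rw [hc]
    have hcpos : 0 < 3 * c0 * B := by positivity
    have hcB : 3 * c0 * B ≤ 3 * B := by
      have := mul_le_mul_of_nonneg_right hc01 hBpos.le
      linarith only [this]
    have hc3 : 3 * c0 * B ≤ 3 := by linarith only [hB1, hcB]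
    have h1 : Real.exp (3 * c0 * B * H (u - v)) ≤ Real.exp 3 := by
      apply Real.exp_le_exp.mpr
      calc 3 * c0 * B * H (u - v) ≤ 3 * 1 := mul_le_mul hc3 (hH1 _) (hHnn _) (by norm_num)
        _ = 3 := by norm_num
    have h2 : uu (fun z => 3 * c0 * B * H z) k (u - v) ≤ max C 0 := by
      have h3 : uu (fun z => 3 * c0 * B * H z) k (u - v) ≤ uu (fun z => 3 * c0 * B * h z) k (u - v) :=
        uu_mono (fun z => mul_le_mul_of_nonneg_left (hHh z) hcpos.le) k _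
      have h4 := hsup (3 * c0 * B) hcpos (by linarith only [hβB, hcB]) ℓ (by omega) (by
        rw [← hx]
        calc 3 * c0 * B * (1 / 2 * x) ^ p = 3 * c0 * (B * (1 / 2 * x) ^ p) := by ring
          _ ≤ 3 * c0 * (2 * t2) := mul_le_mul_of_nonneg_left hBx2 (by positivity)
          _ = c0 * (6 * t2) := by ring
          _ ≤ _ := hc0t) k (by omega) (u - v)
      exact h3.trans (h4.trans (le_max_left _ _))
    exact mul_le_mul h1 h2 (uu_pos _ _ _).le (Real.exp_pos _).le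
  -- the mass
  have hmass : (A0 + 3) ^ 2 * (4 * (2 * R0 + 5) ^ 2) * ((k:ℝ) + 1) ≤
      (β ^ 2) ^ (q + 1) * MT H k (q + 1) ρ ρ := by
    rw [← hB, ← hCb, ← hkR]
    have hv : B * 1 / ρ0 ≤ 1 := by
      rw [mul_one, div_le_one hρ00]; linarith only [hρ0, hB1]
    have hs1 := sum_aa_lower (H := H) (φ := φ) hHnn hH1 hBpos.le hρ00
      (lam := x ^ 3 / ℓ) (by positivity) hc1.le hφ1 (by rw [hx]; exact hφ) hφc (K := ℓ) (q := q) hℓ2 (by
        have e1 : -(x ^ 3 / (ℓ:ℝ) * (ℓ / 2)) = -(x ^ 3 / 2) := by field_simp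
        rw [e1]
        refine le_trans (mul_le_mul_of_nonneg_left ?_ (Real.exp_pos _).le) p1
        apply pow_le_pow_left₀ (by positivity)
        have := mul_le_mul_of_nonneg_right hv hℓpos.le
        linarith only [this])
    have hs2 := MT_ge (H := H) (r := (ρ:ℤ)) (ρ := (ρ:ℤ)) (k := k) (q := q) hHnn hH1 hH0 hS
      (Int.natCast_nonneg ρ) htail0
    rw [← hk] at hs2
    have e2 : (4 * ((k:ℝ) + 1) + 1) ^ 2 * (2 * (4 * Real.exp (1 / 2 - x ^ 3)) *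
        (((k:ℝ) + 2) * (1 + 1)) ^ (q + 1)) ≤ 1 := by
      have e3 : (k:ℝ) + 2 = ℓ + 1 := by rw [hkR]; ring
      rw [e3, ← hkR]
      exact p2
    have hs3 : ∑ j ∈ Finset.range ℓ, PD (aa H q j) 0 - 1 ≤ MT H k (q + 1) ρ ρ := by linarith only [hs2, e2]
    have hBq : 0 < B ^ (q + 1) := by positivity
    have hBq1 : B ^ (q + 1) ≤ 1 := pow_le_one₀ hBpos.le hB1
    have hs4 : B * ((ℓ:ℝ) / 4 * (ρ0 ^ q * (c1 / 2))) - 1 ≤ B ^ (q + 1) * MT H k (q + 1) ρ ρ := by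
      calc B * ((ℓ:ℝ) / 4 * (ρ0 ^ q * (c1 / 2))) - 1
          ≤ B * (B ^ q * ∑ j ∈ Finset.range ℓ, PD (aa H q j) 0) - B ^ (q + 1) := by
            have := mul_le_mul_of_nonneg_left hs1 hBpos.le
            linarith only [hBq1, this]
        _ = B ^ (q + 1) * (∑ j ∈ Finset.range ℓ, PD (aa H q j) 0 - 1) := by rw [pow_succ]; ring
        _ ≤ _ := mul_le_mul_of_nonneg_left hs3 hBq.le
    refine le_trans ?_ hs4
    -- growth
    have hρq : x ^ (p + 1) ≤ ρ0 ^ q := by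
      have h1 : Real.exp (q * Real.log ρ0) = ρ0 ^ q := by
        rw [Real.exp_nat_mul, Real.exp_log hρ00]
      rw [← h1, Real.rpow_def_of_pos hxpos]
      apply Real.exp_le_exp.mpr
      have h2 : K1 * Real.log ρ0 = p + 1 := by rw [hK1]; field_simp
      calc Real.log x * (p + 1) = (K1 * Real.log x) * Real.log ρ0 := by rw [← h2]; ring
        _ ≤ q * Real.log ρ0 := mul_le_mul_of_nonneg_right hq1 hlρ0.le
    have hgrow : t2 * x ≤ B * ρ0 ^ q := by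
      have h1 : ((1 / 2) * x) ^ p ≤ x ^ p :=
        Real.rpow_le_rpow (by positivity) (by linarith only [hx02, hβ0, hβ1, hy0, hxy]) hp0.le
      have h2 : t2 ≤ B * x ^ p := hBx.trans (mul_le_mul_of_nonneg_left h1 hBpos.le)
      calc t2 * x ≤ (B * x ^ p) * x := mul_le_mul_of_nonneg_right h2 hxpos.le
        _ = B * x ^ (p + 1) := by rw [Real.rpow_add_one hxpos.ne']; ring
        _ ≤ _ := mul_le_mul_of_nonneg_left hρq hBpos.le
    have h8 : 8 * (Cb + 1) ≤ t2 * c1 * x := by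
      rw [div_le_iff₀ (by positivity)] at p10
      linarith only [p10]
    have h9 : 8 * (Cb + 1) ≤ c1 * (B * ρ0 ^ q) := by
      have := mul_le_mul_of_nonneg_left hgrow hc1.le
      linarith only [h8, this]
    have hℓ1 : (1:ℝ) ≤ ℓ := by exact_mod_cast (by omega : 1 ≤ ℓ)
    have h10 := mul_le_mul_of_nonneg_left h9 hℓpos.le
    have e4 : B * ((ℓ:ℝ) / 4 * (ρ0 ^ q * (c1 / 2))) = (ℓ * (c1 * (B * ρ0 ^ q))) / 8 := by ring
    rw [e4]
    linarith only [hexpy, hexpy1, h10]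
  -- conclusion
  refine ⟨m * (k + 1), ?_, ?_, ν, hνp, H, hν, hHpd, hH0, hHh, ?_⟩
  · exact Nat.one_le_iff_ne_zero.mpr (by positivity)
  · have e1 : ((m * (k + 1) : ℕ) : ℝ) = m * ℓ := by rw [hkR]; push_cast; ring
    rw [e1, Real.log_mul (by positivity) hℓpos.ne', add_comm]
    refine p8.trans ?_
    have e2 : (t3 / B) ^ (1 / p) = κ * (t2 / B) ^ (1 / p) := by
      rw [hκ, ← Real.mul_rpow (by positivity) (by positivity)]
      congr 1; field_simp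
    rw [e2]
    calc κ * (x - Real.log 2) ≤ κ * y := mul_le_mul_of_nonneg_left (by linarith only [hxy2]) (by linarith only [hκ1, hβ0, hβ1])
      _ = _ := by rw [hydef]; ring
  · intro n
    refine partB_core hν hHpd hH0 hHnn hβ0 hA0 hR0 (fun ℓ m σ => hcoarse ν β
      (fun x => slice_int0 hν hHpd hH0 β x) ℓ m σ) hm1 hσ1 hσ2 hρσ hS hc00 hc01 hU0 hUb htail hmass
      ?_ n
    rw [← hkR]
    exact p5

end Pool.Agent.Helper98.LogPoly.Mn
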