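import Pool.Agent.Helper98.LogPoly.Pair

/-! The change of measure on one block. -/

set_option autoImplicit false

namespace Pool.Agent.Helper98.LogPoly.Mn

open MeasureTheory ProbabilityTheory

/-- truncation at level `u` -/
noncomputable def cl (u x : ℝ) : ℝ := max (-u) (min u x)

theorem cl_cases {u : ℝ} (hu : 0 < u) (x : ℝ) :
    (x ≤ -u ∧ cl u x = -u) ∨ (-u ≤ x ∧ x ≤ u ∧ cl u x = x) ∨ (u ≤ x ∧ cl u x = u) := by
  unfold cl
  rcases le_total x (-u) with h | h
  · left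
    refine ⟨h, ?_⟩
    rw [min_eq_right (by linarith), max_eq_left h]
  · rcases le_total x u with h' | h'
    · right; left
      refine ⟨h, h', ?_⟩
      rw [min_eq_right h', max_eq_right h]
    · right; right
      refine ⟨h', ?_⟩
      rw [min_eq_left h', max_eq_right (by linarith)]

theorem cl_sub {u : ℝ} (hu : 0 < u) (x : ℝ) : |x - cl u x| ≤ x ^ 2 / (4 * u) := by
  rw [le_div_iff₀ (by positivity)]
  rcases cl_cases hu x with ⟨h, e⟩ | ⟨_, _, e⟩ | ⟨h, e⟩
  · rw [e, abs_of_nonpos (by linarith)]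
    nlinarith [sq_nonneg (x + 2 * u)]
  · rw [e]; simp; positivity
  · rw [e, abs_of_nonneg (by linarith)]
    nlinarith [sq_nonneg (x - 2 * u)]

theorem cl_sq_le {u : ℝ} (hu : 0 < u) (x : ℝ) : cl u x ^ 2 ≤ x ^ 2 := by
  rcases cl_cases hu x with ⟨h, e⟩ | ⟨_, _, e⟩ | ⟨h, e⟩
  · rw [e]; nlinarith
  · rw [e]
  · rw [e]; nlinarith

theorem cl_bd {u : ℝ} (hu : 0 < u) (x : ℝ) : -u ≤ cl u x ∧ cl u x ≤ u := by
  rcases cl_cases hu x with ⟨h, e⟩ | ⟨h1, h2, e⟩ | ⟨h, e⟩
  · rw [e]; constructor <;> linarith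
  · rw [e]; exact ⟨h1, h2⟩
  · rw [e]; constructor <;> linarith

/-- the tilt as a function of the statistic -/
noncomputable def gt (s x : ℝ) : ℝ := 1 - s * cl (1 / (2 * s)) x

section gt

variable {s : ℝ} (hs : 0 < s) (x : ℝ)

include hs

theorem gt_aux : -(1 / 2) ≤ s * cl (1 / (2 * s)) x ∧ s * cl (1 / (2 * s)) x ≤ 1 / 2 := by
  have hu : 0 < 1 / (2 * s) := by positivity
  obtain ⟨h1, h2⟩ := cl_bd hu x
  have e : s * (1 / (2 * s)) = 1 / 2 := by field_simp
  constructor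
  · have := mul_le_mul_of_nonneg_left h1 hs.le
    linarith [this, show s * -(1 / (2 * s)) = -(1 / 2) by rw [mul_neg, e]]
  · have := mul_le_mul_of_nonneg_left h2 hs.le
    linarith

theorem gt_bounds : 1 / 2 ≤ gt s x ∧ gt s x ≤ 3 / 2 := by
  obtain ⟨h1, h2⟩ := gt_aux hs x
  unfold gt
  constructor <;> linarith

theorem gt_diff : |s * x - s * cl (1 / (2 * s)) x| ≤ s ^ 2 * x ^ 2 / 2 := by
  have hu : 0 < 1 / (2 * s) := by positivity
  have h := cl_sub hu x
  rw [← mul_sub, abs_mul, abs_of_pos hs]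
  have e : x ^ 2 / (4 * (1 / (2 * s))) = s * x ^ 2 / 2 := by field_simp; ring
  rw [e] at h
  calc s * |x - cl (1 / (2 * s)) x| ≤ s * (s * x ^ 2 / 2) := mul_le_mul_of_nonneg_left h hs.le
    _ = s ^ 2 * x ^ 2 / 2 := by ring

theorem gt_sq : (s * cl (1 / (2 * s)) x) ^ 2 ≤ s ^ 2 * x ^ 2 := by
  have hu : 0 < 1 / (2 * s) := by positivity
  rw [mul_pow]
  exact mul_le_mul_of_nonneg_left (cl_sq_le hu x) (by positivity)

theorem gt_le : gt s x ≤ 1 - s * x + s ^ 2 * x ^ 2 / 2 := by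
  have h := (abs_le.mp (gt_diff hs x))
  unfold gt
  linarith [h.1, h.2]

theorem gt_inv_le : (gt s x)⁻¹ ≤ 1 + s * x + 5 / 2 * (s ^ 2 * x ^ 2) := by
  have h := (abs_le.mp (gt_diff hs x))
  have h2 := gt_sq hs x
  obtain ⟨h3, h4⟩ := gt_aux hs x
  have hp : 0 < gt s x := by linarith [(gt_bounds hs x).1]
  have key : (gt s x)⁻¹ ≤ 1 + s * cl (1 / (2 * s)) x + 2 * (s * cl (1 / (2 * s)) x) ^ 2 := by
    rw [inv_le_iff_one_le_mul₀ hp]
    unfold gt
    set t := s * cl (1 / (2 * s)) x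
    nlinarith [mul_nonneg (sq_nonneg t) (by linarith : (0:ℝ) ≤ 1 - 2 * t)]
  linarith [h.1, h.2]

theorem gt_sq_le : gt s x ^ 2 ≤ 1 - 2 * (s * x) + 2 * (s ^ 2 * x ^ 2) := by
  have h := (abs_le.mp (gt_diff hs x))
  have h2 := gt_sq hs x
  unfold gt
  nlinarith [h.1, h.2]

end gt

section

variable {ν : Measure (Pt → ℝ)} [IsProbabilityMeasure ν] {H : Pt → ℝ} {β : ℝ} {k q : ℕ} {ρ r : ℤ}

/-- the tilt of a block -/
noncomputable def gb (k q : ℕ) (ρ : ℤ) (A : Finset Pt) (s : ℝ) (e : ℕ → Pt → ℝ) : ℝ :=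
  gt s (XX k q ρ A e)

theorem gb_measurable (A : Finset Pt) (s : ℝ) : Measurable (gb k q ρ A s) := by
  have h := XX_measurable k q ρ A
  unfold gb gt cl
  exact measurable_const.sub ((measurable_const.max (measurable_const.min h)).const_mul s)

theorem integrable_of_bd {Ω : Type*} [MeasurableSpace Ω] {μ : Measure Ω} {f g : Ω → ℝ} {c : ℝ}
    (hf : Integrable f μ) (hg : Measurable g) (hb : ∀ w, |g w| ≤ c) :
    Integrable (fun w => f w * g w) μ := by
  refine Integrable.mono' (g := fun w => c * |f w|) (hf.abs.const_mul c)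
    (hf.aestronglyMeasurable.mul hg.aestronglyMeasurable)
    (Filter.Eventually.of_forall fun w => ?_)
  rw [Real.norm_eq_abs, abs_mul, mul_comm]
  exact mul_le_mul_of_nonneg_right (hb w) (abs_nonneg _)

theorem gb_inv (hM0 : SMom ν H 0) (hH : ∀ x, 0 ≤ H x) (hS : Supp H r) (hρ : 0 ≤ ρ) (hq : 1 ≤ q)
    (A : Finset Pt) {s : ℝ} (hs : 0 < s) {m : ℕ}
    (hsm : s ^ 2 * (A.card * MT H k q ρ r) ≤ 1 / m) :
    ∫ e, (gb k q ρ A s e)⁻¹ ∂(muE ν) ≤ 1 + 4 / m := by
  have h1 : HI (muE ν) (fun e => XX k q ρ A e) 0 := XX_mean hM0 A hq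
  have h2 : HI (muE ν) (fun e => XX k q ρ A e ^ 2) (∑ x ∈ A, ∑ y ∈ A, CC H k q ρ x y) :=
    XX_var hM0 A
  have h3 : HI (muE ν) (fun _ => (1 : ℝ)) 1 := ⟨integrable_const _, by simp⟩
  have hV : ∑ x ∈ A, ∑ y ∈ A, CC H k q ρ x y ≤ A.card * MT H k q ρ r := by
    calc _ ≤ ∑ x ∈ A, MT H k q ρ r :=
          Finset.sum_le_sum fun x _ => sum_CC_le hH hS hρ hq A x
      _ = _ := by rw [Finset.sum_const, nsmul_eq_mul]
  have h4 : HI (muE ν) (fun e => 1 + s * XX k q ρ A e + 5 / 2 * s ^ 2 * XX k q ρ A e ^ 2)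
      (1 + s * 0 + 5 / 2 * s ^ 2 * (∑ x ∈ A, ∑ y ∈ A, CC H k q ρ x y)) :=
    (h3.add (h1.const_mul s)).add (h2.const_mul _)
  have hbd : ∀ e, (gb k q ρ A s e)⁻¹ ≤ 1 + s * XX k q ρ A e + 5 / 2 * s ^ 2 * XX k q ρ A e ^ 2 := by
    intro e
    have := gt_inv_le hs (XX k q ρ A e)
    unfold gb
    linarith
  have hint : Integrable (fun e => (gb k q ρ A s e)⁻¹) (muE ν) := by
    refine Integrable.mono' (g := fun _ => (2:ℝ)) (integrable_const _)
      (gb_measurable A s).inv.aestronglyMeasurable (Filter.Eventually.of_forall fun e => ?_)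
    have hb := (gt_bounds hs (XX k q ρ A e)).1
    have hp : 0 < gb k q ρ A s e := by unfold gb; linarith
    rw [Real.norm_eq_abs, abs_of_pos (inv_pos.mpr hp)]
    rw [inv_le_comm₀ hp (by norm_num)]
    unfold gb; linarith
  calc ∫ e, (gb k q ρ A s e)⁻¹ ∂(muE ν)
      ≤ ∫ e, 1 + s * XX k q ρ A e + 5 / 2 * s ^ 2 * XX k q ρ A e ^ 2 ∂(muE ν) :=
        integral_mono hint h4.1 hbd
    _ = 1 + s * 0 + 5 / 2 * s ^ 2 * (∑ x ∈ A, ∑ y ∈ A, CC H k q ρ x y) := h4.2
    _ ≤ 1 + 5 / 2 * (s ^ 2 * (A.card * MT H k q ρ r)) := by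
        have := mul_le_mul_of_nonneg_left hV (sq_nonneg s)
        linarith
    _ ≤ 1 + 5 / 2 * (1 / m) := by linarith
    _ ≤ 1 + 4 / m := by
        have : (0:ℝ) ≤ 1 / m := by positivity
        have e : (4:ℝ) / m = 4 * (1 / m) := by ring
        rw [e]; linarith

/-- second moment of the statistic under the tilt, along paths that stay -/
theorem XX_sq_bound (hM : SMom ν H β) (hH : ∀ x, 0 ≤ H x) (hS : Supp H r) (hρ : 0 ≤ ρ)
    (hr : 0 ≤ r) (hq : 1 ≤ q) {t U : ℝ} (ht : 0 < t) (htβ : t ≤ β) (hU0 : 0 ≤ U)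
    (hU : ∀ x y : Pt, EP k (fun l => EP k (fun l' =>
      Real.exp (3 * t * β * hs H (x :: l) (y :: l'))) y) x ≤ U)
    (A : Finset Pt) (s : Pt) :
    EP k (fun l => stay ρ s l * ∫ e, wt β e (s :: l) * XX k q ρ A e ^ 2 ∂(muE ν)) s ≤
      2 * ((2 * (2 * ρ + r) + 1) ^ 4 * ((t ^ (2 * q))⁻¹ * U)) +
        2 * (A.card * MT H k q ρ r) := by
  classical
  set A1 := A.filter (fun x => near (2 * ρ + r) s x) with hA1
  set A2 := A.filter (fun x => ¬ near (2 * ρ + r) s x) with hA2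
  have hβ : 0 ≤ β := ht.le.trans htβ
  have hsplit : ∀ e, XX k q ρ A e = XX k q ρ A1 e + XX k q ρ A2 e := by
    intro e
    unfold XX
    rw [hA1, hA2, Finset.sum_filter_add_sum_filter_not]
  have hpt : ∀ l : List Pt, l.length = k →
      stay ρ s l * ∫ e, wt β e (s :: l) * XX k q ρ A e ^ 2 ∂(muE ν) ≤
      2 * ∫ e, wt β e (s :: l) * XX k q ρ A1 e ^ 2 ∂(muE ν) +
        2 * (A.card * MT H k q ρ r) := by
    intro l hl
    have i1 := XX_sq_HI (k := k) (q := q) (ρ := ρ) hM A1 (s :: l) (by simp [hl])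
    have i2 := XX_sq_HI (k := k) (q := q) (ρ := ρ) hM A2 (s :: l) (by simp [hl])
    have i0 := XX_sq_HI (k := k) (q := q) (ρ := ρ) hM A (s :: l) (by simp [hl])
    have h0 : 0 ≤ ∫ e, wt β e (s :: l) * XX k q ρ A1 e ^ 2 ∂(muE ν) :=
      integral_nonneg fun e => mul_nonneg (wt_nonneg _ _ _) (sq_nonneg _)
    have hMT : 0 ≤ (A.card : ℝ) * MT H k q ρ r :=
      mul_nonneg (Nat.cast_nonneg _) (MT_nonneg hH r)
    by_cases hst : stay ρ s l = 0
    · rw [hst, zero_mul]; linarith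
    have hst1 : stay ρ s l = 1 := by
      unfold stay at hst ⊢
      split_ifs at hst ⊢ with h1
      · rfl
      · exact absurd rfl hst
    rw [hst1, one_mul]
    have hle : ∫ e, wt β e (s :: l) * XX k q ρ A e ^ 2 ∂(muE ν) ≤
        2 * ∫ e, wt β e (s :: l) * XX k q ρ A1 e ^ 2 ∂(muE ν) +
        2 * ∫ e, wt β e (s :: l) * XX k q ρ A2 e ^ 2 ∂(muE ν) := by
      rw [← integral_const_mul, ← integral_const_mul,
        ← integral_add (i1.1.const_mul 2) (i2.1.const_mul 2)]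
      refine integral_mono i0.1 ((i1.1.const_mul 2).add (i2.1.const_mul 2)) fun e => ?_
      have hw := wt_nonneg β e (s :: l)
      show wt β e (s :: l) * XX k q ρ A e ^ 2 ≤ 2 * (wt β e (s :: l) * XX k q ρ A1 e ^ 2) +
        2 * (wt β e (s :: l) * XX k q ρ A2 e ^ 2)
      rw [hsplit e]
      nlinarith [mul_nonneg hw (sq_nonneg (XX k q ρ A1 e - XX k q ρ A2 e))]
    have hfar : ∫ e, wt β e (s :: l) * XX k q ρ A2 e ^ 2 ∂(muE ν) ≤
        A.card * MT H k q ρ r := by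
      rw [XX_sq_far hM hS hρ A2 hl (stay_of_ne hst) (fun x hx => (Finset.mem_filter.mp hx).2)]
      calc ∑ x ∈ A2, ∑ y ∈ A2, CC H k q ρ x y ≤ ∑ x ∈ A2, MT H k q ρ r :=
            Finset.sum_le_sum fun x _ => sum_CC_le hH hS hρ hq A2 x
        _ = A2.card * MT H k q ρ r := by rw [Finset.sum_const, nsmul_eq_mul]
        _ ≤ A.card * MT H k q ρ r := by
            refine mul_le_mul_of_nonneg_right ?_ (MT_nonneg hH r)
            exact_mod_cast Finset.card_le_card (Finset.filter_subset _ _)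
    linarith
  have hcard : (A1.card : ℝ) ≤ (2 * (2 * ρ + r) + 1) ^ 2 := by
    have h1 : A1 ⊆ bx (2 * ρ + r) s := by
      intro x hx
      exact mem_bx.mpr (Finset.mem_filter.mp hx).2
    have h2 := card_bx (R := 2 * ρ + r) (by linarith) s
    calc (A1.card : ℝ) ≤ ((bx (2 * ρ + r) s).card : ℝ) := by
          exact_mod_cast Finset.card_le_card h1
      _ = _ := by rw [h2]; push_cast; ring
  calc EP k (fun l => stay ρ s l * ∫ e, wt β e (s :: l) * XX k q ρ A e ^ 2 ∂(muE ν)) s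
      ≤ EP k (fun l => 2 * ∫ e, wt β e (s :: l) * XX k q ρ A1 e ^ 2 ∂(muE ν) +
        2 * (A.card * MT H k q ρ r)) s := EP_mono fun l hl _ => hpt l hl
    _ = 2 * EP k (fun l => ∫ e, wt β e (s :: l) * XX k q ρ A1 e ^ 2 ∂(muE ν)) s +
        2 * (A.card * MT H k q ρ r) := by rw [EP_add, EP_const_mul, EP_const]
    _ ≤ 2 * ((A1.card : ℝ) ^ 2 * ((t ^ (2 * q))⁻¹ * U)) + 2 * (A.card * MT H k q ρ r) := by
        have := XX_sq_near (k := k) (q := q) (ρ := ρ) hM hH ht htβ hU A1 s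
        linarith
    _ ≤ _ := by
        have h1 : (A1.card : ℝ) ^ 2 ≤ (2 * (2 * ρ + r) + 1) ^ 4 := by
          calc (A1.card : ℝ) ^ 2 ≤ ((2 * (2 * ρ + r) + 1) ^ 2) ^ 2 := by gcongr
            _ = _ := by ring
        have h2 : 0 ≤ (t ^ (2 * q))⁻¹ * U := by positivity
        have := mul_le_mul_of_nonneg_right h1 h2
        linarith

/-- first moment of the statistic under the tilt, along paths that stay -/
theorem XX_first (hM : SMom ν H β) (A : Finset Pt) (s : Pt) :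
    EP k (fun l => stay ρ s l * ∫ e, wt β e (s :: l) * XX k q ρ A e ∂(muE ν)) s =
      β ^ q * ∑ x ∈ A, CC H k q ρ s x := by
  have h1 : EP k (fun l => stay ρ s l * ∫ e, wt β e (s :: l) * XX k q ρ A e ∂(muE ν)) s =
      EP k (fun l => ∑ x ∈ A, EP k (fun l' => β ^ q * (stay ρ s l * stay ρ x l' *
        es q (hl H (s :: l) (x :: l')))) x) s := by
    refine EP_congr fun l hl' _ => ?_
    rw [(XX_HI (k := k) (q := q) (ρ := ρ) hM A (s :: l) (by simp [hl'])).2, Finset.mul_sum]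
    refine Finset.sum_congr rfl fun x _ => ?_
    rw [← EP_const_mul]
    exact EP_congr fun l' _ _ => by ring
  rw [h1, EP_sum, Finset.mul_sum]
  refine Finset.sum_congr rfl fun x _ => ?_
  unfold CC
  simp only [EP_const_mul]

/-- the mean of the tilt under the polymer measure, from a given first point -/
theorem block_first (hM : SMom ν H β) (hH : ∀ x, 0 ≤ H x) (hS : Supp H r) (hρ : 0 ≤ ρ)
    (hr : 0 ≤ r) (hq : 1 ≤ q) {t U : ℝ} (ht : 0 < t) (htβ : t ≤ β) (hU0 : 0 ≤ U)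
    (hU : ∀ x y : Pt, EP k (fun l => EP k (fun l' =>
      Real.exp (3 * t * β * hs H (x :: l) (y :: l'))) y) x ≤ U)
    (A : Finset Pt) {g : ℝ} (hg : 0 < g) {m : ℕ}
    (hsm : g ^ 2 * (A.card * MT H k q ρ r) ≤ 1 / m)
    (hnear : g ^ 2 * ((2 * (2 * ρ + r) + 1) ^ 4 * ((t ^ (2 * q))⁻¹ * U)) ≤ 1 / m)
    (htail : ∀ x : Pt, EP k (fun l => 1 - stay ρ x l) x ≤ 1 / m) (s : Pt) :
    EP k (fun l => ∫ e, wt β e (s :: l) * gb k q ρ A g e ∂(muE ν)) s ≤
      1 + 3 / m - g * (β ^ q * ∑ x ∈ A, CC H k q ρ s x) ∧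
    EP k (fun l => ∫ e, wt β e (s :: l) * gb k q ρ A g e ^ 2 ∂(muE ν)) s ≤ 1 + 10 / m := by
  have hβ : 0 ≤ β := ht.le.trans htβ
  have hX2 := XX_sq_bound (k := k) hM hH hS hρ hr hq ht htβ hU0 hU A s
  have hX1 := XX_first (k := k) (q := q) (ρ := ρ) hM A s
  have hX10 : 0 ≤ β ^ q * ∑ x ∈ A, CC H k q ρ s x :=
    mul_nonneg (pow_nonneg hβ q) (Finset.sum_nonneg fun x _ => CC_nonneg hH s x)
  have hm0 : (0:ℝ) ≤ 1 / m := by positivity
  have hgX2 : g ^ 2 * EP k (fun l => stay ρ s l *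
      ∫ e, wt β e (s :: l) * XX k q ρ A e ^ 2 ∂(muE ν)) s ≤ 4 * (1 / m) := by
    calc _ ≤ g ^ 2 * (2 * ((2 * (2 * ρ + r) + 1) ^ 4 * ((t ^ (2 * q))⁻¹ * U)) +
        2 * (A.card * MT H k q ρ r)) := mul_le_mul_of_nonneg_left hX2 (sq_nonneg g)
      _ ≤ _ := by linarith
  have hT := htail s
  have hT' : EP k (fun l => stay ρ s l) s = 1 - EP k (fun l => 1 - stay ρ s l) s := by
    rw [EP_sub, EP_const]; ring
  have hT0 : 0 ≤ EP k (fun l => 1 - stay ρ s l) s :=
    EP_nonneg fun l _ _ => by linarith [stay_le_one ρ s l]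
  -- the integrals along one path
  have hpath : ∀ l : List Pt, l.length = k →
      (∫ e, wt β e (s :: l) * gb k q ρ A g e ∂(muE ν) ≤
        stay ρ s l - g * (stay ρ s l * ∫ e, wt β e (s :: l) * XX k q ρ A e ∂(muE ν)) +
        g ^ 2 / 2 * (stay ρ s l * ∫ e, wt β e (s :: l) * XX k q ρ A e ^ 2 ∂(muE ν)) +
        3 / 2 * (1 - stay ρ s l)) ∧
      (∫ e, wt β e (s :: l) * gb k q ρ A g e ^ 2 ∂(muE ν) ≤
        stay ρ s l - 2 * g * (stay ρ s l * ∫ e, wt β e (s :: l) * XX k q ρ A e ∂(muE ν)) +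
        2 * g ^ 2 * (stay ρ s l * ∫ e, wt β e (s :: l) * XX k q ρ A e ^ 2 ∂(muE ν)) +
        9 / 4 * (1 - stay ρ s l)) := by
    intro l hl
    have i0 := wt_HI hM (s :: l)
    have i1 := XX_HI (k := k) (q := q) (ρ := ρ) hM A (s :: l) (by simp [hl])
    have i2 := XX_sq_HI (k := k) (q := q) (ρ := ρ) hM A (s :: l) (by simp [hl])
    have hb := fun e => gt_bounds hg (XX k q ρ A e)
    have j1 : Integrable (fun e => wt β e (s :: l) * gb k q ρ A g e) (muE ν) := by
      refine integrable_of_bd (c := 3 / 2) i0.1 (gb_measurable A g) fun e => ?_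
      unfold gb
      rw [abs_of_nonneg (by linarith [(hb e).1])]
      exact (hb e).2
    have j2 : Integrable (fun e => wt β e (s :: l) * gb k q ρ A g e ^ 2) (muE ν) := by
      refine integrable_of_bd (c := 9 / 4) i0.1 ((gb_measurable A g).pow_const 2) fun e => ?_
      unfold gb
      rw [abs_of_nonneg (sq_nonneg _)]
      nlinarith [(hb e).1, (hb e).2]
    rcases (show stay ρ s l = 0 ∨ stay ρ s l = 1 by unfold stay; split_ifs <;> simp) with h | h
    · rw [h]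
      constructor
      · calc ∫ e, wt β e (s :: l) * gb k q ρ A g e ∂(muE ν)
            ≤ ∫ e, 3 / 2 * wt β e (s :: l) ∂(muE ν) := by
              refine integral_mono j1 (i0.1.const_mul _) fun e => ?_
              show wt β e (s :: l) * gb k q ρ A g e ≤ 3 / 2 * wt β e (s :: l)
              have := mul_le_mul_of_nonneg_left (hb e).2 (wt_nonneg β e (s :: l))
              unfold gb; linarith
          _ = 3 / 2 := by rw [integral_const_mul, i0.2, mul_one]
          _ = _ := by ring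
      · calc ∫ e, wt β e (s :: l) * gb k q ρ A g e ^ 2 ∂(muE ν)
            ≤ ∫ e, 9 / 4 * wt β e (s :: l) ∂(muE ν) := by
              refine integral_mono j2 (i0.1.const_mul _) fun e => ?_
              show wt β e (s :: l) * gb k q ρ A g e ^ 2 ≤ 9 / 4 * wt β e (s :: l)
              have h9 : gt g (XX k q ρ A e) ^ 2 ≤ 9 / 4 := by
                nlinarith [(hb e).1, (hb e).2]
              have := mul_le_mul_of_nonneg_left h9 (wt_nonneg β e (s :: l))
              unfold gb; linarith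
          _ = 9 / 4 := by rw [integral_const_mul, i0.2, mul_one]
          _ = _ := by ring
    · rw [h]
      constructor
      · have hi := ((i0.add (i1.const_mul (-g))).add (i2.const_mul (g ^ 2 / 2)))
        calc ∫ e, wt β e (s :: l) * gb k q ρ A g e ∂(muE ν)
            ≤ ∫ e, wt β e (s :: l) + -g * (wt β e (s :: l) * XX k q ρ A e) +
              g ^ 2 / 2 * (wt β e (s :: l) * XX k q ρ A e ^ 2) ∂(muE ν) := by
              refine integral_mono j1 hi.1 fun e => ?_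
              show wt β e (s :: l) * gb k q ρ A g e ≤ _
              have := mul_le_mul_of_nonneg_left (gt_le hg (XX k q ρ A e))
                (wt_nonneg β e (s :: l))
              unfold gb
              linarith
          _ = _ := hi.2
          _ ≤ _ := by rw [i1.2, i2.2]; apply le_of_eq; ring
      · have hi := ((i0.add (i1.const_mul (-(2 * g)))).add (i2.const_mul (2 * g ^ 2)))
        calc ∫ e, wt β e (s :: l) * gb k q ρ A g e ^ 2 ∂(muE ν)
            ≤ ∫ e, wt β e (s :: l) + -(2 * g) * (wt β e (s :: l) * XX k q ρ A e) +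
              2 * g ^ 2 * (wt β e (s :: l) * XX k q ρ A e ^ 2) ∂(muE ν) := by
              refine integral_mono j2 hi.1 fun e => ?_
              show wt β e (s :: l) * gb k q ρ A g e ^ 2 ≤ _
              have := mul_le_mul_of_nonneg_left (gt_sq_le hg (XX k q ρ A e))
                (wt_nonneg β e (s :: l))
              unfold gb
              linarith
          _ = _ := hi.2
          _ ≤ _ := by rw [i1.2, i2.2]; apply le_of_eq; ring
  constructor
  · calc EP k (fun l => ∫ e, wt β e (s :: l) * gb k q ρ A g e ∂(muE ν)) s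
        ≤ EP k (fun l => stay ρ s l -
            g * (stay ρ s l * ∫ e, wt β e (s :: l) * XX k q ρ A e ∂(muE ν)) +
            g ^ 2 / 2 * (stay ρ s l * ∫ e, wt β e (s :: l) * XX k q ρ A e ^ 2 ∂(muE ν)) +
            3 / 2 * (1 - stay ρ s l)) s := EP_mono fun l hl _ => (hpath l hl).1
      _ = EP k (fun l => stay ρ s l) s - g * (β ^ q * ∑ x ∈ A, CC H k q ρ s x) +
          g ^ 2 / 2 * EP k (fun l => stay ρ s l *
            ∫ e, wt β e (s :: l) * XX k q ρ A e ^ 2 ∂(muE ν)) s +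
          3 / 2 * EP k (fun l => 1 - stay ρ s l) s := by
          rw [EP_add, EP_add, EP_sub, EP_const_mul, EP_const_mul, EP_const_mul, hX1]
      _ ≤ 1 + 3 * (1 / m) - g * (β ^ q * ∑ x ∈ A, CC H k q ρ s x) := by
          rw [hT']; linarith
      _ = _ := by ring
  · calc EP k (fun l => ∫ e, wt β e (s :: l) * gb k q ρ A g e ^ 2 ∂(muE ν)) s
        ≤ EP k (fun l => stay ρ s l -
            2 * g * (stay ρ s l * ∫ e, wt β e (s :: l) * XX k q ρ A e ∂(muE ν)) +
            2 * g ^ 2 * (stay ρ s l * ∫ e, wt β e (s :: l) * XX k q ρ A e ^ 2 ∂(muE ν)) +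
            9 / 4 * (1 - stay ρ s l)) s := EP_mono fun l hl _ => (hpath l hl).2
      _ = EP k (fun l => stay ρ s l) s - 2 * g * (β ^ q * ∑ x ∈ A, CC H k q ρ s x) +
          2 * g ^ 2 * EP k (fun l => stay ρ s l *
            ∫ e, wt β e (s :: l) * XX k q ρ A e ^ 2 ∂(muE ν)) s +
          9 / 4 * EP k (fun l => 1 - stay ρ s l) s := by
          rw [EP_add, EP_add, EP_sub, EP_const_mul, EP_const_mul, EP_const_mul, hX1]
      _ ≤ 1 + 10 * (1 / m) := by
          rw [hT']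
          have : 0 ≤ g * (β ^ q * ∑ x ∈ A, CC H k q ρ s x) := mul_nonneg hg.le hX10
          linarith
      _ = _ := by ring

/-- the hypotheses of the coarse graining, for one block -/
theorem block_bounds (hM : SMom ν H β) (hH : ∀ x, 0 ≤ H x) (hS : Supp H r) (hρ : 0 ≤ ρ)
    (hr : 0 ≤ r) (hq : 1 ≤ q) {t U : ℝ} (ht : 0 < t) (htβ : t ≤ β) (hU0 : 0 ≤ U)
    (hU : ∀ x y : Pt, EP k (fun l => EP k (fun l' =>
      Real.exp (3 * t * β * hs H (x :: l) (y :: l'))) y) x ≤ U)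
    (A : Finset Pt) {g : ℝ} (hg : 0 < g) {m : ℕ}
    (hsm : g ^ 2 * (A.card * MT H k q ρ r) ≤ 1 / m)
    (hnear : g ^ 2 * ((2 * (2 * ρ + r) + 1) ^ 4 * ((t ^ (2 * q))⁻¹ * U)) ≤ 1 / m)
    (htail : ∀ x : Pt, EP k (fun l => 1 - stay ρ x l) x ≤ 1 / m) (z : Pt) :
    (EP (k + 1) (fun l => ∫ e, wt β e l * gb k q ρ A g e ∂(muE ν)) z ≤ 1 + 6 / m) ∧
    (∀ A0 : ℝ, (∀ i, bx (2 * ρ + r) (z + stp i) ⊆ A) →
      (A0 + 3) / m ≤ g * (β ^ q * MT H k q ρ r) →
      EP (k + 1) (fun l => ∫ e, wt β e l * gb k q ρ A g e ∂(muE ν)) z ≤ 1 - A0 / m) ∧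
    (EP (k + 1) (fun l => ∫ e, wt β e l * gb k q ρ A g e ^ 2 ∂(muE ν)) z ≤ 1 + 10 / m) := by
  have hβ : 0 ≤ β := ht.le.trans htβ
  have hb := fun s => block_first (k := k) hM hH hS hρ hr hq ht htβ hU0 hU A hg hsm hnear htail s
  have hm0 : (0:ℝ) ≤ 1 / m := by positivity
  refine ⟨?_, ?_, ?_⟩
  · rw [EP_succ]
    have : ∀ i ∈ (Finset.univ : Finset (Fin 4)), EP k (fun l => ∫ e, wt β e ((z + stp i) :: l) *
        gb k q ρ A g e ∂(muE ν)) (z + stp i) ≤ 1 + 3 / m := by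
      intro i _
      have h1 := (hb (z + stp i)).1
      have h2 : 0 ≤ g * (β ^ q * ∑ x ∈ A, CC H k q ρ (z + stp i) x) :=
        mul_nonneg hg.le (mul_nonneg (pow_nonneg hβ q)
          (Finset.sum_nonneg fun x _ => CC_nonneg hH _ x))
      linarith
    have h3 := Finset.sum_le_sum this
    simp only [Finset.sum_const, Finset.card_univ, Fintype.card_fin, nsmul_eq_mul] at h3
    have e3 : (3:ℝ) / m = 3 * (1 / m) := by ring
    have e6 : (6:ℝ) / m = 6 * (1 / m) := by ring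
    rw [e3] at h3
    rw [e6]
    push_cast at h3
    linarith
  · intro A0 hA hbig
    rw [EP_succ]
    have : ∀ i ∈ (Finset.univ : Finset (Fin 4)), EP k (fun l => ∫ e, wt β e ((z + stp i) :: l) *
        gb k q ρ A g e ∂(muE ν)) (z + stp i) ≤ 1 + 3 / m - (A0 + 3) / m := by
      intro i _
      have h1 := (hb (z + stp i)).1
      rw [sum_CC_eq hS hρ hq (hA i)] at h1
      linarith
    have h3 := Finset.sum_le_sum this
    simp only [Finset.sum_const, Finset.card_univ, Fintype.card_fin, nsmul_eq_mul] at h3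
    have e3 : (3:ℝ) / m = 3 * (1 / m) := by ring
    have e6 : (A0 + 3) / m = A0 / m + 3 * (1 / m) := by ring
    rw [e3, e6] at h3
    push_cast at h3
    linarith
  · rw [EP_succ]
    have h3 := Finset.sum_le_sum (fun i (_ : i ∈ (Finset.univ : Finset (Fin 4))) =>
      (hb (z + stp i)).2)
    simp only [Finset.sum_const, Finset.card_univ, Fintype.card_fin, nsmul_eq_mul] at h3
    push_cast at h3
    linarith

end

end Pool.Agent.Helper98.LogPoly.Mn
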