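import Pool.Agent.Helper98.LogPoly.Defs

/-! Basic lemmas on the walk averages `EP`. -/

set_option autoImplicit false

namespace Pool.Agent.Helper98.LogPoly

open MeasureTheory ProbabilityTheory
open scoped ENNReal

/-- the list is a nearest-neighbour path following the point `x` -/
def IsPath : Pt → List Pt → Prop
  | _, [] => True
  | x, y :: l => (∃ i : Fin 4, y = x + stp i) ∧ IsPath y l

theorem EP_zero (F : List Pt → ℝ) (x : Pt) : EP 0 F x = F [] := rfl

theorem EP_succ (k : ℕ) (F : List Pt → ℝ) (x : Pt) :
    EP (k + 1) F x = (1 / 4) * ∑ i : Fin 4, EP k (fun l => F ((x + stp i) :: l)) (x + stp i) := rfl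

theorem EP_congr {k : ℕ} {F G : List Pt → ℝ} {x : Pt}
    (h : ∀ l : List Pt, l.length = k → IsPath x l → F l = G l) : EP k F x = EP k G x := by
  induction k generalizing F G x with
  | zero => exact h [] rfl trivial
  | succ k ih =>
    rw [EP_succ, EP_succ]
    congr 1
    refine Finset.sum_congr rfl fun i _ => ih ?_
    intro l hl hp
    exact h _ (by simp [hl]) ⟨⟨i, rfl⟩, hp⟩

theorem EP_mono {k : ℕ} {F G : List Pt → ℝ} {x : Pt}
    (h : ∀ l : List Pt, l.length = k → IsPath x l → F l ≤ G l) : EP k F x ≤ EP k G x := by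
  induction k generalizing F G x with
  | zero => exact h [] rfl trivial
  | succ k ih =>
    rw [EP_succ, EP_succ]
    refine mul_le_mul_of_nonneg_left (Finset.sum_le_sum fun i _ => ih ?_) (by norm_num)
    intro l hl hp
    exact h _ (by simp [hl]) ⟨⟨i, rfl⟩, hp⟩

theorem EP_const (k : ℕ) (c : ℝ) (x : Pt) : EP k (fun _ => c) x = c := by
  induction k generalizing x with
  | zero => rfl
  | succ k ih =>
    rw [EP_succ]
    simp [ih]

theorem EP_nonneg {k : ℕ} {F : List Pt → ℝ} {x : Pt}
    (h : ∀ l : List Pt, l.length = k → IsPath x l → 0 ≤ F l) : 0 ≤ EP k F x := by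
  have := EP_mono (F := fun _ => 0) (G := F) (k := k) (x := x) h
  rwa [EP_const] at this

theorem EP_add (k : ℕ) (F G : List Pt → ℝ) (x : Pt) :
    EP k (fun l => F l + G l) x = EP k F x + EP k G x := by
  induction k generalizing F G x with
  | zero => rfl
  | succ k ih =>
    rw [EP_succ, EP_succ, EP_succ]
    simp only [ih, Finset.sum_add_distrib]
    ring

theorem EP_const_mul (k : ℕ) (c : ℝ) (F : List Pt → ℝ) (x : Pt) :
    EP k (fun l => c * F l) x = c * EP k F x := by
  induction k generalizing F x with
  | zero => rfl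
  | succ k ih =>
    rw [EP_succ, EP_succ]
    simp only [ih, ← Finset.mul_sum]
    ring

theorem EP_mul_const (k : ℕ) (c : ℝ) (F : List Pt → ℝ) (x : Pt) :
    EP k (fun l => F l * c) x = EP k F x * c := by
  simp only [mul_comm _ c]
  exact EP_const_mul k c F x

theorem EP_neg (k : ℕ) (F : List Pt → ℝ) (x : Pt) :
    EP k (fun l => -F l) x = -EP k F x := by
  have := EP_const_mul k (-1) F x
  simpa using this

theorem EP_sub (k : ℕ) (F G : List Pt → ℝ) (x : Pt) :
    EP k (fun l => F l - G l) x = EP k F x - EP k G x := by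
  simp only [sub_eq_add_neg]
  rw [EP_add, EP_neg]

theorem EP_sum {ι : Type*} (s : Finset ι) (k : ℕ) (F : ι → List Pt → ℝ) (x : Pt) :
    EP k (fun l => ∑ i ∈ s, F i l) x = ∑ i ∈ s, EP k (F i) x := by
  induction k generalizing F x with
  | zero => rfl
  | succ k ih =>
    rw [EP_succ]
    simp only [ih, EP_succ]
    rw [Finset.sum_comm, Finset.mul_sum]

/-- product of two averages -/
theorem EP_mul (k k' : ℕ) (F G : List Pt → ℝ) (x y : Pt) :
    EP k F x * EP k' G y = EP k (fun l => EP k' (fun l' => F l * G l') y) x := by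
  simp only [EP_const_mul, EP_mul_const]

theorem EP_comm (k k' : ℕ) (F : List Pt → List Pt → ℝ) (x y : Pt) :
    EP k (fun l => EP k' (fun l' => F l l') y) x = EP k' (fun l' => EP k (fun l => F l l') x) y := by
  induction k generalizing F x with
  | zero => rfl
  | succ k ih =>
    rw [EP_succ]
    simp only [ih, EP_succ]
    rw [EP_const_mul, EP_sum]

theorem EP_abs_le (k : ℕ) (F : List Pt → ℝ) (x : Pt) : |EP k F x| ≤ EP k (fun l => |F l|) x := by
  rw [abs_le]
  constructor
  · rw [← EP_neg]
    exact EP_mono fun l _ _ => neg_abs_le _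
  · exact EP_mono fun l _ _ => le_abs_self _

/-- Cauchy–Schwarz -/
theorem EP_cauchy (k : ℕ) (F G : List Pt → ℝ) (x : Pt) :
    EP k (fun l => F l * G l) x ^ 2 ≤ EP k (fun l => F l ^ 2) x * EP k (fun l => G l ^ 2) x := by
  have hA : 0 ≤ EP k (fun l => F l ^ 2) x := EP_nonneg fun l _ _ => sq_nonneg _
  have hC : 0 ≤ EP k (fun l => G l ^ 2) x := EP_nonneg fun l _ _ => sq_nonneg _
  have key : ∀ t : ℝ, 0 ≤ EP k (fun l => F l ^ 2) x * (t * t) +
      (2 * EP k (fun l => F l * G l) x) * t + EP k (fun l => G l ^ 2) x := by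
    intro t
    have h1 : 0 ≤ EP k (fun l => (t * F l + G l) ^ 2) x := EP_nonneg fun l _ _ => sq_nonneg _
    have h2 : EP k (fun l => (t * F l + G l) ^ 2) x =
        EP k (fun l => F l ^ 2) x * (t * t) + (2 * EP k (fun l => F l * G l) x) * t +
          EP k (fun l => G l ^ 2) x := by
      rw [← EP_mul_const, ← EP_const_mul, ← EP_mul_const, ← EP_add, ← EP_add]
      exact EP_congr fun l _ _ => by ring
    linarith [h2 ▸ h1]
  have := discrim_le_zero key
  rw [discrim] at this
  nlinarith

/-- splitting the walk at time `j` -/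
theorem EP_split (j k : ℕ) (F : List Pt → ℝ) (x : Pt) :
    EP (j + k) F x = EP j (fun l => EP k (fun l' => F (l ++ l')) (l.getLastD x)) x := by
  induction j generalizing F x with
  | zero => rw [Nat.zero_add]; rfl
  | succ j ih =>
    rw [show j + 1 + k = (j + k) + 1 by ring, EP_succ, EP_succ]
    congr 1
    refine Finset.sum_congr rfl fun i _ => ?_
    rw [ih]
    refine EP_congr fun l _ _ => ?_
    rw [List.getLastD_cons]
    rfl

section integral

variable {Ω : Type*} [MeasurableSpace Ω] {μ : Measure Ω}

theorem EP_integrable {k : ℕ} {F : List Pt → Ω → ℝ} {x : Pt}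
    (h : ∀ l : List Pt, l.length = k → IsPath x l → Integrable (F l) μ) :
    Integrable (fun w => EP k (fun l => F l w) x) μ := by
  induction k generalizing F x with
  | zero => exact h [] rfl trivial
  | succ k ih =>
    simp only [EP_succ]
    refine (integrable_finsetSum _ fun i _ => ih ?_).const_mul _
    intro l hl hp
    exact h _ (by simp [hl]) ⟨⟨i, rfl⟩, hp⟩

theorem integral_EP {k : ℕ} {F : List Pt → Ω → ℝ} {x : Pt}
    (h : ∀ l : List Pt, l.length = k → IsPath x l → Integrable (F l) μ) :
    ∫ w, EP k (fun l => F l w) x ∂μ = EP k (fun l => ∫ w, F l w ∂μ) x := by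
  induction k generalizing F x with
  | zero => rfl
  | succ k ih =>
    simp only [EP_succ]
    rw [integral_const_mul, integral_finsetSum]
    · congr 1
      refine Finset.sum_congr rfl fun i _ => ih ?_
      intro l hl hp
      exact h _ (by simp [hl]) ⟨⟨i, rfl⟩, hp⟩
    · intro i _
      refine EP_integrable ?_
      intro l hl hp
      exact h _ (by simp [hl]) ⟨⟨i, rfl⟩, hp⟩

theorem EP_measurable {k : ℕ} {F : List Pt → Ω → ℝ} {x : Pt}
    (h : ∀ l : List Pt, l.length = k → Measurable (F l)) :
    Measurable (fun w => EP k (fun l => F l w) x) := by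
  induction k generalizing F x with
  | zero => exact h [] rfl
  | succ k ih =>
    simp only [EP_succ]
    refine (Finset.measurable_sum _ fun i _ => ih ?_).const_mul _
    intro l hl
    exact h _ (by simp [hl])

end integral

theorem wt_nonneg (β : ℝ) (e : ℕ → Pt → ℝ) (l : List Pt) : 0 ≤ wt β e l := by
  induction l generalizing e with
  | nil => exact zero_le_one
  | cons x l ih => exact mul_nonneg (Real.exp_pos _).le (ih _)

theorem wt_pos (β : ℝ) (e : ℕ → Pt → ℝ) (l : List Pt) : 0 < wt β e l := by
  induction l generalizing e with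
  | nil => exact zero_lt_one
  | cons x l ih => exact mul_pos (Real.exp_pos _) (ih _)

theorem measurable_tail : Measurable (fun (e : ℕ → Pt → ℝ) (n : ℕ) => e (n + 1)) := by
  rw [measurable_pi_iff]
  intro n
  exact measurable_pi_apply (n + 1)

theorem measurable_coord (n : ℕ) (x : Pt) : Measurable (fun e : ℕ → Pt → ℝ => e n x) :=
  (measurable_pi_apply x).comp (measurable_pi_apply n)

theorem wt_measurable (β : ℝ) (l : List Pt) : Measurable (fun e : ℕ → Pt → ℝ => wt β e l) := by
  induction l with
  | nil => exact measurable_const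
  | cons x l ih =>
    refine Measurable.mul ?_ (ih.comp measurable_tail)
    exact Real.measurable_exp.comp (((measurable_coord 0 x).const_mul β).sub_const _)

theorem es_vals_measurable (q : ℕ) (l : List Pt) :
    Measurable (fun e : ℕ → Pt → ℝ => es q (vals e l)) := by
  induction l generalizing q with
  | nil => simp only [vals]; exact measurable_const
  | cons x l ih =>
    cases q with
    | zero => exact measurable_const
    | succ q =>
      show Measurable (fun e : ℕ → Pt → ℝ => es (q + 1) (vals (fun n => e (n + 1)) l) +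
        e 0 x * es q (vals (fun n => e (n + 1)) l))
      exact ((ih (q + 1)).comp measurable_tail).add
        ((measurable_coord 0 x).mul ((ih q).comp measurable_tail))

end Pool.Agent.Helper98.LogPoly
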